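import Mathlib

set_option autoImplicit false
set_option maxHeartbeats 1000000

namespace Pool.Agent.Helper57.AUC

open Classical

/-! ### Sums of absolute values and of squares of finitely supported functions -/

section q
variable {ι : Type}

/-- The `ℓ₁` norm. -/
noncomputable def q1 (f : ι →₀ ℝ) : ℝ := ∑ i ∈ f.support, |f i|

/-- The `ℓ₂` norm. -/
noncomputable def q2 (f : ι →₀ ℝ) : ℝ := Real.sqrt (∑ i ∈ f.support, f i ^ 2)

theorem q1_eq (f : ι →₀ ℝ) {s : Finset ι} (hs : f.support ⊆ s) : q1 f = ∑ i ∈ s, |f i| := by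
  refine Finset.sum_subset hs fun i _ hi => ?_
  rw [Finsupp.notMem_support_iff.1 hi, abs_zero]

theorem q1_nonneg (f : ι →₀ ℝ) : 0 ≤ q1 f := Finset.sum_nonneg fun _ _ => abs_nonneg _

theorem q1_add (f g : ι →₀ ℝ) : q1 (f + g) ≤ q1 f + q1 g := by
  rw [q1_eq (f + g) (s := f.support ∪ g.support) Finsupp.support_add,
    q1_eq f (s := f.support ∪ g.support) Finset.subset_union_left,
    q1_eq g (s := f.support ∪ g.support) Finset.subset_union_right, ← Finset.sum_add_distrib]
  exact Finset.sum_le_sum fun i _ => abs_add_le _ _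

theorem q1_smul (r : ℝ) (f : ι →₀ ℝ) : q1 (r • f) = |r| * q1 f := by
  rw [q1_eq (r • f) (s := f.support) Finsupp.support_smul, q1, Finset.mul_sum]
  exact Finset.sum_congr rfl fun i _ => by rw [Finsupp.smul_apply, smul_eq_mul, abs_mul]

/-- The `ℓ₁` seminorm. -/
noncomputable def q1S : Seminorm ℝ (ι →₀ ℝ) :=
  Seminorm.of q1 q1_add (fun r f => by rw [q1_smul]; rfl)

theorem q1S_apply (f : ι →₀ ℝ) : q1S f = q1 f := rfl

theorem q1_single (i : ι) (r : ℝ) : q1 (Finsupp.single i r) = |r| := by
  rw [q1_eq _ (s := {i}) Finsupp.support_single_subset, Finset.sum_singleton,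
    Finsupp.single_eq_same]

theorem q2_sq (f : ι →₀ ℝ) {s : Finset ι} (hs : f.support ⊆ s) : q2 f ^ 2 = ∑ i ∈ s, f i ^ 2 := by
  rw [q2, Real.sq_sqrt (Finset.sum_nonneg fun _ _ => sq_nonneg _)]
  refine Finset.sum_subset hs fun i _ hi => ?_
  rw [Finsupp.notMem_support_iff.1 hi]
  ring

theorem q2_nonneg (f : ι →₀ ℝ) : 0 ≤ q2 f := Real.sqrt_nonneg _

theorem q2_mono {f g : ι →₀ ℝ} (h : ∀ i, |f i| ≤ |g i|) : q2 f ≤ q2 g := by
  refine Real.sqrt_le_sqrt ?_
  have hs : f.support ⊆ g.support := by
    intro i hi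
    rw [Finsupp.mem_support_iff] at hi ⊢
    intro h0
    have := h i
    rw [h0, abs_zero] at this
    exact hi (abs_nonpos_iff.1 this)
  calc ∑ i ∈ f.support, f i ^ 2 ≤ ∑ i ∈ f.support, g i ^ 2 :=
        Finset.sum_le_sum fun i _ => sq_le_sq.2 (h i)
    _ ≤ _ := Finset.sum_le_sum_of_subset_of_nonneg hs fun _ _ _ => sq_nonneg _

theorem q2_add (f g : ι →₀ ℝ) : q2 (f + g) ≤ q2 f + q2 g := by
  refine abs_le_of_sq_le_sq' ?_ (add_nonneg (q2_nonneg _) (q2_nonneg _)) |>.2
  set s := f.support ∪ g.support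
  have h1 := q2_sq (f + g) (s := s) Finsupp.support_add
  have h2 := q2_sq f (s := s) Finset.subset_union_left
  have h3 := q2_sq g (s := s) Finset.subset_union_right
  have h4 : (∑ i ∈ s, f i * g i) ≤ q2 f * q2 g := by
    have h5 := Finset.sum_mul_sq_le_sq_mul_sq s f g
    rw [← h2, ← h3, ← mul_pow] at h5
    exact abs_le_of_sq_le_sq' h5 (mul_nonneg (q2_nonneg _) (q2_nonneg _)) |>.2
  have h6 : ∑ i ∈ s, (f + g) i ^ 2 = ∑ i ∈ s, f i ^ 2 + 2 * ∑ i ∈ s, f i * g i
      + ∑ i ∈ s, g i ^ 2 := by
    rw [Finset.mul_sum, ← Finset.sum_add_distrib, ← Finset.sum_add_distrib]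
    exact Finset.sum_congr rfl fun i _ => by rw [Finsupp.add_apply]; ring
  rw [h1, h6, ← h2, ← h3]
  nlinarith

theorem q2_smul (r : ℝ) (f : ι →₀ ℝ) : q2 (r • f) = |r| * q2 f := by
  have h1 := q2_sq (r • f) (s := f.support) Finsupp.support_smul
  have h2 := q2_sq f (s := f.support) subset_rfl
  have h3 : q2 (r • f) ^ 2 = (|r| * q2 f) ^ 2 := by
    rw [h1, mul_pow, h2, sq_abs, Finset.mul_sum]
    exact Finset.sum_congr rfl fun i _ => by rw [Finsupp.smul_apply, smul_eq_mul]; ring
  rcases sq_eq_sq_iff_abs_eq_abs _ _ |>.1 h3 with h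
  rwa [abs_of_nonneg (q2_nonneg _), abs_of_nonneg (mul_nonneg (abs_nonneg _) (q2_nonneg _))] at h

/-- The `ℓ₂` seminorm. -/
noncomputable def q2S : Seminorm ℝ (ι →₀ ℝ) :=
  Seminorm.of q2 q2_add (fun r f => by rw [q2_smul]; rfl)

theorem q2S_apply (f : ι →₀ ℝ) : q2S f = q2 f := rfl

theorem abs_le_q2 (f : ι →₀ ℝ) (i : ι) : |f i| ≤ q2 f := by
  refine abs_le_of_sq_le_sq ?_ (q2_nonneg _)
  rw [q2_sq f (s := insert i f.support) (Finset.subset_insert _ _)]
  exact Finset.single_le_sum (f := fun i => f i ^ 2) (fun _ _ => sq_nonneg _)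
    (Finset.mem_insert_self _ _)

end q

/-! ### The tree -/

/-- Number of children in a group. -/
def K (N : ℕ) : ℕ := 4 ^ (N + 3)

theorem K_pos (N : ℕ) : 0 < K N := by unfold K; positivity

/-- Vertices other than the root. -/
abbrev Node : Type := Σ N : ℕ, List (ℕ × Fin (K N))

/-- Vertices. -/
abbrev V : Type := Option Node

/-- Parent. -/
def par : V → V
  | none => none
  | some ⟨_, []⟩ => none
  | some ⟨N, _ :: l⟩ => some ⟨N, l⟩

/-- The `i`-th child in the `j`-th group. -/
def ch (g : Node) (j : ℕ) (i : Fin (K g.1)) : V := some ⟨g.1, (j, i) :: g.2⟩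

/-- Component. -/
def comp : V → ℕ
  | none => 0
  | some g => g.1

/-- Position in the group. -/
def idx : V → ℕ
  | none => 0
  | some ⟨_, []⟩ => 0
  | some ⟨_, g :: _⟩ => g.2.val

/-- Level. -/
def lev : V → ℕ
  | none => 0
  | some ⟨_, l⟩ => l.length + 1

theorem par_ch (g : Node) (j : ℕ) (i : Fin (K g.1)) : par (ch g j i) = some g := rfl
theorem idx_ch (g : Node) (j : ℕ) (i : Fin (K g.1)) : idx (ch g j i) = i.val := rfl
theorem comp_ch (g : Node) (j : ℕ) (i : Fin (K g.1)) : comp (ch g j i) = g.1 := rfl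

theorem lev_par {v : V} (hv : v ≠ none) : lev (par v) + 1 = lev v := by
  rcases v with _ | ⟨N, _ | ⟨g, l⟩⟩
  · exact absurd rfl hv
  · rfl
  · rfl

theorem comp_par {v : V} (hv : par v ≠ none) : comp (par v) = comp v := by
  rcases v with _ | ⟨N, _ | ⟨g, l⟩⟩
  · exact absurd rfl hv
  · exact absurd rfl hv
  · rfl

theorem V_induct {P : V → Prop} (h0 : P none) (h1 : ∀ v, v ≠ none → P (par v) → P v) :
    ∀ v, P v := by
  rintro (_ | ⟨N, l⟩)
  · exact h0
  · induction l with
    | nil => exact h1 _ (by simp) h0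
    | cons g l ih => exact h1 _ (by simp) ih

/-- A vertex with parent `some g` is a child. -/
theorem exists_ch {v : V} {g : Node} (h : par v = some g) : ∃ j i, v = ch g j i := by
  rcases v with _ | ⟨N, _ | ⟨⟨j, i⟩, l⟩⟩
  · exact absurd h (by simp [par])
  · exact absurd h (by simp [par])
  · have h' : (⟨N, l⟩ : Node) = g := Option.some.inj h
    subst h'
    exact ⟨j, i, rfl⟩

theorem ch_inj {g : Node} {j j' : ℕ} {i i' : Fin (K g.1)} (h : ch g j i = ch g j' i') :
    j = j' ∧ i = i' := by
  have h1 : (⟨g.1, (j, i) :: g.2⟩ : Node) = ⟨g.1, (j', i') :: g.2⟩ := Option.some.inj h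
  have h2 : (j, i) :: g.2 = (j', i') :: g.2 := by
    have := Sigma.mk.inj h1
    exact eq_of_heq this.2
  have h3 : (j, i) = (j', i') := (List.cons.inj h2).1
  exact ⟨(Prod.mk.inj h3).1, (Prod.mk.inj h3).2⟩

/-- Ancestors of a vertex, itself included. -/
noncomputable def chainL (N : ℕ) : List (ℕ × Fin (K N)) → Finset V
  | [] => {some ⟨N, []⟩, none}
  | g :: l => insert (some ⟨N, g :: l⟩) (chainL N l)

/-- Ancestors of a vertex, itself included. -/
noncomputable def chain : V → Finset V
  | none => {none}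
  | some ⟨N, l⟩ => chainL N l

theorem chain_none : chain none = {none} := rfl

theorem chain_ne {v : V} (hv : v ≠ none) : chain v = insert v (chain (par v)) := by
  rcases v with _ | ⟨N, _ | ⟨g, l⟩⟩
  · exact absurd rfl hv
  · rfl
  · rfl

theorem self_mem_chain (v : V) : v ∈ chain v := by
  by_cases hv : v = none
  · subst hv; simp [chain_none]
  · rw [chain_ne hv]; exact Finset.mem_insert_self _ _

theorem none_mem_chain : ∀ v : V, none ∈ chain v :=
  V_induct (by simp [chain_none]) fun v hv ih => by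
    rw [chain_ne hv]; exact Finset.mem_insert_of_mem ih

theorem lev_le_of_mem : ∀ v : V, ∀ w ∈ chain v, lev w ≤ lev v :=
  V_induct (by
    intro w hw
    rw [chain_none, Finset.mem_singleton] at hw
    rw [hw]) fun v hv ih w hw => by
    rw [chain_ne hv, Finset.mem_insert] at hw
    rcases hw with rfl | hw
    · exact le_rfl
    · have := ih w hw
      have := lev_par hv
      omega

theorem self_notMem {v : V} (hv : v ≠ none) : v ∉ chain (par v) := fun h => by
  have h1 := lev_le_of_mem _ _ h
  have := lev_par hv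
  omega

theorem par_mem_chain : ∀ v : V, ∀ w ∈ chain v, par w ∈ chain v :=
  V_induct (by
    intro w hw
    rw [chain_none, Finset.mem_singleton] at hw
    rw [hw]; simp [chain_none, par]) fun v hv ih w hw => by
    rw [chain_ne hv] at hw ⊢
    rw [Finset.mem_insert] at hw
    rcases hw with rfl | hw
    · exact Finset.mem_insert_of_mem (self_mem_chain _)
    · exact Finset.mem_insert_of_mem (ih w hw)

/-- Two elements of a chain at the same level agree. -/
theorem chain_unique : ∀ v : V, ∀ w ∈ chain v, ∀ w' ∈ chain v, lev w = lev w' → w = w' :=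
  V_induct (by
    intro w hw w' hw' _
    rw [chain_none, Finset.mem_singleton] at hw hw'
    rw [hw, hw']) fun v hv ih w hw w' hw' h => by
    rw [chain_ne hv, Finset.mem_insert] at hw hw'
    have h0 := lev_par hv
    rcases hw with rfl | hw <;> rcases hw' with rfl | hw'
    · rfl
    · have := lev_le_of_mem _ _ hw'
      omega
    · have := lev_le_of_mem _ _ hw
      omega
    · exact ih w hw w' hw' h

theorem chain_sub : ∀ v : V, ∀ w ∈ chain v, chain w ⊆ chain v :=
  V_induct (by
    intro w hw
    rw [chain_none, Finset.mem_singleton] at hw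
    rw [hw]) fun v hv ih w hw => by
    rw [chain_ne hv, Finset.mem_insert] at hw
    rcases hw with rfl | hw
    · exact subset_rfl
    · exact (ih w hw).trans (by rw [chain_ne hv]; exact Finset.subset_insert _ _)

/-- The weights. -/
noncomputable def Lam : V → ℝ
  | none => 1
  | some ⟨N, l⟩ => 2 ^ N / 2 ^ l.length

theorem Lam_pos (v : V) : 0 < Lam v := by
  rcases v with _ | ⟨N, l⟩
  · exact one_pos
  · simp only [Lam]; positivity

theorem Lam_par {v : V} (hv : par v ≠ none) : Lam (par v) = 2 * Lam v := by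
  rcases v with _ | ⟨N, _ | ⟨g, l⟩⟩
  · exact absurd rfl hv
  · exact absurd rfl hv
  · simp only [Lam, par, List.length_cons, pow_succ]
    field_simp

theorem Lam_sq_le {v : V} (_ : v ≠ none) : Lam v ^ 2 ≤ 4 ^ comp v := by
  rcases v with _ | ⟨N, l⟩
  · norm_num [Lam, comp]
  · simp only [Lam, comp]
    have h1 : (2 : ℝ) ^ N / 2 ^ l.length ≤ 2 ^ N := by
      rw [div_le_iff₀ (by positivity)]
      have : (1 : ℝ) ≤ 2 ^ l.length := one_le_pow₀ (by norm_num)
      nlinarith [pow_pos (show (0 : ℝ) < 2 by norm_num) N]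
    calc ((2 : ℝ) ^ N / 2 ^ l.length) ^ 2 ≤ (2 ^ N) ^ 2 :=
          pow_le_pow_left₀ (by positivity) h1 2
      _ = 4 ^ N := by rw [← pow_mul, mul_comm, pow_mul]; norm_num

theorem one_le_Lam {N : ℕ} {l : List (ℕ × Fin (K N))} (h : l.length ≤ N) :
    1 ≤ Lam (some ⟨N, l⟩) := by
  simp only [Lam]
  rw [one_le_div (by positivity)]
  exact pow_le_pow_right₀ (by norm_num) h

/-! ### The seminorms on finitely supported functions -/

/-- The vector of a vertex. -/
noncomputable def ev (u : V) : V →₀ ℝ := ∑ w ∈ chain u, Finsupp.single w 1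

theorem ev_apply (u w : V) : ev u w = if w ∈ chain u then 1 else 0 := by
  rw [ev, Finsupp.finsetSum_apply]
  simp only [Finsupp.single_apply]
  rw [Finset.sum_ite_eq']

theorem ev_none : ev none = Finsupp.single none 1 := by
  rw [ev, chain_none, Finset.sum_singleton]

theorem ev_ne {v : V} (hv : v ≠ none) : ev v = Finsupp.single v 1 + ev (par v) := by
  rw [ev, chain_ne hv, Finset.sum_insert (self_notMem hv), ev]

/-- Combination of the vertex vectors. -/
noncomputable def E : (V →₀ ℝ) →ₗ[ℝ] (V →₀ ℝ) := Finsupp.linearCombination ℝ ev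

/-- The inverse of `E`. -/
noncomputable def Ei : (V →₀ ℝ) →ₗ[ℝ] (V →₀ ℝ) :=
  Finsupp.linearCombination ℝ fun w => if w = none then Finsupp.single none 1
    else Finsupp.single w 1 - Finsupp.single (par w) 1

theorem E_single (u : V) (r : ℝ) : E (Finsupp.single u r) = r • ev u := by
  rw [E, Finsupp.linearCombination_single]

theorem Ei_single (w : V) (r : ℝ) : Ei (Finsupp.single w r) = r • (if w = none then
    Finsupp.single none 1 else Finsupp.single w 1 - Finsupp.single (par w) 1) := by
  rw [Ei, Finsupp.linearCombination_single]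

theorem Ei_ev : ∀ u : V, Ei (ev u) = Finsupp.single u 1 :=
  V_induct (by rw [ev_none, Ei_single, if_pos rfl, one_smul]) fun v hv ih => by
    rw [ev_ne hv, map_add, ih, Ei_single, if_neg hv, one_smul, sub_add_cancel]

theorem Ei_E (a : V →₀ ℝ) : Ei (E a) = a := by
  have : Ei ∘ₗ E = LinearMap.id := by
    refine Finsupp.lhom_ext fun u r => ?_
    rw [LinearMap.comp_apply, E_single, map_smul, Ei_ev, LinearMap.id_apply, Finsupp.smul_single,
      smul_eq_mul, mul_one]
  exact LinearMap.congr_fun this a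

theorem E_Ei (x : V →₀ ℝ) : E (Ei x) = x := by
  have : E ∘ₗ Ei = LinearMap.id := by
    refine Finsupp.lhom_ext fun w r => ?_
    rw [LinearMap.comp_apply, Ei_single, map_smul, LinearMap.id_apply]
    by_cases hw : w = none
    · subst hw
      rw [if_pos rfl, E_single, one_smul, ev_none, Finsupp.smul_single, smul_eq_mul, mul_one]
    · rw [if_neg hw, map_sub, E_single, E_single, one_smul, one_smul, ev_ne hw, add_sub_cancel_right,
        Finsupp.smul_single, smul_eq_mul, mul_one]
  exact LinearMap.congr_fun this x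

theorem E_apply (a : V →₀ ℝ) (w : V) : E a w = ∑ u ∈ a.support, if w ∈ chain u then a u else 0 := by
  rw [E, Finsupp.linearCombination_apply, Finsupp.sum, Finsupp.finsetSum_apply]
  refine Finset.sum_congr rfl fun u _ => ?_
  rw [Finsupp.smul_apply, ev_apply, smul_eq_mul]
  split_ifs <;> simp

/-- Weighted group sums. -/
noncomputable def Bw : (V →₀ ℝ) →ₗ[ℝ] (Node × ℕ →₀ ℝ) :=
  Finsupp.linearCombination ℝ fun w => match w with
    | some ⟨N, (j, _) :: l⟩ => Finsupp.single ((⟨N, l⟩ : Node), j) (Lam (some ⟨N, l⟩))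
    | _ => 0

/-- Difference with the group average. -/
noncomputable def Zl : (V →₀ ℝ) →ₗ[ℝ] (V →₀ ℝ) :=
  Finsupp.linearCombination ℝ fun w => match w with
    | some ⟨N, (j, i) :: l⟩ => Finsupp.single (ch ⟨N, l⟩ j i) 1 -
        (1 / (K N : ℝ)) • ∑ i' : Fin (K N), Finsupp.single (ch ⟨N, l⟩ j i') 1
    | w => Finsupp.single w 1

/-- Weighted push forward to the parents. -/
noncomputable def MM : (V →₀ ℝ) →ₗ[ℝ] (V →₀ ℝ) :=
  Finsupp.linearCombination ℝ fun w => Finsupp.single (par w) (Lam (par w))

theorem Bw_apply (c : V →₀ ℝ) (g : Node) (j : ℕ) :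
    Bw c (g, j) = Lam (some g) * ∑ i, c (ch g j i) := by
  induction c using Finsupp.induction_linear with
  | zero => simp
  | add c c' h h' =>
    rw [map_add, Finsupp.add_apply, h, h']
    simp only [Finsupp.add_apply]
    rw [Finset.sum_add_distrib, mul_add]
  | single w r =>
    rw [Bw, Finsupp.linearCombination_single]
    rcases w with _ | ⟨N, _ | ⟨⟨j', i'⟩, l⟩⟩
    · simp [ch]
    · have : ∀ i, (Finsupp.single (some (⟨N, []⟩ : Node)) r : V →₀ ℝ) (ch g j i) = 0 := by
        intro i
        rw [Finsupp.single_apply, if_neg]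
        intro h
        have := congrArg par h
        rw [par_ch] at this
        exact absurd this (by simp [par])
      simp [this]
    · simp only [Finsupp.smul_apply, smul_eq_mul, Finsupp.single_apply]
      by_cases h : ((⟨N, l⟩ : Node), j') = (g, j)
      · obtain ⟨rfl, rfl⟩ := Prod.mk.inj h
        rw [if_pos rfl]
        have : ∀ i : Fin (K N), (if (some ⟨N, (j', i') :: l⟩ : V) = ch ⟨N, l⟩ j' i then r else 0)
            = if i' = i then r else 0 := by
          intro i
          by_cases hi : i' = i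
          · subst hi
            have h0 : (some ⟨N, (j', i') :: l⟩ : V) = ch ⟨N, l⟩ j' i' := rfl
            simp only [h0, if_true]
          · rw [if_neg hi, if_neg]
            intro hh
            exact hi (ch_inj (g := ⟨N, l⟩) hh).2
        simp only [this, Finset.sum_ite_eq, Finset.mem_univ, if_true]
        ring
      · rw [if_neg h, mul_zero]
        symm
        refine mul_eq_zero_of_right _ (Finset.sum_eq_zero fun i _ => ?_)
        rw [if_neg]
        intro hh
        have h1 := congrArg par hh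
        rw [par_ch] at h1
        have h2 : (⟨N, l⟩ : Node) = g := Option.some.inj h1
        subst h2
        have h3 := (ch_inj (g := ⟨N, l⟩) hh).1
        exact h (by rw [h3])

theorem Zl_apply_ch (c : V →₀ ℝ) (g : Node) (j : ℕ) (i : Fin (K g.1)) :
    Zl c (ch g j i) = c (ch g j i) - (1 / (K g.1 : ℝ)) * ∑ i', c (ch g j i') := by
  induction c using Finsupp.induction_linear with
  | zero => simp
  | add c c' h h' =>
    rw [map_add, Finsupp.add_apply, h, h']
    simp only [Finsupp.add_apply]
    rw [Finset.sum_add_distrib, mul_add]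
    ring
  | single w r =>
    rw [Zl, Finsupp.linearCombination_single]
    rcases w with _ | ⟨N, _ | ⟨⟨j', i'⟩, l⟩⟩
    · simp [ch]
    · have : ∀ i, (Finsupp.single (some (⟨N, []⟩ : Node)) (1 : ℝ) : V →₀ ℝ) (ch g j i) = 0 := by
        intro i
        rw [Finsupp.single_apply, if_neg]
        intro h
        have := congrArg par h
        rw [par_ch] at this
        exact absurd this (by simp [par])
      have h2 : ∀ i, (Finsupp.single (some (⟨N, []⟩ : Node)) r : V →₀ ℝ) (ch g j i) = 0 := by
        intro i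
        rw [Finsupp.single_apply, if_neg]
        intro h
        have := congrArg par h
        rw [par_ch] at this
        exact absurd this (by simp [par])
      simp only [Finsupp.smul_apply, this, h2, Finset.sum_const_zero]
      simp
    · simp only [Finsupp.smul_apply, smul_eq_mul, Finsupp.sub_apply, Finsupp.finsetSum_apply]
      by_cases h : ((⟨N, l⟩ : Node), j') = (g, j)
      · obtain ⟨rfl, rfl⟩ := Prod.mk.inj h
        have h1 : ∀ (a b : Fin (K N)) (t : ℝ), (Finsupp.single (ch ⟨N, l⟩ j' a) t : V →₀ ℝ)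
            (ch ⟨N, l⟩ j' b) = if a = b then t else 0 := by
          intro a b t
          rw [Finsupp.single_apply]
          by_cases hi : a = b
          · subst hi; rw [if_pos rfl, if_pos rfl]
          · rw [if_neg hi, if_neg]
            intro hh
            exact hi (ch_inj (g := ⟨N, l⟩) hh).2
        have h2 : (some ⟨N, (j', i') :: l⟩ : V) = ch ⟨N, l⟩ j' i' := rfl
        rw [h2]
        simp only [h1, Finset.sum_ite_eq, Finset.sum_ite_eq', Finset.mem_univ, if_true]
        split_ifs <;> ring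
      · have h1 : ∀ (a : Fin (K N)) (b : Fin (K g.1)) (t : ℝ),
            (Finsupp.single (ch ⟨N, l⟩ j' a) t : V →₀ ℝ) (ch g j b) = 0 := by
          intro a b t
          rw [Finsupp.single_apply, if_neg]
          intro hh
          have h1 := congrArg par hh
          rw [par_ch, par_ch] at h1
          have h2 : (⟨N, l⟩ : Node) = g := Option.some.inj h1
          subst h2
          have h3 := (ch_inj (g := ⟨N, l⟩) hh).1
          exact h (by rw [h3])
        have h2 : (some ⟨N, (j', i') :: l⟩ : V) = ch ⟨N, l⟩ j' i' := rfl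
        rw [h2]
        simp only [h1, Finset.sum_const_zero]
        ring

theorem Zl_apply_top (c : V →₀ ℝ) {v : V} (hv : par v = none) : Zl c v = c v := by
  induction c using Finsupp.induction_linear with
  | zero => simp
  | add c c' h h' => rw [map_add, Finsupp.add_apply, h, h', Finsupp.add_apply]
  | single w r =>
    rw [Zl, Finsupp.linearCombination_single]
    rcases w with _ | ⟨N, _ | ⟨⟨j', i'⟩, l⟩⟩
    · simp [Finsupp.single_apply]
    · simp [Finsupp.single_apply]
    · simp only [Finsupp.smul_apply, smul_eq_mul, Finsupp.sub_apply, Finsupp.finsetSum_apply]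
      have h1 : ∀ (a : Fin (K N)) (t : ℝ),
          (Finsupp.single (ch ⟨N, l⟩ j' a) t : V →₀ ℝ) v = 0 := by
        intro a t
        rw [Finsupp.single_apply, if_neg]
        intro hh
        rw [← hh, par_ch] at hv
        exact absurd hv (by simp)
      have h2 : (some ⟨N, (j', i') :: l⟩ : V) = ch ⟨N, l⟩ j' i' := rfl
      rw [h2]
      simp only [h1, Finset.sum_const_zero]
      ring

/-- Absolute value. -/
noncomputable def ab (z : V →₀ ℝ) : V →₀ ℝ := z.mapRange (fun r => |r|) abs_zero

theorem ab_apply (z : V →₀ ℝ) (w : V) : ab z w = |z w| := Finsupp.mapRange_apply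

/-- Sum of absolute values over the children. -/
noncomputable def ms (z : V →₀ ℝ) (v : V) : ℝ := ∑ w ∈ z.support, if par w = v then |z w| else 0

theorem ms_eq (z : V →₀ ℝ) (v : V) {s : Finset V} (hs : z.support ⊆ s) :
    ms z v = ∑ w ∈ s, if par w = v then |z w| else 0 := by
  refine Finset.sum_subset hs fun w _ hw => ?_
  rw [Finsupp.notMem_support_iff.1 hw, abs_zero, ite_self]

theorem ms_nonneg (z : V →₀ ℝ) (v : V) : 0 ≤ ms z v :=
  Finset.sum_nonneg fun w _ => by split_ifs <;> positivity

theorem MM_apply (y : V →₀ ℝ) (v : V) {s : Finset V} (hs : y.support ⊆ s) :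
    MM y v = Lam v * ∑ w ∈ s, if par w = v then y w else 0 := by
  rw [MM, Finsupp.linearCombination_apply, Finsupp.sum, Finsupp.finsetSum_apply, Finset.mul_sum,
    ← Finset.sum_subset hs]
  · refine Finset.sum_congr rfl fun w _ => ?_
    rw [Finsupp.smul_apply, Finsupp.single_apply, smul_eq_mul]
    by_cases h : par w = v
    · rw [if_pos h, if_pos h, h]; ring
    · rw [if_neg h, if_neg h]; ring
  · intro w _ hw
    rw [Finsupp.notMem_support_iff.1 hw, ite_self, mul_zero]

theorem MM_ab (z : V →₀ ℝ) (v : V) : MM (ab z) v = Lam v * ms z v := by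
  have hs : (ab z).support ⊆ z.support := Finsupp.support_mapRange
  rw [MM_apply _ _ hs, ms]
  simp only [ab_apply]

theorem ms_add (z z' : V →₀ ℝ) (v : V) : ms (z + z') v ≤ ms z v + ms z' v := by
  rw [ms_eq (z + z') v (s := z.support ∪ z'.support) Finsupp.support_add,
    ms_eq z v (s := z.support ∪ z'.support) Finset.subset_union_left,
    ms_eq z' v (s := z.support ∪ z'.support) Finset.subset_union_right, ← Finset.sum_add_distrib]
  refine Finset.sum_le_sum fun w _ => ?_
  split_ifs
  · exact abs_add_le _ _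
  · norm_num

theorem ms_smul (r : ℝ) (z : V →₀ ℝ) (v : V) : ms (r • z) v = |r| * ms z v := by
  rw [ms_eq (r • z) v (s := z.support) Finsupp.support_smul, ms, Finset.mul_sum]
  refine Finset.sum_congr rfl fun w _ => ?_
  rw [Finsupp.smul_apply, smul_eq_mul, abs_mul]
  split_ifs
  · rfl
  · rw [mul_zero]

/-- The second part of the Hilbertian seminorm, on the differences. -/
noncomputable def T2 : Seminorm ℝ (V →₀ ℝ) :=
  Seminorm.of (fun z => q2 (MM (ab z)))
    (fun z z' => by
      refine le_trans (q2_mono (g := MM (ab z) + MM (ab z')) fun v => ?_) (q2_add _ _)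
      rw [Finsupp.add_apply, MM_ab, MM_ab, MM_ab]
      have h1 := ms_add z z' v
      have h2 := (Lam_pos v).le
      have h3 := ms_nonneg (z + z') v
      have h4 := ms_nonneg z v
      have h5 := ms_nonneg z' v
      rw [abs_of_nonneg (mul_nonneg h2 h3), abs_of_nonneg (by positivity), ← mul_add]
      exact mul_le_mul_of_nonneg_left h1 h2)
    (fun r z => by
      have : MM (ab (r • z)) = |r| • MM (ab z) := by
        ext v
        rw [Finsupp.smul_apply, MM_ab, MM_ab, ms_smul, smul_eq_mul]
        ring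
      rw [this, q2_smul, abs_abs]
      rfl)

theorem T2_apply (z : V →₀ ℝ) : T2 z = q2 (MM (ab z)) := rfl

/-- The first part of the Hilbertian seminorm. -/
noncomputable def S1 : Seminorm ℝ (V →₀ ℝ) := q2S.comp Bw

/-- The second part of the Hilbertian seminorm. -/
noncomputable def S2 : Seminorm ℝ (V →₀ ℝ) := T2.comp Zl

theorem S1_apply (c : V →₀ ℝ) : S1 c = q2 (Bw c) := rfl
theorem S2_apply (c : V →₀ ℝ) : S2 c = q2 (MM (ab (Zl c))) := rfl

/-- The seminorm whose completion is the example. -/
noncomputable def Nm : Seminorm ℝ (V →₀ ℝ) := (q1S.comp Ei) ⊓ (S1 + S2)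

theorem Nm_le (a c : V →₀ ℝ) : Nm (E a + c) ≤ q1 a + (S1 c + S2 c) := by
  rw [Nm, Seminorm.inf_apply]
  refine (ciInf_le (Seminorm.bddBelow_range_add) (E a)).trans ?_
  rw [Seminorm.comp_apply, Ei_E, q1S_apply, add_sub_cancel_left, _root_.add_apply]

theorem Nm_rep (x : V →₀ ℝ) {η : ℝ} (hη : 0 < η) :
    ∃ a c : V →₀ ℝ, x = E a + c ∧ q1 a + (S1 c + S2 c) < Nm x + η := by
  have h : Nm x < Nm x + η := by linarith
  have h2 : (⨅ u : V →₀ ℝ, (q1S.comp Ei) u + (S1 + S2) (x - u)) < Nm x + η := by
    rw [← Seminorm.inf_apply]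
    exact h
  obtain ⟨u, hu⟩ := exists_lt_of_ciInf_lt h2
  refine ⟨Ei u, x - u, by rw [E_Ei]; abel, ?_⟩
  rwa [Seminorm.comp_apply, q1S_apply, _root_.add_apply] at hu

end Pool.Agent.Helper57.AUC
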