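import Pool.Agent.Helper57.AUC1

set_option autoImplicit false
set_option maxHeartbeats 1000000

namespace Pool.Agent.Helper57.AUC

open Classical

/-! ### Closed finite sets of vertices and the projections on them -/

/-- Finite sets closed under parents and siblings. -/
structure Cl (A : Finset V) : Prop where
  root : none ∈ A
  par : ∀ w ∈ A, par w ∈ A
  sib : ∀ (g : Node) (j : ℕ) (i i' : Fin (K g.1)), ch g j i ∈ A → ch g j i' ∈ A

theorem Cl.chain {A : Finset V} (hA : Cl A) : ∀ w : V, w ∈ A → chain w ⊆ A :=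
  V_induct (by
    intro h w hw
    rw [chain_none, Finset.mem_singleton] at hw
    rwa [hw]) fun v hv ih h w hw => by
    rw [chain_ne hv, Finset.mem_insert] at hw
    rcases hw with rfl | hw
    · exact h
    · exact ih (hA.par _ h) hw

/-- The closest ancestor in `A`. -/
noncomputable def piL (A : Finset V) (N : ℕ) : List (ℕ × Fin (K N)) → V
  | [] => if (some ⟨N, []⟩ : V) ∈ A then some ⟨N, []⟩ else none
  | g :: l => if (some ⟨N, g :: l⟩ : V) ∈ A then some ⟨N, g :: l⟩ else piL A N l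

/-- The closest ancestor in `A`. -/
noncomputable def pi (A : Finset V) : V → V
  | none => none
  | some ⟨N, l⟩ => piL A N l

/-- The first vertex outside `A` on the way to the vertex. -/
noncomputable def exL (A : Finset V) (N : ℕ) : List (ℕ × Fin (K N)) → V
  | [] => some ⟨N, []⟩
  | g :: l => if (some ⟨N, l⟩ : V) ∈ A then some ⟨N, g :: l⟩ else exL A N l

/-- The first vertex outside `A` on the way to the vertex. -/
noncomputable def ex (A : Finset V) : V → V
  | none => none
  | some ⟨N, l⟩ => exL A N l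

theorem pi_none (A : Finset V) : pi A none = none := rfl

theorem pi_of_notMem {A : Finset V} {v : V} (h : v ∉ A) : pi A v = pi A (par v) := by
  rcases v with _ | ⟨N, _ | ⟨g, l⟩⟩
  · rfl
  · show (if (some ⟨N, []⟩ : V) ∈ A then (some ⟨N, []⟩ : V) else none) = none
    rw [if_neg h]
  · show (if (some ⟨N, g :: l⟩ : V) ∈ A then (some ⟨N, g :: l⟩ : V) else piL A N l) = _
    rw [if_neg h]
    rfl

theorem pi_of_mem {A : Finset V} {v : V} (h : v ∈ A) : pi A v = v := by
  rcases v with _ | ⟨N, _ | ⟨g, l⟩⟩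
  · rfl
  · show (if (some ⟨N, []⟩ : V) ∈ A then (some ⟨N, []⟩ : V) else none) = _
    rw [if_pos h]
  · show (if (some ⟨N, g :: l⟩ : V) ∈ A then (some ⟨N, g :: l⟩ : V) else piL A N l) = _
    rw [if_pos h]

theorem ex_of_par_mem {A : Finset V} {v : V} (h : par v ∈ A) : ex A v = v := by
  rcases v with _ | ⟨N, _ | ⟨g, l⟩⟩
  · rfl
  · rfl
  · show (if (some ⟨N, l⟩ : V) ∈ A then (some ⟨N, g :: l⟩ : V) else exL A N l) = _
    rw [if_pos]
    exact h

theorem ex_of_par_notMem {A : Finset V} (hA : none ∈ A) {v : V} (h : par v ∉ A) :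
    ex A v = ex A (par v) := by
  rcases v with _ | ⟨N, _ | ⟨g, l⟩⟩
  · rfl
  · exact absurd hA h
  · show (if (some ⟨N, l⟩ : V) ∈ A then (some ⟨N, g :: l⟩ : V) else exL A N l) = _
    have h' : (some ⟨N, l⟩ : V) ∉ A := h
    rw [if_neg h']
    rfl

section
variable {A : Finset V} (hA : Cl A)
include hA

theorem ne_of_notMem {v : V} (h : v ∉ A) : v ≠ none := by
  rintro rfl; exact h hA.root

theorem pi_mem : ∀ v : V, pi A v ∈ A :=
  V_induct (by rw [pi_none]; exact hA.root) fun v _ ih => by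
    by_cases h : v ∈ A
    · rwa [pi_of_mem h]
    · rwa [pi_of_notMem h]

theorem chain_pi : ∀ v : V, chain (pi A v) = (chain v).filter (· ∈ A) :=
  V_induct (by
    rw [pi_none, chain_none]
    ext w
    simp only [Finset.mem_singleton, Finset.mem_filter]
    exact ⟨fun h => ⟨h, h ▸ hA.root⟩, fun h => h.1⟩) fun v hv ih => by
    by_cases h : v ∈ A
    · rw [pi_of_mem h]
      ext w
      simp only [Finset.mem_filter]
      exact ⟨fun hw => ⟨hw, hA.chain v h hw⟩, fun hw => hw.1⟩
    · rw [pi_of_notMem h, ih, chain_ne hv, Finset.filter_insert, if_neg h]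

theorem ex_spec : ∀ v : V, v ∉ A → ex A v ∈ chain v ∧ ex A v ∉ A ∧ par (ex A v) = pi A v :=
  V_induct (fun h => absurd hA.root h) fun v hv ih h => by
    by_cases hp : par v ∈ A
    · rw [ex_of_par_mem hp]
      refine ⟨self_mem_chain v, h, ?_⟩
      rw [pi_of_notMem h, pi_of_mem hp]
    · obtain ⟨h1, h2, h3⟩ := ih hp
      rw [ex_of_par_notMem hA.root hp, pi_of_notMem h]
      refine ⟨?_, h2, h3⟩
      rw [chain_ne hv]
      exact Finset.mem_insert_of_mem h1

theorem ex_unique : ∀ v : V, ∀ w ∈ chain v, w ∉ A → par w ∈ A → ex A v = w :=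
  V_induct (by
    intro w hw h
    rw [chain_none, Finset.mem_singleton] at hw
    exact absurd (hw ▸ hA.root) h) fun v hv ih w hw h1 h2 => by
    rw [chain_ne hv, Finset.mem_insert] at hw
    rcases hw with rfl | hw
    · exact ex_of_par_mem h2
    · have hp : par v ∉ A := fun hp => h1 (hA.chain _ hp hw)
      rw [ex_of_par_notMem hA.root hp]
      exact ih w hw h1 h2

theorem notMem_of_chain {v w : V} (hw : w ∈ chain v) (h : w ∉ A) : v ∉ A :=
  fun hv => h (hA.chain v hv hw)

theorem pi_chain : ∀ v : V, ∀ w ∈ chain v, w ∉ A → pi A w = pi A v :=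
  V_induct (by
    intro w hw h
    rw [chain_none, Finset.mem_singleton] at hw
    exact absurd (hw ▸ hA.root) h) fun v hv ih w hw h => by
    have hvA : v ∉ A := notMem_of_chain hA hw h
    rw [chain_ne hv, Finset.mem_insert] at hw
    rcases hw with rfl | hw
    · rfl
    · rw [pi_of_notMem hvA]
      exact ih w hw h

theorem ex_chain : ∀ v : V, ∀ w ∈ chain v, w ∉ A → ex A w = ex A v := by
  intro v w hw h
  obtain ⟨h1, h2, h3⟩ := ex_spec hA w h
  exact (ex_unique hA v _ (chain_sub v w hw h1) h2 (h3 ▸ pi_mem hA w)).symm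

end

section
variable {A A' : Finset V} (hA : Cl A) (hA' : Cl A') (hAA : A ⊆ A')
include hA hA' hAA

theorem pi_pi : ∀ v : V, pi A (pi A' v) = pi A v :=
  V_induct rfl fun v _ ih => by
    by_cases h : v ∈ A'
    · rw [pi_of_mem h]
    · rw [pi_of_notMem h, ih, pi_of_notMem fun h' => h (hAA h')]

theorem pi_eq_of_ex {v : V} (h : v ∉ A) (h' : ex A v ∉ A') : pi A' v = pi A v := by
  obtain ⟨h1, h2, h3⟩ := ex_spec hA v h
  have h4 : pi A' (ex A v) = pi A' v := pi_chain hA' v _ h1 h'
  rw [← h4, pi_of_notMem h', h3, pi_of_mem (hAA (pi_mem hA v))]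

theorem pi_moving {v : V} (h : v ∉ A) (h' : ex A v ∈ A') :
    pi A' v ∉ A ∧ ex A (pi A' v) = ex A v := by
  obtain ⟨h1, h2, h3⟩ := ex_spec hA v h
  have h4 : ex A v ∈ chain (pi A' v) := by
    rw [chain_pi hA' v]
    exact Finset.mem_filter.2 ⟨h1, h'⟩
  have h5 : pi A' v ∉ A := notMem_of_chain hA h4 h2
  exact ⟨h5, ex_unique hA _ _ h4 h2 (h3 ▸ pi_mem hA v)⟩

end

/-! ### Restriction -/

/-- Restriction to `A`. -/
noncomputable def rs (A : Finset V) : (V →₀ ℝ) →ₗ[ℝ] (V →₀ ℝ) where
  toFun x := x.filter (· ∈ A)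
  map_add' _ _ := Finsupp.filter_add
  map_smul' _ _ := Finsupp.filter_smul

theorem rs_apply (A : Finset V) (x : V →₀ ℝ) (w : V) : rs A x w = if w ∈ A then x w else 0 :=
  Finsupp.filter_apply _ _ _

theorem rs_rs {A A' : Finset V} (h : A ⊆ A') (x : V →₀ ℝ) : rs A (rs A' x) = rs A x := by
  ext w
  rw [rs_apply, rs_apply, rs_apply]
  by_cases hw : w ∈ A
  · rw [if_pos hw, if_pos (h hw), if_pos hw]
  · rw [if_neg hw, if_neg hw]

theorem rs_ev {A : Finset V} (hA : Cl A) (u : V) : rs A (ev u) = ev (pi A u) := by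
  ext w
  rw [rs_apply, ev_apply, ev_apply, chain_pi hA]
  simp only [Finset.mem_filter]
  by_cases h : w ∈ A <;> by_cases h' : w ∈ chain u <;> simp [h, h']

theorem rs_E {A : Finset V} (hA : Cl A) (a : V →₀ ℝ) :
    rs A (E a) = E (a.mapDomain (pi A)) := by
  have : (rs A) ∘ₗ E = E ∘ₗ (Finsupp.lmapDomain ℝ ℝ (pi A)) := by
    refine Finsupp.lhom_ext fun u r => ?_
    rw [LinearMap.comp_apply, LinearMap.comp_apply, E_single, map_smul, rs_ev hA,
      Finsupp.lmapDomain_apply, Finsupp.mapDomain_single, E_single]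
  exact LinearMap.congr_fun this a

theorem sib_or {A : Finset V} (hA : Cl A) (g : Node) (j : ℕ) :
    (∀ i, ch g j i ∈ A) ∨ ∀ i, ch g j i ∉ A := by
  by_cases h : ∃ i, ch g j i ∈ A
  · obtain ⟨i, hi⟩ := h
    exact Or.inl fun i' => hA.sib g j i i' hi
  · exact Or.inr fun i hi => h ⟨i, hi⟩

theorem Bw_rs {A : Finset V} (hA : Cl A) (c : V →₀ ℝ) (g : Node) (j : ℕ) :
    Bw (rs A c) (g, j) = if ch g j ⟨0, K_pos _⟩ ∈ A then Bw c (g, j) else 0 := by
  rw [Bw_apply, Bw_apply]
  rcases sib_or hA g j with h | h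
  · rw [if_pos (h _)]
    congr 1
    exact Finset.sum_congr rfl fun i _ => by rw [rs_apply, if_pos (h i)]
  · rw [if_neg (h _)]
    refine mul_eq_zero_of_right _ (Finset.sum_eq_zero fun i _ => ?_)
    rw [rs_apply, if_neg (h i)]

theorem Zl_rs {A : Finset V} (hA : Cl A) (c : V →₀ ℝ) : Zl (rs A c) = rs A (Zl c) := by
  ext w
  rw [rs_apply]
  rcases hp : par w with _ | g
  · rw [Zl_apply_top _ hp, Zl_apply_top _ hp, rs_apply]
  · obtain ⟨j, i, rfl⟩ := exists_ch hp
    rw [Zl_apply_ch, Zl_apply_ch]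
    rcases sib_or hA g j with h | h
    · rw [if_pos (h i), rs_apply, if_pos (h i)]
      congr 2
      exact Finset.sum_congr rfl fun i' _ => by rw [rs_apply, if_pos (h i')]
    · rw [if_neg (h i), rs_apply, if_neg (h i)]
      have : ∑ i', (rs A c) (ch g j i') = 0 :=
        Finset.sum_eq_zero fun i' _ => by rw [rs_apply, if_neg (h i')]
      rw [this]
      ring

theorem ms_split (A : Finset V) (z : V →₀ ℝ) (v : V) :
    ms z v = ms (rs A z) v + ms (z - rs A z) v := by
  have h1 : (rs A z).support ⊆ z.support := fun w hw => by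
    rw [Finsupp.mem_support_iff, rs_apply] at hw
    rw [Finsupp.mem_support_iff]
    intro h
    rw [h, ite_self] at hw
    exact hw rfl
  have h2 : (z - rs A z).support ⊆ z.support := fun w hw => by
    rw [Finsupp.mem_support_iff, Finsupp.sub_apply, rs_apply] at hw
    rw [Finsupp.mem_support_iff]
    intro h
    rw [h, ite_self, sub_zero] at hw
    exact hw rfl
  rw [ms_eq _ v h1, ms_eq _ v h2, ms, ← Finset.sum_add_distrib]
  refine Finset.sum_congr rfl fun w _ => ?_
  rw [Finsupp.sub_apply, rs_apply]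
  by_cases hw : w ∈ A <;> by_cases hp : par w = v <;> simp [hw, hp]

theorem S1_split {A : Finset V} (hA : Cl A) (c : V →₀ ℝ) :
    S1 (rs A c) ^ 2 + S1 (c - rs A c) ^ 2 = S1 c ^ 2 := by
  rw [S1_apply, S1_apply, S1_apply]
  set s := (Bw c).support ∪ (Bw (rs A c)).support ∪ (Bw (c - rs A c)).support
  rw [q2_sq (Bw c) (s := s) (fun x hx => by simp only [s, Finset.mem_union]; tauto),
    q2_sq (Bw (rs A c)) (s := s) (fun x hx => by simp only [s, Finset.mem_union]; tauto),
    q2_sq (Bw (c - rs A c)) (s := s) (fun x hx => by simp only [s, Finset.mem_union]; tauto),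
    ← Finset.sum_add_distrib]
  refine Finset.sum_congr rfl ?_
  rintro ⟨g, j⟩ _
  rw [map_sub, Finsupp.sub_apply, Bw_rs hA]
  split_ifs <;> ring

theorem S2_split {A : Finset V} (hA : Cl A) (c : V →₀ ℝ) :
    S2 (rs A c) ^ 2 + S2 (c - rs A c) ^ 2 ≤ S2 c ^ 2 := by
  rw [S2_apply, S2_apply, S2_apply, map_sub, Zl_rs hA]
  set z := Zl c
  set s := (MM (ab z)).support ∪ (MM (ab (rs A z))).support ∪ (MM (ab (z - rs A z))).support
  rw [q2_sq (MM (ab z)) (s := s) (fun x hx => by simp only [s, Finset.mem_union]; tauto),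
    q2_sq (MM (ab (rs A z))) (s := s) (fun x hx => by simp only [s, Finset.mem_union]; tauto),
    q2_sq (MM (ab (z - rs A z))) (s := s) (fun x hx => by simp only [s, Finset.mem_union]; tauto),
    ← Finset.sum_add_distrib]
  refine Finset.sum_le_sum fun v _ => ?_
  rw [MM_ab, MM_ab, MM_ab, ms_split A z v]
  have h1 := ms_nonneg (rs A z) v
  have h2 := ms_nonneg (z - rs A z) v
  have h3 := (Lam_pos v).le
  have h4 : 0 ≤ Lam v * ms (rs A z) v := mul_nonneg h3 h1
  have h5 : 0 ≤ Lam v * ms (z - rs A z) v := mul_nonneg h3 h2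
  nlinarith [mul_nonneg h4 h5]

theorem S1_rs_le {A : Finset V} (hA : Cl A) (c : V →₀ ℝ) : S1 (rs A c) ≤ S1 c := by
  have := S1_split hA c
  exact abs_le_of_sq_le_sq' (by nlinarith [sq_nonneg (S1 (c - rs A c))]) (apply_nonneg S1 c) |>.2

theorem S2_rs_le {A : Finset V} (hA : Cl A) (c : V →₀ ℝ) : S2 (rs A c) ≤ S2 c := by
  have := S2_split hA c
  exact abs_le_of_sq_le_sq' (by nlinarith [sq_nonneg (S2 (c - rs A c))]) (apply_nonneg S2 c) |>.2

theorem q1_mapDomain (f : V → V) (a : V →₀ ℝ) : q1 (a.mapDomain f) ≤ q1 a := by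
  rw [Finsupp.mapDomain, Finsupp.sum]
  have h : ∀ s : Finset V, q1 (∑ u ∈ s, Finsupp.single (f u) (a u)) ≤ ∑ u ∈ s, |a u| := by
    intro s
    induction s using Finset.induction_on with
    | empty => simp [q1]
    | insert u s hu ih =>
      rw [Finset.sum_insert hu, Finset.sum_insert hu]
      refine (q1_add _ _).trans ?_
      rw [q1_single]
      linarith
  exact h _

theorem Nm_rs_le {A : Finset V} (hA : Cl A) (x : V →₀ ℝ) : Nm (rs A x) ≤ Nm x := by
  refine le_of_forall_pos_le_add fun η hη => ?_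
  obtain ⟨a, c, hx, hc⟩ := Nm_rep x hη
  have h1 : rs A x = E (a.mapDomain (pi A)) + rs A c := by
    rw [hx, map_add, rs_E hA]
  rw [h1]
  have h2 := Nm_le (a.mapDomain (pi A)) (rs A c)
  have h3 := q1_mapDomain (pi A) a
  have h4 := S1_rs_le hA c
  have h5 := S2_rs_le hA c
  linarith

end Pool.Agent.Helper57.AUC
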