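import Pool.Agent.Helper57.AUC2

set_option autoImplicit false
set_option maxHeartbeats 1000000

namespace Pool.Agent.Helper57.AUC

open Classical

/-! ### Comparison of the seminorms -/

theorem ms_le_of (z : V →₀ ℝ) (g : Node) (J : Finset ℕ) :
    ∑ j ∈ J, ∑ i, |z (ch g j i)| ≤ ms z (some g) := by
  set T : Finset V := (J ×ˢ (Finset.univ : Finset (Fin (K g.1)))).image fun p => ch g p.1 p.2 with hT
  have h1 : ∑ j ∈ J, ∑ i, |z (ch g j i)| = ∑ w ∈ T, |z w| := by
    rw [hT, Finset.sum_image, Finset.sum_product]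
    rintro ⟨j, i⟩ _ ⟨j', i'⟩ _ h
    obtain ⟨h1, h2⟩ := ch_inj h
    exact Prod.ext h1 h2
  rw [h1, ms_eq z _ (s := z.support ∪ T) Finset.subset_union_left]
  calc ∑ w ∈ T, |z w| = ∑ w ∈ T, if par w = some g then |z w| else 0 := by
        refine Finset.sum_congr rfl fun w hw => ?_
        obtain ⟨⟨j, i⟩, _, rfl⟩ := Finset.mem_image.1 hw
        rw [par_ch, if_pos rfl]
    _ ≤ _ := Finset.sum_le_sum_of_subset_of_nonneg Finset.subset_union_right fun w _ _ => by
        split_ifs <;> positivity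

theorem ms_some (z : V →₀ ℝ) (g : Node) (J : Finset ℕ)
    (hJ : ∀ j i, ch g j i ∈ z.support → j ∈ J) :
    ms z (some g) = ∑ j ∈ J, ∑ i, |z (ch g j i)| := by
  refine le_antisymm ?_ (ms_le_of z g J)
  set T : Finset V := (J ×ˢ (Finset.univ : Finset (Fin (K g.1)))).image fun p => ch g p.1 p.2 with hT
  have h1 : ∑ j ∈ J, ∑ i, |z (ch g j i)| = ∑ w ∈ T, |z w| := by
    rw [hT, Finset.sum_image, Finset.sum_product]
    rintro ⟨j, i⟩ _ ⟨j', i'⟩ _ h
    obtain ⟨h1, h2⟩ := ch_inj h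
    exact Prod.ext h1 h2
  rw [h1, ms, ← Finset.sum_filter]
  refine Finset.sum_le_sum_of_subset_of_nonneg ?_ fun _ _ _ => abs_nonneg _
  intro w hw
  rw [Finset.mem_filter] at hw
  obtain ⟨j, i, rfl⟩ := exists_ch hw.2
  rw [hT, Finset.mem_image]
  exact ⟨(j, i), Finset.mem_product.2 ⟨hJ j i hw.1, Finset.mem_univ _⟩, rfl⟩

/-- The group number. -/
def grp : V → ℕ
  | none => 0
  | some ⟨_, []⟩ => 0
  | some ⟨_, g :: _⟩ => g.1

theorem grp_ch (g : Node) (j : ℕ) (i : Fin (K g.1)) : grp (ch g j i) = j := rfl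

theorem T2_sq_le (z : V →₀ ℝ) (s : Finset V) : ∑ v ∈ s, (Lam v * ms z v) ^ 2 ≤ T2 z ^ 2 := by
  rw [T2_apply, q2_sq (MM (ab z)) (s := (MM (ab z)).support ∪ s) Finset.subset_union_left]
  calc ∑ v ∈ s, (Lam v * ms z v) ^ 2 = ∑ v ∈ s, (MM (ab z) v) ^ 2 :=
        Finset.sum_congr rfl fun v _ => by rw [MM_ab]
    _ ≤ _ := Finset.sum_le_sum_of_subset_of_nonneg Finset.subset_union_right
        fun _ _ _ => sq_nonneg _

theorem T2_sq (z : V →₀ ℝ) : T2 z ^ 2 = ∑ v ∈ (MM (ab z)).support, (Lam v * ms z v) ^ 2 := by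
  rw [T2_apply, q2_sq (MM (ab z)) (s := (MM (ab z)).support) subset_rfl]
  exact Finset.sum_congr rfl fun v _ => by rw [MM_ab]

theorem S1_le_T2 (c : V →₀ ℝ) : S1 c ≤ T2 c := by
  refine abs_le_of_sq_le_sq' ?_ (apply_nonneg T2 c) |>.2
  rw [S1_apply]
  set s₁ := (Bw c).support.image Prod.fst
  set s₂ := (Bw c).support.image Prod.snd
  rw [q2_sq (Bw c) (s := s₁ ×ˢ s₂) (fun x hx => Finset.mem_product.2
    ⟨Finset.mem_image_of_mem _ hx, Finset.mem_image_of_mem _ hx⟩), Finset.sum_product]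
  have h1 : ∀ g ∈ s₁, ∑ j ∈ s₂, Bw c (g, j) ^ 2 ≤ (Lam (some g) * ms c (some g)) ^ 2 := by
    intro g _
    have h2 : ∑ j ∈ s₂, |Bw c (g, j)| ≤ Lam (some g) * ms c (some g) := by
      refine le_trans ?_ (mul_le_mul_of_nonneg_left (ms_le_of c g s₂) (Lam_pos _).le)
      rw [Finset.mul_sum]
      refine Finset.sum_le_sum fun j _ => ?_
      rw [Bw_apply, abs_mul, abs_of_pos (Lam_pos _)]
      exact mul_le_mul_of_nonneg_left (Finset.abs_sum_le_sum_abs _ _) (Lam_pos _).le
    calc ∑ j ∈ s₂, Bw c (g, j) ^ 2 = ∑ j ∈ s₂, |Bw c (g, j)| ^ 2 :=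
          Finset.sum_congr rfl fun j _ => (sq_abs _).symm
      _ ≤ (∑ j ∈ s₂, |Bw c (g, j)|) ^ 2 := Finset.sum_sq_le_sq_sum_of_nonneg fun _ _ => abs_nonneg _
      _ ≤ _ := pow_le_pow_left₀ (Finset.sum_nonneg fun _ _ => abs_nonneg _) h2 2
  refine (Finset.sum_le_sum h1).trans ?_
  have h3 := T2_sq_le c (s₁.image some)
  rwa [Finset.sum_image (fun _ _ _ _ h => Option.some.inj h)] at h3

theorem ms_Zl (c : V →₀ ℝ) (v : V) : ms (Zl c) v ≤ 2 * ms c v := by
  set s := (Zl c).support ∪ c.support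
  rcases v with _ | g
  · rw [ms_eq (Zl c) _ (s := s) Finset.subset_union_left,
      ms_eq c _ (s := s) Finset.subset_union_right, Finset.mul_sum]
    refine Finset.sum_le_sum fun w _ => ?_
    by_cases h : par w = none
    · rw [if_pos h, if_pos h, Zl_apply_top _ h]
      linarith [abs_nonneg (c w)]
    · rw [if_neg h, if_neg h, mul_zero]
  · set J := s.image grp
    have hJ1 : ∀ j i, ch g j i ∈ (Zl c).support → j ∈ J := fun j i h =>
      Finset.mem_image.2 ⟨_, Finset.mem_union_left _ h, grp_ch g j i⟩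
    have hJ2 : ∀ j i, ch g j i ∈ c.support → j ∈ J := fun j i h =>
      Finset.mem_image.2 ⟨_, Finset.mem_union_right _ h, grp_ch g j i⟩
    rw [ms_some (Zl c) g J hJ1, ms_some c g J hJ2, Finset.mul_sum]
    refine Finset.sum_le_sum fun j _ => ?_
    have hK : (0 : ℝ) < K g.1 := by exact_mod_cast K_pos _
    have h1 : ∀ i, |Zl c (ch g j i)| ≤ |c (ch g j i)| + (1 / (K g.1 : ℝ)) *
        ∑ i', |c (ch g j i')| := by
      intro i
      rw [Zl_apply_ch]
      refine (abs_sub _ _).trans ?_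
      rw [abs_mul, abs_of_pos (one_div_pos.2 hK)]
      have := Finset.abs_sum_le_sum_abs (fun i' => c (ch g j i')) Finset.univ
      have h3 : (0 : ℝ) ≤ 1 / (K g.1 : ℝ) := (one_div_pos.2 hK).le
      nlinarith
    refine (Finset.sum_le_sum fun i _ => h1 i).trans ?_
    rw [Finset.sum_add_distrib, Finset.sum_const, Finset.card_univ, Fintype.card_fin, nsmul_eq_mul,
      ← mul_assoc, mul_one_div_cancel hK.ne', one_mul]
    linarith

theorem S2_le_T2 (c : V →₀ ℝ) : S2 c ≤ 2 * T2 c := by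
  have h : S2 c ≤ q2 ((2 : ℝ) • MM (ab c)) := by
    rw [S2_apply]
    refine q2_mono fun v => ?_
    rw [Finsupp.smul_apply, MM_ab, MM_ab, smul_eq_mul]
    have h1 := ms_Zl c v
    have h2 := (Lam_pos v).le
    have h3 := ms_nonneg (Zl c) v
    have h4 := ms_nonneg c v
    rw [abs_of_nonneg (mul_nonneg h2 h3), abs_of_nonneg (by positivity)]
    nlinarith [mul_le_mul_of_nonneg_left h1 h2]
  rw [q2_smul] at h
  rw [T2_apply]
  norm_num at h
  exact h

/-! ### Displacements along paths -/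

theorem Lam_sum {A : Finset V} (hA : Cl A) : ∀ u : V, pi A u ≠ none →
    ∑ w ∈ (chain u).filter (· ∉ A), Lam (par w) ^ 2 ≤ 4 / 3 * (Lam (pi A u) ^ 2 - Lam u ^ 2) :=
  V_induct (fun h => absurd (pi_none A) h) fun u hu ih h => by
    by_cases hm : u ∈ A
    · have : (chain u).filter (· ∉ A) = ∅ := by
        rw [Finset.filter_eq_empty_iff]
        intro w hw
        rw [not_not]
        exact hA.chain u hm hw
      rw [this, Finset.sum_empty, pi_of_mem hm]
      simp
    · rw [pi_of_notMem hm] at h ⊢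
      have hp : par u ≠ none := by
        intro hp
        rw [hp] at h
        exact h (pi_none A)
      have h1 := ih h
      rw [chain_ne hu, Finset.filter_insert, if_pos hm, Finset.sum_insert]
      · have h2 := Lam_par hp
        rw [h2] at h1 ⊢
        nlinarith
      · intro h3
        exact self_notMem hu (Finset.mem_filter.1 h3).1

/-- The displacement with coefficients `α`. -/
noncomputable def disp (A A' : Finset V) (U : Finset V) (α : V → ℝ) : V →₀ ℝ :=
  ∑ u ∈ U, α u • (ev (pi A' u) - ev (pi A u))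

/-- The moving mass at a vertex. -/
noncomputable def mv (A : Finset V) (U : Finset V) (α : V → ℝ) (v : V) : ℝ :=
  ∑ u ∈ U, if pi A u = v then |α u| else 0

theorem mv_nonneg (A : Finset V) (U : Finset V) (α : V → ℝ) (v : V) : 0 ≤ mv A U α v :=
  Finset.sum_nonneg fun _ _ => by split_ifs <;> positivity

theorem mv_sum {A : Finset V} (hA : Cl A) (U : Finset V) (α : V → ℝ) (f : V → ℝ) :
    ∑ u ∈ U, |α u| * f (pi A u) = ∑ v ∈ A, mv A U α v * f v := by
  simp only [mv, Finset.sum_mul]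
  rw [Finset.sum_comm]
  refine Finset.sum_congr rfl fun u _ => ?_
  simp only [ite_mul, zero_mul]
  rw [Finset.sum_ite_eq, if_pos (pi_mem hA u)]

section
variable {A A' : Finset V} (hA : Cl A) (hA' : Cl A') (hAA : A ⊆ A')
include hA hA' hAA

theorem ev_diff (u w : V) : (ev (pi A' u) - ev (pi A u)) w =
    if w ∈ chain u ∧ w ∈ A' ∧ w ∉ A then 1 else 0 := by
  rw [Finsupp.sub_apply, ev_apply, ev_apply, chain_pi hA, chain_pi hA']
  simp only [Finset.mem_filter]
  by_cases h1 : w ∈ chain u <;> by_cases h2 : w ∈ A' <;> by_cases h3 : w ∈ A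
  · simp [h1, h2, h3]
  · simp [h1, h2, h3]
  · exact absurd (hAA h3) h2
  · simp [h1, h2, h3]
  · simp [h1, h2, h3]
  · simp [h1, h2, h3]
  · simp [h1, h2, h3]
  · simp [h1, h2, h3]

theorem disp_apply (U : Finset V) (α : V → ℝ) (w : V) : disp A A' U α w =
    ∑ u ∈ U, if w ∈ chain u ∧ w ∈ A' ∧ w ∉ A then α u else 0 := by
  rw [disp, Finsupp.finsetSum_apply]
  refine Finset.sum_congr rfl fun u _ => ?_
  rw [Finsupp.smul_apply, ev_diff hA hA' hAA, smul_eq_mul]
  split_ifs <;> simp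

theorem abs_disp_le (U : Finset V) (α : V → ℝ) (w : V) : |disp A A' U α w| ≤
    ∑ u ∈ U, if w ∈ chain u ∧ w ∉ A then |α u| else 0 := by
  rw [disp_apply hA hA' hAA]
  refine (Finset.abs_sum_le_sum_abs _ _).trans (Finset.sum_le_sum fun u _ => ?_)
  by_cases h : w ∈ chain u ∧ w ∈ A' ∧ w ∉ A
  · rw [if_pos h, if_pos ⟨h.1, h.2.2⟩]
  · rw [if_neg h, abs_zero]
    split_ifs <;> positivity

theorem ms_disp_le (U : Finset V) (α : V → ℝ) (v : V) :
    ms (disp A A' U α) v ≤ mv A U α (pi A v) := by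
  set D := disp A A' U α
  have h1 : ms D v ≤ ∑ w ∈ D.support, if par w = v then
      (∑ u ∈ U, if w ∈ chain u ∧ w ∉ A then |α u| else 0) else 0 := by
    refine Finset.sum_le_sum fun w _ => ?_
    split_ifs
    · exact abs_disp_le hA hA' hAA U α w
    · exact le_rfl
  refine h1.trans ?_
  have h2 : ∑ w ∈ D.support, (if par w = v then
      (∑ u ∈ U, if w ∈ chain u ∧ w ∉ A then |α u| else 0) else 0)
      = ∑ u ∈ U, ∑ w ∈ D.support, if par w = v ∧ w ∈ chain u ∧ w ∉ A then |α u| else 0 := by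
    rw [Finset.sum_comm]
    refine Finset.sum_congr rfl fun w _ => ?_
    by_cases h : par w = v
    · simp [h]
    · simp [h]
  rw [h2, mv]
  refine Finset.sum_le_sum fun u _ => ?_
  rw [← Finset.sum_filter, Finset.sum_const, nsmul_eq_mul]
  set P := D.support.filter fun w => par w = v ∧ w ∈ chain u ∧ w ∉ A
  have hcard : P.card ≤ 1 := by
    rw [Finset.card_le_one]
    intro w hw w' hw'
    obtain ⟨-, h3, h4, h5⟩ := Finset.mem_filter.1 hw
    obtain ⟨-, h3', h4', h5'⟩ := Finset.mem_filter.1 hw'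
    refine chain_unique u w h4 w' h4' ?_
    rw [← lev_par (ne_of_notMem hA h5), ← lev_par (ne_of_notMem hA h5'), h3, h3']
  by_cases hP : P.Nonempty
  · obtain ⟨w, hw⟩ := hP
    obtain ⟨-, h3, h4, h5⟩ := Finset.mem_filter.1 hw
    have h6 : pi A u = pi A v := by
      rw [← pi_chain hA u w h4 h5, pi_of_notMem h5, h3]
    rw [if_pos h6]
    have : (P.card : ℝ) ≤ 1 := by exact_mod_cast hcard
    nlinarith [abs_nonneg (α u)]
  · rw [Finset.not_nonempty_iff_eq_empty] at hP
    rw [hP, Finset.card_empty, Nat.cast_zero, zero_mul]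
    split_ifs <;> positivity

/-- The bound of a displacement by the Hilbertian seminorm. -/
theorem T2_disp (U : Finset V) (α : V → ℝ) (hU : ∀ u ∈ U, pi A u ≠ none) :
    T2 (disp A A' U α) ^ 2 ≤ 4 / 3 * ∑ v ∈ A, (Lam v * mv A U α v) ^ 2 := by
  rw [T2_sq]
  set D := disp A A' U α
  set s := (MM (ab D)).support
  set m := mv A U α
  have h1 : ∑ v ∈ s, (Lam v * ms D v) ^ 2 ≤ ∑ v ∈ s, Lam v ^ 2 * m (pi A v) * ms D v := by
    refine Finset.sum_le_sum fun v _ => ?_
    have a1 := ms_disp_le hA hA' hAA U α v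
    have a2 := ms_nonneg D v
    have a3 := mul_le_mul_of_nonneg_right a1 a2
    have a4 := mul_le_mul_of_nonneg_left a3 (sq_nonneg (Lam v))
    nlinarith
  have h2 : ∑ v ∈ s, Lam v ^ 2 * m (pi A v) * ms D v ≤
      ∑ w ∈ D.support, Lam (par w) ^ 2 * m (pi A (par w)) * |D w| := by
    have e1 : ∀ v ∈ s, Lam v ^ 2 * m (pi A v) * ms D v = ∑ w ∈ D.support, if par w = v then
        Lam (par w) ^ 2 * m (pi A (par w)) * |D w| else 0 := by
      intro v _
      rw [ms, Finset.mul_sum]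
      refine Finset.sum_congr rfl fun w _ => ?_
      by_cases h : par w = v
      · rw [if_pos h, if_pos h, h]
      · rw [if_neg h, if_neg h, mul_zero]
    rw [Finset.sum_congr rfl e1, Finset.sum_comm]
    refine Finset.sum_le_sum fun w _ => ?_
    rw [Finset.sum_ite_eq]
    split_ifs
    · exact le_rfl
    · exact mul_nonneg (mul_nonneg (sq_nonneg _) (mv_nonneg _ _ _ _)) (abs_nonneg _)
  have h3 : ∑ w ∈ D.support, Lam (par w) ^ 2 * m (pi A (par w)) * |D w| ≤
      ∑ w ∈ D.support, ∑ u ∈ U, if w ∈ chain u ∧ w ∉ A then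
        Lam (par w) ^ 2 * m (pi A u) * |α u| else 0 := by
    refine Finset.sum_le_sum fun w _ => ?_
    have e1 := abs_disp_le hA hA' hAA U α w
    have e2 : 0 ≤ Lam (par w) ^ 2 * m (pi A (par w)) := mul_nonneg (sq_nonneg _) (mv_nonneg _ _ _ _)
    refine (mul_le_mul_of_nonneg_left e1 e2).trans ?_
    rw [Finset.mul_sum]
    refine Finset.sum_le_sum fun u _ => ?_
    by_cases h : w ∈ chain u ∧ w ∉ A
    · rw [if_pos h, if_pos h, ← pi_chain hA u w h.1 h.2, pi_of_notMem h.2]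
    · rw [if_neg h, if_neg h, mul_zero]
  have h4 : ∑ w ∈ D.support, ∑ u ∈ U, (if w ∈ chain u ∧ w ∉ A then
        Lam (par w) ^ 2 * m (pi A u) * |α u| else 0) ≤
      ∑ u ∈ U, |α u| * (m (pi A u) * (4 / 3 * Lam (pi A u) ^ 2)) := by
    rw [Finset.sum_comm]
    refine Finset.sum_le_sum fun u hu => ?_
    have e1 := Lam_sum hA u (hU u hu)
    have e2 : ∑ w ∈ D.support, (if w ∈ chain u ∧ w ∉ A then
        Lam (par w) ^ 2 * m (pi A u) * |α u| else 0) ≤
        ∑ w ∈ (chain u).filter (· ∉ A), Lam (par w) ^ 2 * (m (pi A u) * |α u|) := by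
      have e3 : D.support.filter (fun w => w ∈ chain u ∧ w ∉ A) ⊆ (chain u).filter (· ∉ A) := by
        intro w hw
        exact Finset.mem_filter.2 (Finset.mem_filter.1 hw).2
      refine le_trans (le_of_eq ?_) (Finset.sum_le_sum_of_subset_of_nonneg e3 fun w _ _ =>
        mul_nonneg (sq_nonneg _) (mul_nonneg (mv_nonneg _ _ _ _) (abs_nonneg _)))
      rw [Finset.sum_filter]
      refine Finset.sum_congr rfl fun w _ => ?_
      by_cases h : w ∈ chain u ∧ w ∉ A
      · rw [if_pos h, if_pos h]; ring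
      · rw [if_neg h, if_neg h]
    refine e2.trans ?_
    rw [← Finset.sum_mul]
    have e5 : 0 ≤ m (pi A u) * |α u| := mul_nonneg (mv_nonneg _ _ _ _) (abs_nonneg _)
    have e6 := mul_le_mul_of_nonneg_right e1 e5
    nlinarith [mul_nonneg (sq_nonneg (Lam u)) e5]
  have h5 := mv_sum hA U α (fun v => m v * (4 / 3 * Lam v ^ 2))
  refine h1.trans (h2.trans (h3.trans (h4.trans (le_of_eq ?_))))
  rw [h5, Finset.mul_sum]
  exact Finset.sum_congr rfl fun v _ => by
    show m v * (m v * (4 / 3 * Lam v ^ 2)) = _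
    ring

/-- Bound of a displacement by the Hilbertian part. -/
theorem Nm_disp_le (U : Finset V) (α : V → ℝ) (hU : ∀ u ∈ U, pi A u ≠ none) :
    Nm (disp A A' U α) ≤ 4 * Real.sqrt (∑ v ∈ A, (Lam v * mv A U α v) ^ 2) := by
  have h1 := Nm_le 0 (disp A A' U α)
  rw [map_zero, zero_add] at h1
  have h0 : q1 (0 : V →₀ ℝ) = 0 := by simp [q1]
  have h2 := S1_le_T2 (disp A A' U α)
  have h3 := S2_le_T2 (disp A A' U α)
  have h4 := T2_disp hA hA' hAA U α hU
  set R := ∑ v ∈ A, (Lam v * mv A U α v) ^ 2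
  have hR : 0 ≤ R := Finset.sum_nonneg fun _ _ => sq_nonneg _
  have h5 : T2 (disp A A' U α) ≤ 4 / 3 * Real.sqrt R := by
    refine abs_le_of_sq_le_sq' ?_ (by positivity) |>.2
    rw [mul_pow, Real.sq_sqrt hR]
    nlinarith
  linarith

/-- Bound of a displacement by the mass. -/
theorem Nm_disp_le' (U : Finset V) (α : V → ℝ) :
    Nm (disp A A' U α) ≤ 2 * ∑ u ∈ U, |α u| := by
  have hev : ∀ u, Nm (ev u) ≤ 1 := by
    intro u
    have h1 := Nm_le (Finsupp.single u 1) 0
    rw [E_single, one_smul, add_zero, q1_single, map_zero, map_zero, abs_one] at h1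
    linarith
  rw [disp, Finset.mul_sum]
  refine (Finset.le_sum_of_subadditive Nm (map_zero Nm).le (map_add_le_add Nm) _ _).trans
    (Finset.sum_le_sum fun u _ => ?_)
  rw [map_smul_eq_mul, Real.norm_eq_abs]
  have h1 := map_sub_le_add Nm (ev (pi A' u)) (ev (pi A u))
  have h2 := hev (pi A' u)
  have h3 := hev (pi A u)
  nlinarith [abs_nonneg (α u)]

end

end Pool.Agent.Helper57.AUC
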