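import Pool.Agent.Helper57.AUC3

set_option autoImplicit false
set_option maxHeartbeats 1000000

namespace Pool.Agent.Helper57.AUC

open Classical

/-! ### The evenness functionals -/

/-- Coefficients of the evenness functional. -/
noncomputable def kap (g : Node) (i : Fin (K g.1)) (w : V) : ℝ :=
  if par w = some g then (if idx w = i.val then 1 else 0) - 1 / (K g.1 : ℝ) else 0

/-- The evenness functional. -/
noncomputable def hh (g : Node) (i : Fin (K g.1)) : (V →₀ ℝ) →ₗ[ℝ] ℝ :=
  Finsupp.linearCombination ℝ (kap g i)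

theorem hh_single (g : Node) (i : Fin (K g.1)) (w : V) (r : ℝ) :
    hh g i (Finsupp.single w r) = r * kap g i w := by
  rw [hh, Finsupp.linearCombination_single, smul_eq_mul]

/-- Auxiliary functional. -/
noncomputable def LL (g : Node) (i : Fin (K g.1)) : (V →₀ ℝ) →ₗ[ℝ] ℝ :=
  Finsupp.linearCombination ℝ fun w => if par w = some g ∧ idx w = i.val then 1 else 0

theorem LL_single (g : Node) (i : Fin (K g.1)) (w : V) (r : ℝ) :
    LL g i (Finsupp.single w r) = r * (if par w = some g ∧ idx w = i.val then 1 else 0) := by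
  rw [LL, Finsupp.linearCombination_single, smul_eq_mul]

theorem LL_apply (g : Node) (i : Fin (K g.1)) (z : V →₀ ℝ) :
    LL g i z = ∑ w ∈ z.support, if par w = some g ∧ idx w = i.val then z w else 0 := by
  rw [LL, Finsupp.linearCombination_apply, Finsupp.sum]
  refine Finset.sum_congr rfl fun w _ => ?_
  rw [smul_eq_mul]
  split_ifs <;> simp

theorem hh_eq (g : Node) (i : Fin (K g.1)) (c : V →₀ ℝ) : hh g i c = LL g i (Zl c) := by
  have : hh g i = LL g i ∘ₗ Zl := by
    refine Finsupp.lhom_ext fun w r => ?_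
    rw [LinearMap.comp_apply, hh_single, Zl, Finsupp.linearCombination_single, map_smul,
      smul_eq_mul]
    congr 1
    rcases w with _ | ⟨N, _ | ⟨⟨j', i'⟩, l⟩⟩
    · rw [LL_single]; simp [kap, par]
    · rw [LL_single]; simp [kap, par]
    · have h2 : (some ⟨N, (j', i') :: l⟩ : V) = ch ⟨N, l⟩ j' i' := rfl
      show kap g i (some ⟨N, (j', i') :: l⟩) = LL g i (Finsupp.single (ch ⟨N, l⟩ j' i') 1 -
        (1 / (K N : ℝ)) • ∑ i' : Fin (K N), Finsupp.single (ch ⟨N, l⟩ j' i') 1)
      rw [h2, map_sub, map_smul, map_sum, LL_single]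
      simp only [LL_single, kap, par_ch, idx_ch, one_mul, smul_eq_mul]
      by_cases h : (some ⟨N, l⟩ : V) = some g
      · have h3 : (⟨N, l⟩ : Node) = g := Option.some.inj h
        subst h3
        have h4 : ∀ x : Fin (K N), (x.val = i.val) ↔ x = i := fun x => Fin.ext_iff.symm
        simp only [true_and, if_true, h4, Finset.sum_ite_eq', Finset.mem_univ]
        ring
      · simp [h]
  exact LinearMap.congr_fun this c

theorem idx_lt {w : V} {g : Node} (h : par w = some g) : idx w < K g.1 := by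
  obtain ⟨j, i, rfl⟩ := exists_ch h
  rw [idx_ch]
  exact i.2

/-- Part of the mass of the children of `g` in position `i`. -/
noncomputable def mi (z : V →₀ ℝ) (g : Node) (i : Fin (K g.1)) : ℝ :=
  ∑ w ∈ z.support, if par w = some g ∧ idx w = i.val then |z w| else 0

theorem mi_nonneg (z : V →₀ ℝ) (g : Node) (i : Fin (K g.1)) : 0 ≤ mi z g i :=
  Finset.sum_nonneg fun _ _ => by split_ifs <;> positivity

theorem abs_hh_le (g : Node) (i : Fin (K g.1)) (c : V →₀ ℝ) : |hh g i c| ≤ mi (Zl c) g i := by
  rw [hh_eq, LL_apply]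
  refine (Finset.abs_sum_le_sum_abs _ _).trans (Finset.sum_le_sum fun w _ => ?_)
  split_ifs
  · exact le_rfl
  · rw [abs_zero]

theorem sum_mi (z : V →₀ ℝ) (g : Node) : ∑ i, mi z g i ≤ ms z (some g) := by
  simp only [mi]
  rw [Finset.sum_comm]
  refine Finset.sum_le_sum fun w _ => ?_
  by_cases h : par w = some g
  · rw [if_pos h]
    have h1 : ∀ i : Fin (K g.1), (if par w = some g ∧ idx w = i.val then |z w| else 0)
        = if (⟨idx w, idx_lt h⟩ : Fin (K g.1)) = i then |z w| else 0 := by
      intro i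
      have : ((⟨idx w, idx_lt h⟩ : Fin (K g.1)) = i) ↔ idx w = i.val := by
        rw [Fin.ext_iff]
      by_cases h2 : idx w = i.val
      · rw [if_pos ⟨h, h2⟩, if_pos (this.2 h2)]
      · rw [if_neg (fun h3 => h2 h3.2), if_neg (fun h3 => h2 (this.1 h3))]
    simp only [h1, Finset.sum_ite_eq, Finset.mem_univ, if_true]
    exact le_rfl
  · rw [if_neg h]
    refine (Finset.sum_eq_zero fun i _ => ?_).le
    rw [if_neg fun h2 => h h2.1]

/-! ### A real variable lemma -/

theorem psi_add {n x y : ℝ} (hn : 0 ≤ n) (hx : 0 ≤ x) (hy : 0 ≤ y) :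
    min 1 (n * (x + y)) ≤ min 1 (n * x) + min 1 (n * y) := by
  have h1 : 0 ≤ n * x := mul_nonneg hn hx
  have h2 : 0 ≤ n * y := mul_nonneg hn hy
  rcases le_total 1 (n * x) with h | h
  · rw [min_eq_left h]
    have := min_le_left 1 (n * (x + y))
    have : 0 ≤ min 1 (n * y) := le_min zero_le_one h2
    linarith
  · rcases le_total 1 (n * y) with h' | h'
    · rw [min_eq_left h']
      have := min_le_left 1 (n * (x + y))
      have : 0 ≤ min 1 (n * x) := le_min zero_le_one h1
      linarith
    · rw [min_eq_right h, min_eq_right h']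
      have := min_le_right 1 (n * (x + y))
      linarith

theorem RV {ι : Type} [Fintype ι] {n : ℝ} (hn : 1 ≤ n) (p r : ι → ℝ) {μ : ℝ} (hp : ∀ i, 0 ≤ p i)
    (hr : ∀ i, 0 ≤ r i) (hμ : ∑ i, p i = μ) (hμ2 : μ ≤ 2)
    (hpr : ∀ i, p i ≤ μ / (64 * n) + r i) (hsr : ∑ i, r i ≤ 3 / 8 * μ) :
    ∑ i, p i * min 1 (n * p i) ≤ 1 / 2 * (μ * min 1 (n * μ)) := by
  have hn0 : 0 < n := by linarith
  have hμ0 : 0 ≤ μ := hμ ▸ Finset.sum_nonneg fun i _ => hp i
  set P := min 1 (n * μ) with hP
  have hP0 : 0 ≤ P := le_min zero_le_one (mul_nonneg hn0.le hμ0)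
  have h1 : ∀ i, p i * min 1 (n * p i) ≤ p i * (μ / 64) + (μ / 64) * r i + r i * P := by
    intro i
    have a1 : min 1 (n * p i) ≤ min 1 (n * (μ / (64 * n) + r i)) :=
      min_le_min_left _ (mul_le_mul_of_nonneg_left (hpr i) hn0.le)
    have a2 := psi_add hn0.le (x := μ / (64 * n)) (y := r i) (by positivity) (hr i)
    have a3 : min 1 (n * (μ / (64 * n))) ≤ μ / 64 := by
      refine (min_le_right _ _).trans (le_of_eq ?_)
      field_simp
    have a4 : 0 ≤ min 1 (n * r i) := le_min zero_le_one (mul_nonneg hn0.le (hr i))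
    have a5 : min 1 (n * r i) ≤ n * r i := min_le_right _ _
    have a6 : min 1 (n * r i) ≤ P := by
      refine min_le_min_left _ (mul_le_mul_of_nonneg_left ?_ hn0.le)
      have := Finset.single_le_sum (f := r) (fun i _ => hr i) (Finset.mem_univ i)
      linarith
    have a7 : p i * min 1 (n * p i) ≤ p i * (μ / 64 + min 1 (n * r i)) :=
      mul_le_mul_of_nonneg_left (by linarith) (hp i)
    have a8 : p i * min 1 (n * r i) ≤ (μ / (64 * n) + r i) * min 1 (n * r i) :=
      mul_le_mul_of_nonneg_right (hpr i) a4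
    have a9 : μ / (64 * n) * min 1 (n * r i) ≤ μ / (64 * n) * (n * r i) :=
      mul_le_mul_of_nonneg_left a5 (by positivity)
    have a10 : μ / (64 * n) * (n * r i) = μ / 64 * r i := by field_simp
    have a11 : r i * min 1 (n * r i) ≤ r i * P := mul_le_mul_of_nonneg_left a6 (hr i)
    nlinarith
  have h2 := Finset.sum_le_sum fun i (_ : i ∈ Finset.univ) => h1 i
  rw [Finset.sum_add_distrib, Finset.sum_add_distrib, ← Finset.sum_mul, ← Finset.mul_sum,
    ← Finset.sum_mul, hμ] at h2
  have h3 : (μ / 64) * ∑ i, r i ≤ μ / 64 * (3 / 8 * μ) :=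
    mul_le_mul_of_nonneg_left hsr (by positivity)
  have h4 : (∑ i, r i) * P ≤ 3 / 8 * μ * P := mul_le_mul_of_nonneg_right hsr hP0
  have h5 : 11 / 512 * μ ≤ 1 / 8 * P := by
    rw [hP]
    rcases le_total 1 (n * μ) with h | h
    · rw [min_eq_left h]; linarith
    · rw [min_eq_right h]; nlinarith
  have h6 := mul_le_mul_of_nonneg_left h5 hμ0
  nlinarith

/-! ### The potential -/

/-- The potential of a vertex. -/
noncomputable def pot (A : Finset V) (a : V →₀ ℝ) (u : V) : ℝ :=
  min 1 (4 ^ comp u * mv A a.support a (pi A u)) + if pi A u = none then 1 else 0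

theorem pot_nonneg (A : Finset V) (a : V →₀ ℝ) (u : V) : 0 ≤ pot A a u := by
  unfold pot
  have h1 := mv_nonneg A a.support a (pi A u)
  have h2 : 0 ≤ min 1 (4 ^ comp u * mv A a.support a (pi A u)) :=
    le_min zero_le_one (by positivity)
  split_ifs <;> linarith

theorem pot_le (A : Finset V) (a : V →₀ ℝ) (u : V) : pot A a u ≤ 2 := by
  unfold pot
  have h2 := min_le_left 1 (4 ^ comp u * mv A a.support a (pi A u))
  split_ifs <;> linarith

theorem comp_pi {A : Finset V} : ∀ u : V, pi A u ≠ none → comp (pi A u) = comp u :=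
  V_induct (fun h => absurd (pi_none A) h) fun u hu ih h => by
    by_cases hm : u ∈ A
    · rw [pi_of_mem hm]
    · rw [pi_of_notMem hm] at h ⊢
      have hp : par u ≠ none := by
        intro hp
        rw [hp] at h
        exact h (pi_none A)
      rw [ih h, comp_par hp]

section
variable {A A' : Finset V} (hA : Cl A) (hA' : Cl A') (hAA : A ⊆ A')
include hA hA' hAA

theorem mv_mono_pi (a : V →₀ ℝ) (u : V) :
    mv A' a.support a (pi A' u) ≤ mv A a.support a (pi A u) := by
  refine Finset.sum_le_sum fun u' _ => ?_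
  by_cases h : pi A' u' = pi A' u
  · have h2 : pi A u' = pi A u := by
      rw [← pi_pi hA hA' hAA u', h, pi_pi hA hA' hAA]
    rw [if_pos h, if_pos h2]
  · rw [if_neg h]
    split_ifs <;> positivity

theorem psi_mono_pi (a : V →₀ ℝ) (u : V) :
    min 1 (4 ^ comp u * mv A' a.support a (pi A' u)) ≤
      min 1 (4 ^ comp u * mv A a.support a (pi A u)) :=
  min_le_min_left _ (mul_le_mul_of_nonneg_left (mv_mono_pi hA hA' hAA a u) (by positivity))

theorem pot_mono (a : V →₀ ℝ) (u : V) : pot A' a u ≤ pot A a u := by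
  unfold pot
  have h1 := psi_mono_pi hA hA' hAA a u
  by_cases h : pi A' u = none
  · have h2 : pi A u = none := by rw [← pi_pi hA hA' hAA u, h, pi_none]
    rw [if_pos h, if_pos h2]
    linarith
  · rw [if_neg h]
    split_ifs <;> linarith

end

/-- The total potential. -/
noncomputable def Phi (A : Finset V) (a : V →₀ ℝ) : ℝ := ∑ u ∈ a.support, |a u| * pot A a u

theorem Phi_nonneg (A : Finset V) (a : V →₀ ℝ) : 0 ≤ Phi A a :=
  Finset.sum_nonneg fun u _ => mul_nonneg (abs_nonneg _) (pot_nonneg A a u)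

theorem Phi_le (A : Finset V) (a : V →₀ ℝ) : Phi A a ≤ 2 * q1 a := by
  rw [Phi, q1, Finset.mul_sum]
  refine Finset.sum_le_sum fun u _ => ?_
  have := mul_le_mul_of_nonneg_left (pot_le A a u) (abs_nonneg (a u))
  linarith

/-- The wrong sign mass. -/
noncomputable def om (A : Finset V) (a : V →₀ ℝ) (v : V) : ℝ :=
  min (∑ u ∈ a.support, if pi A u = v then max (a u) 0 else 0)
    (∑ u ∈ a.support, if pi A u = v then max (-a u) 0 else 0)

theorem om_nonneg (A : Finset V) (a : V →₀ ℝ) (v : V) : 0 ≤ om A a v :=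
  le_min (Finset.sum_nonneg fun _ _ => by split_ifs <;> simp)
    (Finset.sum_nonneg fun _ _ => by split_ifs <;> simp)

theorem om_sum {A : Finset V} (hA : Cl A) (a : V →₀ ℝ) :
    2 * ∑ v ∈ A, om A a v ≤ q1 a - q1 (a.mapDomain (pi A)) := by
  have h1 : (a.mapDomain (pi A)).support ⊆ A := by
    refine Finsupp.mapDomain_support.trans ?_
    intro w hw
    obtain ⟨u, _, rfl⟩ := Finset.mem_image.1 hw
    exact pi_mem hA u
  have h2 : q1 a = ∑ v ∈ A, mv A a.support a v := by
    have := mv_sum hA a.support a (fun _ => 1)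
    simpa [q1] using this
  rw [q1_eq _ h1, h2, Finset.mul_sum, ← Finset.sum_sub_distrib]
  refine Finset.sum_le_sum fun v _ => ?_
  set P := ∑ u ∈ a.support, if pi A u = v then max (a u) 0 else 0 with hP
  set M := ∑ u ∈ a.support, if pi A u = v then max (-a u) 0 else 0 with hM
  have h3 : mv A a.support a v = P + M := by
    rw [mv, hP, hM, ← Finset.sum_add_distrib]
    refine Finset.sum_congr rfl fun u _ => ?_
    split_ifs
    · rcases le_total 0 (a u) with h | h
      · rw [max_eq_left h, max_eq_right (by linarith), abs_of_nonneg h, add_zero]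
      · rw [max_eq_right h, max_eq_left (by linarith), abs_of_nonpos h, zero_add]
    · rw [add_zero]
  have h4 : (a.mapDomain (pi A)) v = P - M := by
    rw [Finsupp.mapDomain, Finsupp.sum_apply, Finsupp.sum, hP, hM, ← Finset.sum_sub_distrib]
    refine Finset.sum_congr rfl fun u _ => ?_
    rw [Finsupp.single_apply]
    split_ifs
    · rcases le_total 0 (a u) with h | h
      · rw [max_eq_left h, max_eq_right (by linarith), sub_zero]
      · rw [max_eq_right h, max_eq_left (by linarith)]; ring
    · rw [sub_zero]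
  have h5 : om A a v = min P M := rfl
  rw [h3, h4, h5]
  rcases le_total P M with h | h
  · rw [min_eq_left h, abs_of_nonpos (by linarith)]; linarith
  · rw [min_eq_right h, abs_of_nonneg (by linarith)]; linarith

end Pool.Agent.Helper57.AUC
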