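import Pool.Agent.Helper57.AUC4

set_option autoImplicit false
set_option maxHeartbeats 1000000

namespace Pool.Agent.Helper57.AUC

open Classical

/-- The vertices of the support that move when passing from `A` to `A'`. -/
noncomputable def Um (A A' : Finset V) (a : V →₀ ℝ) : Finset V :=
  a.support.filter fun u => u ∉ A ∧ ex A u ∈ A'

theorem mem_Um {A A' : Finset V} {a : V →₀ ℝ} {u : V} :
    u ∈ Um A A' a ↔ u ∈ a.support ∧ u ∉ A ∧ ex A u ∈ A' := Finset.mem_filter

/-- The drop of the potential at a vertex. -/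
noncomputable def dr (A A' : Finset V) (a : V →₀ ℝ) (v : V) : ℝ :=
  ∑ u ∈ Um A A' a, if pi A u = v then |a u| * (pot A a u - pot A' a u) else 0

section
variable {A A' : Finset V} (hA : Cl A) (hA' : Cl A') (hAA : A ⊆ A')
include hA hA' hAA

theorem dr_nonneg (a : V →₀ ℝ) (v : V) : 0 ≤ dr A A' a v :=
  Finset.sum_nonneg fun u _ => by
    have := pot_mono hA hA' hAA a u
    split_ifs
    · exact mul_nonneg (abs_nonneg _) (by linarith)
    · exact le_rfl

theorem dr_sum (a : V →₀ ℝ) : ∑ v ∈ A, dr A A' a v ≤ Phi A a - Phi A' a := by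
  simp only [dr]
  rw [Finset.sum_comm]
  have h1 : ∀ u ∈ Um A A' a, (∑ v ∈ A, if pi A u = v then |a u| * (pot A a u - pot A' a u) else 0)
      = |a u| * (pot A a u - pot A' a u) := by
    intro u _
    rw [Finset.sum_ite_eq, if_pos (pi_mem hA u)]
  rw [Finset.sum_congr rfl h1, Phi, Phi, ← Finset.sum_sub_distrib]
  refine (Finset.sum_le_sum_of_subset_of_nonneg (Finset.filter_subset _ _) fun u _ _ => ?_).trans
    (le_of_eq (Finset.sum_congr rfl fun u _ => by ring))
  have := pot_mono hA hA' hAA a u
  exact mul_nonneg (abs_nonneg _) (by linarith)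

theorem E_diff (a : V →₀ ℝ) : rs A' (E a) - rs A (E a) = disp A A' (Um A A' a) a := by
  rw [E, Finsupp.linearCombination_apply, Finsupp.sum, map_sum, map_sum, ← Finset.sum_sub_distrib,
    disp, Um, Finset.sum_filter]
  refine Finset.sum_congr rfl fun u _ => ?_
  rw [map_smul, map_smul, rs_ev hA, rs_ev hA', ← smul_sub]
  split_ifs with h
  · rfl
  · have : pi A' u = pi A u := by
      by_cases h1 : u ∈ A
      · rw [pi_of_mem h1, pi_of_mem (hAA h1)]
      · exact pi_eq_of_ex hA hA' hAA h1 fun h2 => h ⟨h1, h2⟩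
    rw [this, sub_self, smul_zero]

theorem hh_ev_diff {g : Node} (hg : some g ∈ A) (i : Fin (K g.1)) {u : V} (h1 : u ∉ A)
    (h2 : ex A u ∈ A') : hh g i (ev (pi A' u) - ev (pi A u)) = kap g i (ex A u) := by
  have e1 : ev (pi A' u) - ev (pi A u) =
      ∑ w ∈ (chain u).filter (fun w => w ∈ A' ∧ w ∉ A), Finsupp.single w 1 := by
    ext w
    rw [ev_diff hA hA' hAA, Finsupp.finsetSum_apply]
    simp only [Finsupp.single_apply]
    rw [Finset.sum_ite_eq']
    simp only [Finset.mem_filter]
  obtain ⟨s1, s2, s3⟩ := ex_spec hA u h1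
  rw [e1, map_sum, Finset.sum_eq_single (ex A u)]
  · rw [hh_single, one_mul]
  · intro w hw hne
    obtain ⟨h3, h4, h5⟩ := Finset.mem_filter.1 hw
    rw [hh_single, one_mul, kap, if_neg]
    intro h6
    exact hne (ex_unique hA u w h3 h5 (h6 ▸ hg)).symm
  · intro h3
    exact absurd (Finset.mem_filter.2 ⟨s1, h2, s2⟩) h3

theorem nu_le (a : V →₀ ℝ) {u : V} (hu : u ∈ Um A A' a) :
    mv A' a.support a (pi A' u) ≤
      ∑ u' ∈ Um A A' a, if pi A u' = pi A u ∧ idx (ex A u') = idx (ex A u) then |a u'| else 0 := by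
  obtain ⟨h1, h2, h3⟩ := mem_Um.1 hu
  obtain ⟨h4, h5⟩ := pi_moving hA hA' hAA h2 h3
  have h6 : mv A' a.support a (pi A' u) =
      ∑ u' ∈ Um A A' a, if pi A' u' = pi A' u then |a u'| else 0 := by
    rw [mv, Um, Finset.sum_filter]
    refine Finset.sum_congr rfl fun u' _ => ?_
    by_cases h : pi A' u' = pi A' u
    · have h7 : u' ∉ A := by
        intro h7
        rw [pi_of_mem (hAA h7)] at h
        exact h4 (h ▸ h7)
      have h8 : ex A u' ∈ A' := by
        by_contra h8
        rw [pi_eq_of_ex hA hA' hAA h7 h8] at h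
        exact h4 (h ▸ pi_mem hA u')
      have h9 : u' ∉ A ∧ ex A u' ∈ A' := ⟨h7, h8⟩
      rw [if_pos h9]
    · rw [if_neg h]
      split_ifs <;> rfl
  rw [h6]
  refine Finset.sum_le_sum fun u' hu' => ?_
  obtain ⟨-, h2', h3'⟩ := mem_Um.1 hu'
  by_cases h : pi A' u' = pi A' u
  · have h7 : ex A u' = ex A u := by
      rw [← (pi_moving hA hA' hAA h2' h3').2, h, h5]
    have h8 : pi A u' = pi A u := by
      rw [← (ex_spec hA u' h2').2.2, h7, (ex_spec hA u h2).2.2]
    rw [if_pos h, if_pos ⟨h8, by rw [h7]⟩]
  · rw [if_neg h]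
    split_ifs <;> positivity

/-- The dichotomy at a vertex. -/
theorem dichotomy (a c : V →₀ ℝ) (ha : q1 a ≤ 2) (v : V) (hv : v ∈ A)
    (hev : ∀ (g : Node) (i : Fin (K g.1)), some g ∈ A →
      hh g i (rs A' (E a + c) - rs A (E a + c)) = 0) :
    mv A (Um A A' a) a v ≤ 8 * om A a v + 2 * dr A A' a v ∨
    (v ≠ none ∧ (Lam v * mv A (Um A A' a) a v) ^ 2 ≤
      64 * (Lam v * ms (Zl (rs A' c - rs A c)) v) ^ 2 + 2 * dr A A' a v) := by
  have hom := om_nonneg A a v
  have hdr := dr_nonneg hA hA' hAA a v
  set U := Um A A' a with hU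
  set μ := mv A U a v with hμ
  set D := dr A A' a v with hD
  have hμ0 : 0 ≤ μ := mv_nonneg _ _ _ _
  have hUs : U ⊆ a.support := Finset.filter_subset _ _
  rcases v with _ | g
  · -- the root
    left
    have h1 : μ ≤ D := by
      refine Finset.sum_le_sum fun u hu => ?_
      by_cases h : pi A u = none
      · rw [if_pos h, if_pos h]
        obtain ⟨-, h2, h3⟩ := mem_Um.1 hu
        have h4 : pi A' u ≠ none := ne_of_notMem hA (pi_moving hA hA' hAA h2 h3).1
        have h5 := psi_mono_pi hA hA' hAA a u
        have h6 : 1 ≤ pot A a u - pot A' a u := by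
          unfold pot
          rw [if_pos h, if_neg h4]
          linarith
        have := mul_le_mul_of_nonneg_left h6 (abs_nonneg (a u))
        linarith
      · rw [if_neg h, if_neg h]
    linarith
  · by_cases c1 : μ < 8 * om A a (some g)
    · left; linarith
    push Not at c1
    set q := ms (Zl (rs A' c - rs A c)) (some g) with hq
    have hq0 : 0 ≤ q := ms_nonneg _ _
    have hL := Lam_pos (some g)
    by_cases c2 : μ < 8 * q
    · right
      refine ⟨by simp, ?_⟩
      have : (Lam (some g) * μ) ^ 2 ≤ (Lam (some g) * (8 * q)) ^ 2 :=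
        pow_le_pow_left₀ (by positivity) (mul_le_mul_of_nonneg_left c2.le hL.le) 2
      nlinarith
    push Not at c2
    -- the sign
    obtain ⟨σ, wr, hσ, hwr0, hwr, hwrs⟩ : ∃ (σ : ℝ) (wr : V → ℝ), |σ| = 1 ∧ (∀ u, 0 ≤ wr u) ∧
        (∀ u, |a u| = σ * a u + 2 * wr u) ∧
        (∑ u ∈ a.support, if pi A u = some g then wr u else 0) = om A a (some g) := by
      rcases le_total (∑ u ∈ a.support, if pi A u = some g then max (a u) 0 else 0)
        (∑ u ∈ a.support, if pi A u = some g then max (-a u) 0 else 0) with h | h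
      · refine ⟨-1, fun u => max (a u) 0, by simp, fun u => le_max_right _ _, fun u => ?_, ?_⟩
        · show |a u| = -1 * a u + 2 * max (a u) 0
          rcases le_total 0 (a u) with h | h
          · rw [max_eq_left h, abs_of_nonneg h]; ring
          · rw [max_eq_right h, abs_of_nonpos h]; ring
        · rw [om, min_eq_left h]
      · refine ⟨1, fun u => max (-a u) 0, by simp, fun u => le_max_right _ _, fun u => ?_, ?_⟩
        · show |a u| = 1 * a u + 2 * max (-a u) 0
          rcases le_total 0 (a u) with h | h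
          · rw [max_eq_right (by linarith), abs_of_nonneg h]; ring
          · rw [max_eq_left (by linarith), abs_of_nonpos h]; ring
        · rw [om, min_eq_right h]
    -- the parts
    set p : Fin (K g.1) → ℝ := fun i =>
      ∑ u ∈ U, if pi A u = some g ∧ idx (ex A u) = i.val then |a u| else 0 with hp
    set s : Fin (K g.1) → ℝ := fun i =>
      ∑ u ∈ U, if pi A u = some g ∧ idx (ex A u) = i.val then a u else 0 with hs
    set w : Fin (K g.1) → ℝ := fun i =>
      ∑ u ∈ U, if pi A u = some g ∧ idx (ex A u) = i.val then wr u else 0 with hw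
    have hUex : ∀ u ∈ U, par (ex A u) = pi A u := fun u hu =>
      (ex_spec hA u (mem_Um.1 hu).2.1).2.2
    -- sums over `i`
    have hsum : ∀ (f : V → ℝ) (F : Fin (K g.1) → ℝ), (∑ i, (∑ u ∈ U, if pi A u = some g ∧
        idx (ex A u) = i.val then f u else 0) * F i) = ∑ u ∈ U, if h : pi A u = some g then
          f u * (if h' : idx (ex A u) < K g.1 then F ⟨idx (ex A u), h'⟩ else 0) else 0 := by
      intro f F
      simp only [Finset.sum_mul]
      rw [Finset.sum_comm]
      refine Finset.sum_congr rfl fun u hu => ?_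
      by_cases h : pi A u = some g
      · have h' : idx (ex A u) < K g.1 := idx_lt ((hUex u hu).trans h)
        rw [dif_pos h, dif_pos h']
        have h1 : ∀ i : Fin (K g.1), (if pi A u = some g ∧ idx (ex A u) = i.val then f u else 0) *
            F i = if (⟨idx (ex A u), h'⟩ : Fin (K g.1)) = i then f u * F i else 0 := by
          intro i
          have e : ((⟨idx (ex A u), h'⟩ : Fin (K g.1)) = i) ↔ idx (ex A u) = i.val := by
            rw [Fin.ext_iff]
          by_cases h2 : idx (ex A u) = i.val
          · rw [if_pos ⟨h, h2⟩, if_pos (e.2 h2)]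
          · rw [if_neg (fun h3 => h2 h3.2), if_neg (fun h3 => h2 (e.1 h3)), zero_mul]
        simp only [h1, Finset.sum_ite_eq, Finset.mem_univ, if_true]
      · rw [dif_neg h]
        refine Finset.sum_eq_zero fun i _ => ?_
        rw [if_neg fun h2 => h h2.1, zero_mul]
    have hsum1 : ∀ f : V → ℝ, (∑ i, ∑ u ∈ U, if pi A u = some g ∧
        idx (ex A u) = (i : Fin (K g.1)).val then f u else 0) =
        ∑ u ∈ U, if pi A u = some g then f u else 0 := by
      intro f
      have := hsum f (fun _ => 1)
      simp only [mul_one] at this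
      rw [this]
      refine Finset.sum_congr rfl fun u hu => ?_
      by_cases h : pi A u = some g
      · have h' : idx (ex A u) < K g.1 := idx_lt ((hUex u hu).trans h)
        rw [dif_pos h, dif_pos h', if_pos h, mul_one]
      · rw [dif_neg h, if_neg h]
    have hpμ : ∑ i, p i = μ := hsum1 fun u => |a u|
    have hp0 : ∀ i, 0 ≤ p i := fun i => Finset.sum_nonneg fun _ _ => by split_ifs <;> positivity
    have hw0 : ∀ i, 0 ≤ w i := fun i => Finset.sum_nonneg fun u _ => by
      have := hwr0 u
      split_ifs <;> linarith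
    have hws : ∑ i, w i ≤ om A a (some g) := by
      rw [hsum1 wr, ← hwrs]
      refine Finset.sum_le_sum_of_subset_of_nonneg hUs fun u _ _ => ?_
      have := hwr0 u
      split_ifs <;> linarith
    have hpsw : ∀ i, p i = σ * s i + 2 * w i := by
      intro i
      rw [hp, hs, hw]
      simp only
      rw [Finset.mul_sum, Finset.mul_sum, ← Finset.sum_add_distrib]
      refine Finset.sum_congr rfl fun u _ => ?_
      split_ifs
      · exact hwr u
      · ring
    -- evenness
    set κ : Fin (K g.1) → ℝ := fun i => mi (Zl (rs A' c - rs A c)) g i with hκ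
    have hK : (0 : ℝ) < K g.1 := by exact_mod_cast K_pos _
    have heven : ∀ i, |s i - 1 / (K g.1 : ℝ) * ∑ i', s i'| ≤ κ i := by
      intro i
      have e1 := hev g i hv
      have e2 : rs A' (E a + c) - rs A (E a + c) = disp A A' U a + (rs A' c - rs A c) := by
        rw [map_add, map_add, ← E_diff hA hA' hAA]
        abel
      rw [e2, map_add] at e1
      have e3 : hh g i (disp A A' U a) = s i - 1 / (K g.1 : ℝ) * ∑ i', s i' := by
        rw [disp, map_sum, hsum1 a, hs]
        simp only
        rw [Finset.mul_sum, ← Finset.sum_sub_distrib]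
        refine Finset.sum_congr rfl fun u hu => ?_
        obtain ⟨-, h2, h3⟩ := mem_Um.1 hu
        rw [map_smul, hh_ev_diff hA hA' hAA hv i h2 h3, kap, hUex u hu, smul_eq_mul]
        by_cases h : pi A u = some g
        · by_cases h' : idx (ex A u) = i.val
          · rw [if_pos h, if_pos h', if_pos ⟨h, h'⟩, if_pos h]; ring
          · rw [if_pos h, if_neg h', if_neg (fun h4 => h' h4.2), if_pos h]; ring
        · rw [if_neg h, if_neg (fun h4 => h h4.1), if_neg h]; ring
      rw [← e3]
      have e4 : hh g i (disp A A' U a) = - hh g i (rs A' c - rs A c) := by linarith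
      rw [e4, abs_neg]
      exact abs_hh_le g i _
    have hssum : |∑ i', s i'| ≤ μ := by
      rw [hsum1 a]
      refine (Finset.abs_sum_le_sum_abs _ _).trans (Finset.sum_le_sum fun u _ => ?_)
      split_ifs
      · exact le_rfl
      · rw [abs_zero]
    have hK64 : (K g.1 : ℝ) = 64 * 4 ^ g.1 := by
      rw [K]
      push_cast
      ring
    have hpr : ∀ i, p i ≤ μ / (64 * 4 ^ g.1) + (κ i + 2 * w i) := by
      intro i
      rw [hpsw i]
      have e1 : |σ * (s i - 1 / (K g.1 : ℝ) * ∑ i', s i')| ≤ κ i := by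
        rw [abs_mul, hσ, one_mul]
        exact heven i
      have e2 : |σ * (1 / (K g.1 : ℝ) * ∑ i', s i')| ≤ 1 / (K g.1 : ℝ) * μ := by
        rw [abs_mul, hσ, one_mul, abs_mul, abs_of_pos (one_div_pos.2 hK)]
        exact mul_le_mul_of_nonneg_left hssum (one_div_pos.2 hK).le
      have e3 := (abs_le.1 e1).2
      have e4 := (abs_le.1 e2).2
      rw [← hK64]
      have e5 : μ / (K g.1 : ℝ) = 1 / (K g.1 : ℝ) * μ := by ring
      rw [e5]
      linarith
    have hκs : ∑ i, κ i ≤ q := sum_mi _ g
    have hr : ∑ i, (κ i + 2 * w i) ≤ 3 / 8 * μ := by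
      rw [Finset.sum_add_distrib, ← Finset.mul_sum]
      linarith
    have hμ2 : μ ≤ 2 := by
      refine le_trans ?_ ha
      rw [q1]
      refine le_trans ?_ (Finset.sum_le_sum_of_subset_of_nonneg hUs
        fun _ _ _ => abs_nonneg _)
      exact Finset.sum_le_sum fun u _ => by split_ifs; exacts [le_rfl, abs_nonneg _]
    have hn1 : (1 : ℝ) ≤ 4 ^ g.1 := one_le_pow₀ (by norm_num)
    have hRV := RV hn1 p (fun i => κ i + 2 * w i) hp0
      (fun i => add_nonneg (mi_nonneg _ _ _) (mul_nonneg (by norm_num) (hw0 i))) hpμ hμ2 hpr hr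
    -- the drop
    have hdrop : 1 / 2 * (μ * min 1 (4 ^ g.1 * μ)) ≤ D := by
      have e1 : μ * min 1 (4 ^ g.1 * μ) - ∑ i, p i * min 1 (4 ^ g.1 * p i) ≤ D := by
        have e0 : μ * min 1 (4 ^ g.1 * μ) =
            ∑ u ∈ U, (if pi A u = some g then |a u| else 0) * min 1 (4 ^ g.1 * μ) := by
          rw [← Finset.sum_mul]
          rfl
        rw [hsum (fun u => |a u|) (fun i => min 1 (4 ^ g.1 * p i)), e0,
          ← Finset.sum_sub_distrib, hD, dr]
        refine Finset.sum_le_sum fun u hu => ?_
        by_cases h : pi A u = some g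
        · obtain ⟨-, h2, h3⟩ := mem_Um.1 hu
          have h' : idx (ex A u) < K g.1 := idx_lt ((hUex u hu).trans h)
          rw [if_pos h, if_pos h, dif_pos h, dif_pos h', ← mul_sub]
          refine mul_le_mul_of_nonneg_left ?_ (abs_nonneg _)
          have hc : comp u = g.1 := by
            rw [← comp_pi u (A := A) (by rw [h]; simp), h]
            rfl
          have h4 : pi A' u ≠ none := ne_of_notMem hA (pi_moving hA hA' hAA h2 h3).1
          unfold pot
          rw [if_neg h4, if_neg (by rw [h]; simp), hc, add_zero, add_zero]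
          have f1 : min 1 (4 ^ g.1 * μ) ≤
              min 1 (4 ^ g.1 * mv A a.support a (pi A u)) := by
            refine min_le_min_left _ (mul_le_mul_of_nonneg_left ?_ (by positivity))
            rw [h]
            exact Finset.sum_le_sum_of_subset_of_nonneg hUs
              fun _ _ _ => by split_ifs <;> positivity
          have f2 : min 1 (4 ^ g.1 * mv A' a.support a (pi A' u)) ≤
              min 1 (4 ^ g.1 * p ⟨idx (ex A u), h'⟩) := by
            refine min_le_min_left _ (mul_le_mul_of_nonneg_left ?_ (by positivity))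
            have := nu_le hA hA' hAA a hu
            rw [h] at this
            exact this
          linarith
        · rw [if_neg h, if_neg h, dif_neg h]
          simp
      linarith
    rcases le_total 1 ((4 : ℝ) ^ g.1 * μ) with h | h
    · left
      rw [min_eq_left h] at hdrop
      linarith
    · right
      refine ⟨by simp, ?_⟩
      rw [min_eq_right h] at hdrop
      have e1 := Lam_sq_le (v := some g) (by simp)
      have e2 : comp (some g) = g.1 := rfl
      rw [e2] at e1
      have e3 := mul_le_mul_of_nonneg_right e1 (sq_nonneg μ)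
      nlinarith [sq_nonneg (Lam (some g) * q)]

end

end Pool.Agent.Helper57.AUC
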