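import Pool.Agent.Helper57.AUC5

set_option autoImplicit false
set_option maxHeartbeats 1000000

namespace Pool.Agent.Helper57.AUC

open Classical

section
variable {A A' : Finset V} (hA : Cl A) (hA' : Cl A') (hAA : A ⊆ A')
include hA hA' hAA

theorem one_step (a c : V →₀ ℝ) (ha : q1 a ≤ 2)
    (hev : ∀ (g : Node) (i : Fin (K g.1)), some g ∈ A →
      hh g i (rs A' (E a + c) - rs A (E a + c)) = 0) :
    Nm (rs A' (E a + c) - rs A (E a + c)) ≤
      2 * (8 * ∑ v ∈ A, om A a v + 2 * (Phi A a - Phi A' a)) +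
      4 * Real.sqrt (64 * S2 (rs A' c - rs A c) ^ 2 + 2 * (Phi A a - Phi A' a)) +
      (S1 (rs A' c - rs A c) + S2 (rs A' c - rs A c)) := by
  set U := Um A A' a with hU
  set P : V → Prop := fun v => mv A U a v ≤ 8 * om A a v + 2 * dr A A' a v with hP
  set U₁ := U.filter (fun u => P (pi A u)) with hU1
  set U₂ := U.filter (fun u => ¬ P (pi A u)) with hU2
  have hdr := dr_sum hA hA' hAA a
  have e1 : rs A' (E a + c) - rs A (E a + c) =
      disp A A' U₁ a + disp A A' U₂ a + (rs A' c - rs A c) := by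
    have : disp A A' U a = disp A A' U₁ a + disp A A' U₂ a := by
      rw [disp, disp, disp, hU1, hU2, Finset.sum_filter_add_sum_filter_not]
    rw [← this, map_add, map_add, hU, ← E_diff hA hA' hAA]
    abel
  rw [e1]
  have n1 : Nm (disp A A' U₁ a) ≤ 2 * (8 * ∑ v ∈ A, om A a v + 2 * (Phi A a - Phi A' a)) := by
    refine (Nm_disp_le' hA hA' hAA U₁ a).trans (mul_le_mul_of_nonneg_left ?_ (by norm_num))
    have h1 := mv_sum hA U₁ a (fun _ => 1)
    simp only [mul_one] at h1
    rw [h1]
    have h2 : ∀ v ∈ A, mv A U₁ a v ≤ 8 * om A a v + 2 * dr A A' a v := by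
      intro v _
      by_cases h : P v
      · refine le_trans ?_ h
        exact Finset.sum_le_sum_of_subset_of_nonneg (Finset.filter_subset _ _)
          fun _ _ _ => by split_ifs <;> positivity
      · have h3 : mv A U₁ a v = 0 := by
          refine Finset.sum_eq_zero fun u hu => ?_
          rw [if_neg]
          rintro rfl
          exact h (Finset.mem_filter.1 hu).2
        rw [h3]
        have := om_nonneg A a v
        have := dr_nonneg hA hA' hAA a v
        positivity
    refine (Finset.sum_le_sum h2).trans ?_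
    rw [Finset.sum_add_distrib, ← Finset.mul_sum, ← Finset.mul_sum]
    linarith
  have n2 : Nm (disp A A' U₂ a) ≤
      4 * Real.sqrt (64 * S2 (rs A' c - rs A c) ^ 2 + 2 * (Phi A a - Phi A' a)) := by
    refine (Nm_disp_le hA hA' hAA U₂ a ?_).trans
      (mul_le_mul_of_nonneg_left (Real.sqrt_le_sqrt ?_) (by norm_num))
    · intro u hu
      have h1 := (Finset.mem_filter.1 hu).2
      rcases dichotomy hA hA' hAA a c ha (pi A u) (pi_mem hA u) hev with h | h
      · exact absurd h h1
      · exact h.1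
    · have h2 : ∀ v ∈ A, (Lam v * mv A U₂ a v) ^ 2 ≤
          64 * (Lam v * ms (Zl (rs A' c - rs A c)) v) ^ 2 + 2 * dr A A' a v := by
        intro v hv
        have hd := dr_nonneg hA hA' hAA a v
        by_cases h : P v
        · have h3 : mv A U₂ a v = 0 := by
            refine Finset.sum_eq_zero fun u hu => ?_
            rw [if_neg]
            rintro rfl
            exact (Finset.mem_filter.1 hu).2 h
          rw [h3]
          nlinarith [sq_nonneg (Lam v * ms (Zl (rs A' c - rs A c)) v)]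
        · rcases dichotomy hA hA' hAA a c ha v hv hev with h' | h'
          · exact absurd h' h
          · refine le_trans ?_ h'.2
            refine pow_le_pow_left₀ (mul_nonneg (Lam_pos v).le (mv_nonneg _ _ _ _)) ?_ 2
            refine mul_le_mul_of_nonneg_left ?_ (Lam_pos v).le
            exact Finset.sum_le_sum_of_subset_of_nonneg (Finset.filter_subset _ _)
              fun _ _ _ => by split_ifs <;> positivity
      refine (Finset.sum_le_sum h2).trans ?_
      rw [Finset.sum_add_distrib, ← Finset.mul_sum, ← Finset.mul_sum]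
      have h4 := T2_sq_le (Zl (rs A' c - rs A c)) A
      have h5 : T2 (Zl (rs A' c - rs A c)) = S2 (rs A' c - rs A c) := rfl
      rw [h5] at h4
      linarith
  have n3 := Nm_le 0 (rs A' c - rs A c)
  rw [map_zero, zero_add] at n3
  have h0 : q1 (0 : V →₀ ℝ) = 0 := by simp [q1]
  rw [h0, zero_add] at n3
  have m1 := map_add_le_add Nm (disp A A' U₁ a + disp A A' U₂ a) (rs A' c - rs A c)
  have m2 := map_add_le_add Nm (disp A A' U₁ a) (disp A A' U₂ a)
  linarith

theorem nw_eq (c : V →₀ ℝ) : rs A' c - rs A c = rs A' (c - rs A c) := by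
  ext w
  rw [Finsupp.sub_apply, rs_apply, rs_apply, rs_apply, Finsupp.sub_apply, rs_apply]
  by_cases h : w ∈ A
  · simp [h, hAA h]
  · simp [h]

end

/-- The quantitative statement for finitely supported vectors. -/
theorem main_fin (t : ℝ) (ht : 0 < t) (ht1 : t ≤ 1) : ∃ n : ℕ, ∀ (A : ℕ → Finset V)
    (ξ : ℕ → V →₀ ℝ), (∀ k ≤ n, Cl (A k)) → (∀ k < n, A k ⊆ A (k + 1)) →
    (∀ k < n, rs (A k) (ξ (k + 1)) = ξ k) → rs (A n) (ξ n) = ξ n →
    (∀ k < n, ∀ (g : Node) (i : Fin (K g.1)), some g ∈ A k → hh g i (ξ (k + 1) - ξ k) = 0) →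
    (∀ k < n, t / 2 ≤ Nm (ξ (k + 1) - ξ k)) → 1 - (t / 300) ^ 2 ≤ Nm (ξ 0) →
    1 + (t / 300) ^ 2 ≤ Nm (ξ n) := by
  set ε := (t / 300) ^ 2 with hε
  have hε0 : 0 < ε := by positivity
  have hε1 : ε ≤ 1 / 90000 := by
    rw [hε]
    nlinarith
  obtain ⟨n, hn⟩ := exists_nat_gt (4 / ε)
  have hn0 : (0 : ℝ) < n := lt_trans (by positivity) hn
  refine ⟨n, fun A ξ hCl hsub hrs hrsn hev hNm h0 => ?_⟩
  by_contra hcon
  push Not at hcon
  obtain ⟨a, c, hx, hac⟩ := Nm_rep (ξ n) (η := 1 + ε - Nm (ξ n)) (by linarith)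
  have hac' : q1 a + (S1 c + S2 c) < 1 + ε := by linarith
  have hq1 := q1_nonneg a
  have hS1 := apply_nonneg S1 c
  have hS2 := apply_nonneg S2 c
  have ha2 : q1 a ≤ 2 := by linarith
  -- all stages are restrictions
  have hres : ∀ m ≤ n, ξ (n - m) = rs (A (n - m)) (ξ n) := by
    intro m
    induction m with
    | zero => intro _; exact hrsn.symm
    | succ m ih =>
      intro hm
      have h1 := ih (by omega)
      have h2 : n - m = n - (m + 1) + 1 := by omega
      have h3 := hrs (n - (m + 1)) (by omega)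
      rw [← h3, ← h2, h1, rs_rs]
      rw [h2]
      exact hsub _ (by omega)
  have hres' : ∀ k ≤ n, ξ k = rs (A k) (ξ n) := by
    intro k hk
    have := hres (n - k) (by omega)
    rwa [show n - (n - k) = k by omega] at this
  -- lower bounds at each stage
  have hmono : ∀ k ≤ n, A 0 ⊆ A k := by
    intro k
    induction k with
    | zero => intro _; exact subset_rfl
    | succ k ih => intro hk; exact (ih (by omega)).trans (hsub k (by omega))
  have hlow : ∀ k ≤ n, 1 - ε ≤ q1 (a.mapDomain (pi (A k))) + (S1 (rs (A k) c) + S2 (rs (A k) c)) := by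
    intro k hk
    have h1 : Nm (ξ 0) ≤ Nm (ξ k) := by
      rw [hres' 0 (Nat.zero_le _), hres' k hk, ← rs_rs (hmono k hk)]
      exact Nm_rs_le (hCl 0 (Nat.zero_le _)) _
    have h2 : ξ k = E (a.mapDomain (pi (A k))) + rs (A k) c := by
      rw [hres' k hk, hx, map_add, rs_E (hCl k hk)]
    have h3 := Nm_le (a.mapDomain (pi (A k))) (rs (A k) c)
    rw [← h2] at h3
    linarith
  -- a step with small drop
  have hdrop : ∃ k < n, Phi (A k) a - Phi (A (k + 1)) a ≤ ε := by
    by_contra hc
    push Not at hc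
    have h1 : ∀ m ≤ n, (m : ℝ) * ε ≤ Phi (A 0) a - Phi (A m) a := by
      intro m
      induction m with
      | zero => intro _; simp
      | succ m ih =>
        intro hm
        have h2 := ih (by omega)
        have h3 := hc m (by omega)
        push_cast
        linarith
    have h2 := h1 n le_rfl
    have h3 := Phi_le (A 0) a
    have h4 := Phi_nonneg (A n) a
    have h5 : 4 < n * ε := by
      rwa [div_lt_iff₀ hε0] at hn
    linarith
  obtain ⟨k, hk, hdk⟩ := hdrop
  have hA := hCl k hk.le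
  have hA' := hCl (k + 1) hk
  have hAA := hsub k hk
  have hdiff : ξ (k + 1) - ξ k = rs (A (k + 1)) (E a + c) - rs (A k) (E a + c) := by
    rw [hres' (k + 1) hk, hres' k hk.le, hx]
  have hstep := one_step hA hA' hAA a c ha2 (fun g i hg => by
    rw [← hdiff]; exact hev k hk g i hg)
  rw [← hdiff] at hstep
  have hlk := hlow k hk.le
  have hq1k := q1_mapDomain (pi (A k)) a
  have hS1k := S1_rs_le hA c
  have hS2k := S2_rs_le hA c
  have hS1k0 := apply_nonneg S1 (rs (A k) c)
  have hS2k0 := apply_nonneg S2 (rs (A k) c)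
  have hom := om_sum hA a
  have hd0 : 0 ≤ Phi (A k) a - Phi (A (k + 1)) a := by
    have := dr_sum hA hA' hAA a
    have h2 : 0 ≤ ∑ v ∈ A k, dr (A k) (A (k + 1)) a v :=
      Finset.sum_nonneg fun v _ => dr_nonneg hA hA' hAA a v
    linarith
  -- new parts
  have hnew1 : S1 (rs (A (k + 1)) c - rs (A k) c) ^ 2 ≤ 8 * ε := by
    rw [nw_eq hA hA' hAA]
    have h1 := S1_rs_le hA' (c - rs (A k) c)
    have h2 := S1_split hA c
    have h3 := apply_nonneg S1 (rs (A (k + 1)) (c - rs (A k) c))
    have h4 : S1 (rs (A (k + 1)) (c - rs (A k) c)) ^ 2 ≤ S1 (c - rs (A k) c) ^ 2 :=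
      pow_le_pow_left₀ h3 h1 2
    have h5 : S1 c - S1 (rs (A k) c) ≤ 2 * ε := by linarith
    nlinarith
  have hnew2 : S2 (rs (A (k + 1)) c - rs (A k) c) ^ 2 ≤ 8 * ε := by
    rw [nw_eq hA hA' hAA]
    have h1 := S2_rs_le hA' (c - rs (A k) c)
    have h2 := S2_split hA c
    have h3 := apply_nonneg S2 (rs (A (k + 1)) (c - rs (A k) c))
    have h4 : S2 (rs (A (k + 1)) (c - rs (A k) c)) ^ 2 ≤ S2 (c - rs (A k) c) ^ 2 :=
      pow_le_pow_left₀ h3 h1 2
    have h5 : S2 c - S2 (rs (A k) c) ≤ 2 * ε := by linarith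
    nlinarith
  have hη : 0 < t / 300 := by positivity
  have hb1 : S1 (rs (A (k + 1)) c - rs (A k) c) ≤ 3 * (t / 300) :=
    abs_le_of_sq_le_sq' (by rw [mul_pow, ← hε]; linarith) (by positivity) |>.2
  have hb2 : S2 (rs (A (k + 1)) c - rs (A k) c) ≤ 3 * (t / 300) :=
    abs_le_of_sq_le_sq' (by rw [mul_pow, ← hε]; linarith) (by positivity) |>.2
  have hb3 : Real.sqrt (64 * S2 (rs (A (k + 1)) c - rs (A k) c) ^ 2 +
      2 * (Phi (A k) a - Phi (A (k + 1)) a)) ≤ 23 * (t / 300) := by
    rw [Real.sqrt_le_left (by positivity), mul_pow, ← hε]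
    linarith
  have hb4 : ∑ v ∈ A k, om (A k) a v ≤ ε := by linarith
  have hfin := hNm k hk
  have hεt : ε ≤ t / 300 := by
    rw [hε]
    nlinarith
  nlinarith

end Pool.Agent.Helper57.AUC
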