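import Pool.Agent.Helper57.AUC6

set_option autoImplicit false
set_option maxHeartbeats 1000000

namespace Pool.Agent.Helper57.AUC

open Classical

/-! ### Closed hulls -/

/-- Smallest closed set containing a vertex. -/
noncomputable def hullL (N : ℕ) : List (ℕ × Fin (K N)) → Finset V
  | [] => {some ⟨N, []⟩, none}
  | g :: l => hullL N l ∪ (Finset.univ : Finset (Fin (K N))).image fun i => some ⟨N, (g.1, i) :: l⟩

/-- Smallest closed set containing a vertex. -/
noncomputable def hull : V → Finset V
  | none => {none}
  | some ⟨N, l⟩ => hullL N l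

theorem Cl_union {A B : Finset V} (hA : Cl A) (hB : Cl B) : Cl (A ∪ B) where
  root := Finset.mem_union_left _ hA.root
  par w hw := by
    rcases Finset.mem_union.1 hw with h | h
    · exact Finset.mem_union_left _ (hA.par w h)
    · exact Finset.mem_union_right _ (hB.par w h)
  sib g j i i' hw := by
    rcases Finset.mem_union.1 hw with h | h
    · exact Finset.mem_union_left _ (hA.sib g j i i' h)
    · exact Finset.mem_union_right _ (hB.sib g j i i' h)

theorem hull_spec : ∀ v : V, v ∈ hull v ∧ Cl (hull v) := by
  rintro (_ | ⟨N, l⟩)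
  · refine ⟨Finset.mem_singleton_self _, Finset.mem_singleton_self _, ?_, ?_⟩
    · intro w hw
      rw [hull, Finset.mem_singleton] at hw
      rw [hw]
      exact Finset.mem_singleton_self _
    · intro g j i i' h
      rw [hull, Finset.mem_singleton] at h
      exact absurd h (by simp [ch])
  · induction l with
    | nil =>
      have h0 : hull (some ⟨N, []⟩) = {some ⟨N, []⟩, none} := rfl
      refine ⟨by rw [h0]; simp, ⟨by rw [h0]; simp, ?_, ?_⟩⟩
      · intro w hw
        rw [h0] at hw ⊢
        simp only [Finset.mem_insert, Finset.mem_singleton] at hw ⊢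
        rcases hw with rfl | rfl
        · right; rfl
        · right; rfl
      · intro g j i i' h
        rw [h0] at h
        simp only [Finset.mem_insert, Finset.mem_singleton] at h
        rcases h with h | h
        · have := congrArg par h
          rw [par_ch] at this
          exact absurd this (by simp [par])
        · exact absurd h (by simp [ch])
    | cons g l ih =>
      obtain ⟨j, i⟩ := g
      have h0 : hull (some ⟨N, (j, i) :: l⟩) = hull (some ⟨N, l⟩) ∪
        (Finset.univ : Finset (Fin (K N))).image fun i => some ⟨N, (j, i) :: l⟩ := rfl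
      refine ⟨by rw [h0]; simp, ⟨by rw [h0]; exact Finset.mem_union_left _ ih.2.root, ?_, ?_⟩⟩
      · intro w hw
        rw [h0, Finset.mem_union] at hw ⊢
        left
        rcases hw with h | h
        · exact ih.2.par w h
        · obtain ⟨i', _, rfl⟩ := Finset.mem_image.1 h
          exact ih.1
      · intro g' j' i' i'' h
        rw [h0, Finset.mem_union] at h ⊢
        rcases h with h | h
        · left; exact ih.2.sib g' j' i' i'' h
        · right
          obtain ⟨i₀, _, h1⟩ := Finset.mem_image.1 h
          have h2 : ch ⟨N, l⟩ j i₀ = ch g' j' i' := h1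
          have h3 := congrArg par h2
          rw [par_ch, par_ch] at h3
          have h4 : (⟨N, l⟩ : Node) = g' := Option.some.inj h3
          subst h4
          obtain ⟨rfl, -⟩ := ch_inj h2
          exact Finset.mem_image.2 ⟨i'', Finset.mem_univ _, rfl⟩

theorem exists_closed {A : Finset V} (hA : Cl A) (s : Finset V) :
    ∃ B, Cl B ∧ A ⊆ B ∧ s ⊆ B := by
  induction s using Finset.induction_on with
  | empty => exact ⟨A, hA, subset_rfl, Finset.empty_subset _⟩
  | insert v s _ ih =>
    obtain ⟨B, h1, h2, h3⟩ := ih
    refine ⟨B ∪ hull v, Cl_union h1 (hull_spec v).2, h2.trans Finset.subset_union_left, ?_⟩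
    intro w hw
    rcases Finset.mem_insert.1 hw with rfl | hw
    · exact Finset.mem_union_right _ (hull_spec w).1
    · exact Finset.mem_union_left _ (h3 hw)

theorem rs_of_support {A : Finset V} {x : V →₀ ℝ} (h : x.support ⊆ A) : rs A x = x := by
  ext w
  rw [rs_apply]
  by_cases hw : w ∈ A
  · rw [if_pos hw]
  · rw [if_neg hw]
    by_contra hne
    exact hw (h (Finsupp.mem_support_iff.2 (Ne.symm hne)))

/-! ### The Banach space -/

/-- The finitely supported functions with the seminorm. -/
def X0 : Type := V →₀ ℝ

noncomputable instance : AddCommGroup X0 := inferInstanceAs (AddCommGroup (V →₀ ℝ))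
noncomputable instance : Module ℝ X0 := inferInstanceAs (Module ℝ (V →₀ ℝ))

/-- The seminorm. -/
noncomputable def NmX : Seminorm ℝ X0 := Nm

noncomputable instance : SeminormedAddCommGroup X0 :=
  AddGroupSeminorm.toSeminormedAddCommGroup NmX.toAddGroupSeminorm

theorem norm_X0 (x : X0) : ‖x‖ = Nm x := rfl

noncomputable instance : NormedSpace ℝ X0 where
  norm_smul_le r x := by
    rw [norm_X0, norm_X0]
    exact (map_smul_eq_mul Nm r x).le

/-- The Banach space. -/
abbrev X : Type := UniformSpace.Completion X0

/-- The embedding. -/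
noncomputable def J : X0 →ₗᵢ[ℝ] X := UniformSpace.Completion.toComplₗᵢ

theorem J_norm (x : X0) : ‖J x‖ = Nm x := J.norm_map x

theorem J_dense : DenseRange J := UniformSpace.Completion.denseRange_coe

/-! ### The finite codimensional subspaces -/

/-- Evenness functionals indexed by vertices. -/
noncomputable def hv : (v : V) → Fin (K (comp v)) → ((V →₀ ℝ) →ₗ[ℝ] ℝ)
  | none, _ => 0
  | some g, i => hh g i

/-- The finitely many coordinates. -/
noncomputable def TT (A : Finset V) :
    X0 →ₗ[ℝ] ((↥A ⊕ (Σ v : ↥A, Fin (K (comp v.1)))) → ℝ) :=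
  LinearMap.pi (Sum.elim (fun w => (Finsupp.lapply w.1 : (V →₀ ℝ) →ₗ[ℝ] ℝ))
    (fun q => hv q.1.1 q.2))

theorem TT_mem {A : Finset V} {y : X0} (hy : y ∈ (TT A).ker) :
    rs A y = 0 ∧ ∀ (g : Node) (i : Fin (K g.1)), some g ∈ A → hh g i y = 0 := by
  rw [LinearMap.mem_ker] at hy
  constructor
  · ext w
    rw [rs_apply]
    by_cases h : w ∈ A
    · rw [if_pos h]
      have := congrFun hy (Sum.inl ⟨w, h⟩)
      exact this
    · rw [if_neg h]
      rfl
  · intro g i hg
    have := congrFun hy (Sum.inr ⟨⟨some g, hg⟩, i⟩)
    exact this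

/-- The subspace used by the player. -/
noncomputable def YY (A : Finset V) : Submodule ℝ X :=
  ((TT A).ker.map J.toLinearMap).topologicalClosure

theorem YY_closed (A : Finset V) : IsClosed (YY A : Set X) :=
  Submodule.isClosed_topologicalClosure _

theorem YY_fin (A : Finset V) : FiniteDimensional ℝ (X ⧸ YY A) := by
  haveI : IsClosed (YY A : Set X) := YY_closed A
  set L : X0 →ₗ[ℝ] X ⧸ YY A := (YY A).mkQ ∘ₗ J.toLinearMap with hL
  have hker : (TT A).ker ≤ L.ker := by
    intro y hy
    rw [LinearMap.mem_ker, hL, LinearMap.comp_apply, Submodule.mkQ_apply,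
      Submodule.Quotient.mk_eq_zero]
    exact Submodule.le_topologicalClosure _ (Submodule.mem_map_of_mem hy)
  have hfin : FiniteDimensional ℝ (X0 ⧸ (TT A).ker) :=
    LinearEquiv.finiteDimensional (TT A).quotKerEquivRange.symm
  have hrange : LinearMap.range ((TT A).ker.liftQ L hker) = LinearMap.range L :=
    Submodule.range_liftQ _ _ _
  have hfin2 : FiniteDimensional ℝ (LinearMap.range L) := by
    rw [← hrange]
    exact Module.Finite.range ((TT A).ker.liftQ L hker)
  have hclosed : IsClosed (LinearMap.range L : Set (X ⧸ YY A)) :=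
    Submodule.closed_of_finiteDimensional _
  have hdense : Dense (LinearMap.range L : Set (X ⧸ YY A)) := by
    have h1 : DenseRange ((YY A).mkQ ∘ J) :=
      (Submodule.mkQ_surjective _).denseRange.comp J_dense (by
        exact (YY A).mkQL.continuous)
    exact h1
  have htop : LinearMap.range L = ⊤ := by
    have h1 := hclosed.closure_eq
    rw [hdense.closure_eq] at h1
    exact SetLike.coe_injective (by rw [← h1]; rfl)
  exact Module.Finite.equiv (LinearEquiv.ofTop (LinearMap.range L) htop)

/-! ### The game -/

/-- The player can keep the norm above `M`. -/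
def Win (t M : ℝ) : ℕ → X → Prop
  | 0, z => M ≤ ‖z‖
  | k + 1, z => ∃ Y : Submodule ℝ X, IsClosed (Y : Set X) ∧ FiniteDimensional ℝ (X ⧸ Y) ∧
      ∀ y ∈ Y, ‖y‖ = 1 → Win t M k (z + t • y)

/-- Valid history of length `k`. -/
structure Hist (t₁ ε : ℝ) (k : ℕ) (A : ℕ → Finset V) (ξ : ℕ → V →₀ ℝ) : Prop where
  cl : ∀ i ≤ k, Cl (A i)
  mono : ∀ i < k, A i ⊆ A (i + 1)
  res : ∀ i < k, rs (A i) (ξ (i + 1)) = ξ i
  fin : rs (A k) (ξ k) = ξ k
  even : ∀ i < k, ∀ (g : Node) (i' : Fin (K g.1)), some g ∈ A i → hh g i' (ξ (i + 1) - ξ i) = 0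
  big : ∀ i < k, t₁ / 2 ≤ Nm (ξ (i + 1) - ξ i)
  init : 1 - ε ≤ Nm (ξ 0)

theorem game (t : ℝ) (ht : 0 < t) : ∃ (n : ℕ) (d : ℝ), 0 < d ∧ ∀ x : X, ‖x‖ = 1 →
    Win t (1 + d) n x := by
  set t₁ := min t 1 with ht₁
  have ht₁0 : 0 < t₁ := lt_min ht one_pos
  have ht₁1 : t₁ ≤ 1 := min_le_right _ _
  obtain ⟨n, hn⟩ := main_fin t₁ ht₁0 ht₁1
  set ε := (t₁ / 300) ^ 2 with hε
  have hε0 : 0 < ε := by positivity
  have hε1 : ε ≤ 1 / 90000 := by
    rw [hε]
    nlinarith
  set η := ε / (2 * ((n : ℝ) + 1) * (1 + t)) with hη
  have hn1 : (0 : ℝ) < (n : ℝ) + 1 := by positivity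
  have hη0 : 0 < η := by positivity
  have hηn : ((n : ℝ) + 1) * ((1 + t) * η) = ε / 2 := by
    rw [hη]
    field_simp
  have hηε : η ≤ ε := by
    rw [hη, div_le_iff₀ (by positivity)]
    have : (0 : ℝ) ≤ n := Nat.cast_nonneg n
    nlinarith [mul_nonneg this ht.le]
  refine ⟨n, ε / 2, by positivity, ?_⟩
  have main : ∀ m k : ℕ, k + m = n → ∀ (x : X) (A : ℕ → Finset V) (ξ : ℕ → V →₀ ℝ),
      Hist t₁ ε k A ξ → ‖x - J (ξ k)‖ ≤ ((k : ℝ) + 1) * ((1 + t) * η) →
      Win t (1 + ε / 2) m x := by
    intro m
    induction m with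
    | zero =>
      intro k hk x A ξ hH hx
      have hk' : k = n := by omega
      subst hk'
      show 1 + ε / 2 ≤ ‖x‖
      have h1 := hn A ξ hH.cl hH.mono hH.res hH.fin hH.even hH.big hH.init
      have h2 := J_norm (ξ k)
      have h3 : ‖J (ξ k)‖ ≤ ‖x‖ + ‖x - J (ξ k)‖ := by
        have := norm_sub_le x (x - J (ξ k))
        rwa [sub_sub_cancel] at this
      rw [hηn] at hx
      rw [h2] at h3
      linarith
    | succ m ih =>
      intro k hk x A ξ hH hx
      refine ⟨YY (A k), YY_closed _, YY_fin _, fun y hy hy1 => ?_⟩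
      obtain ⟨y', hy', hyy⟩ := Metric.mem_closure_iff.1 hy η hη0
      obtain ⟨yh₀, hyh, rfl⟩ := Submodule.mem_map.1 hy'
      obtain ⟨yh, hyh0⟩ : ∃ yh : V →₀ ℝ, yh = yh₀ := ⟨yh₀, rfl⟩
      subst hyh0
      have hyJ : ‖y - J yh‖ < η := by rwa [dist_eq_norm] at hyy
      obtain ⟨hrs0, hev0⟩ := TT_mem hyh
      set ξ' : V →₀ ℝ := ξ k + t • yh with hξ'
      obtain ⟨B, hB, hAB, hsB⟩ := exists_closed (hH.cl k le_rfl) ξ'.support
      have hnormyh : 1 - η ≤ Nm yh := by
        have h1 := norm_sub_norm_le y (J yh)
        rw [J_norm] at h1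
        linarith
      refine ih (k + 1) (by omega) (x + t • y) (Function.update A (k + 1) B)
        (Function.update ξ (k + 1) ξ') ⟨?_, ?_, ?_, ?_, ?_, ?_, ?_⟩ ?_
      · intro i hi
        rcases Nat.lt_or_ge i (k + 1) with h | h
        · rw [Function.update_of_ne (by omega)]
          exact hH.cl i (by omega)
        · rw [show i = k + 1 by omega, Function.update_self]
          exact hB
      · intro i hi
        rw [Function.update_of_ne (by omega)]
        rcases Nat.lt_or_ge i k with h | h
        · rw [Function.update_of_ne (by omega)]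
          exact hH.mono i h
        · rw [show i = k by omega, Function.update_self]
          exact hAB
      · intro i hi
        rw [Function.update_of_ne (show i ≠ k + 1 by omega),
          Function.update_of_ne (show i ≠ k + 1 by omega)]
        rcases Nat.lt_or_ge i k with h | h
        · rw [Function.update_of_ne (by omega)]
          exact hH.res i h
        · rw [show i = k by omega, Function.update_self, hξ', map_add, map_smul, hrs0, smul_zero,
            add_zero, hH.fin]
      · rw [Function.update_self, Function.update_self]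
        exact rs_of_support hsB
      · intro i hi g i' hg
        rw [Function.update_of_ne (show i ≠ k + 1 by omega)] at hg ⊢
        rcases Nat.lt_or_ge i k with h | h
        · rw [Function.update_of_ne (by omega)]
          exact hH.even i h g i' hg
        · have hik : i = k := by omega
          subst hik
          rw [Function.update_self, hξ', add_sub_cancel_left, map_smul, hev0 g i' hg, smul_zero]
      · intro i hi
        rw [Function.update_of_ne (show i ≠ k + 1 by omega)]
        rcases Nat.lt_or_ge i k with h | h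
        · rw [Function.update_of_ne (by omega)]
          exact hH.big i h
        · rw [show i = k by omega, Function.update_self, hξ', add_sub_cancel_left,
            map_smul_eq_mul, Real.norm_of_nonneg ht.le]
          have h1 : t₁ ≤ t := min_le_left _ _
          nlinarith
      · rw [Function.update_of_ne (by omega)]
        exact hH.init
      · rw [Function.update_self]
        have e1 : x + t • y - J ξ' = (x - J (ξ k)) + t • (y - J yh) := by
          have : J ξ' = J (ξ k) + t • J yh := by
            have h1 := J.map_add (ξ k) (t • (yh : X0))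
            have h2 := J.map_smul t (yh : X0)
            exact h1.trans (congrArg (fun z => J (ξ k) + z) h2)
          rw [this, smul_sub]
          abel
        rw [e1]
        refine (norm_add_le _ _).trans ?_
        rw [norm_smul, Real.norm_of_nonneg ht.le]
        push_cast
        nlinarith
  intro x hx
  obtain ⟨y', hy'⟩ := J_dense.exists_dist_lt x hη0
  rw [dist_eq_norm] at hy'
  obtain ⟨B, hB, -, hsB⟩ := exists_closed (hull_spec none).2 (Finsupp.support (M := ℝ) y')
  refine main n 0 (by omega) x (fun _ => B) (fun _ => y') ⟨fun _ _ => hB, ?_, ?_, ?_, ?_, ?_, ?_⟩ ?_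
  · intro i hi; omega
  · intro i hi; omega
  · exact rs_of_support hsB
  · intro i hi; omega
  · intro i hi; omega
  · have h1 := norm_sub_norm_le x (J y')
    rw [J_norm, hx] at h1
    linarith
  · refine hy'.le.trans ?_
    push_cast
    nlinarith

end Pool.Agent.Helper57.AUC
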