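import Pool.Agent.Helper57.AUC7

set_option autoImplicit false
set_option maxHeartbeats 1000000

namespace Pool.Agent.Helper57.AUC

open Classical Filter Topology

/-! ### Lower bounds for the norm -/

theorem one_le_Nm_of (φ : (V →₀ ℝ) →ₗ[ℝ] ℝ) (x : V →₀ ℝ) (hx : φ x = 1)
    (h1 : ∀ a, |φ (E a)| ≤ q1 a) (h2 : ∀ c, |φ c| ≤ S1 c + S2 c) : 1 ≤ Nm x := by
  refine le_of_forall_pos_le_add fun η hη => ?_
  obtain ⟨a, c, hac, h⟩ := Nm_rep x hη
  have h3 := h1 a
  have h4 := h2 c
  have h5 : φ x = φ (E a) + φ c := by rw [hac, map_add]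
  rw [hx] at h5
  have h6 := le_abs_self (φ (E a))
  have h7 := le_abs_self (φ c)
  linarith

theorem one_le_Nm_ev (u : V) : 1 ≤ Nm (ev u) := by
  refine one_le_Nm_of (Finsupp.lapply none) (ev u) ?_ (fun a => ?_) (fun c => ?_)
  · rw [Finsupp.lapply_apply, ev_apply, if_pos (none_mem_chain u)]
  · rw [Finsupp.lapply_apply, E_apply]
    refine (Finset.abs_sum_le_sum_abs _ _).trans (Finset.sum_le_sum fun u _ => ?_)
    rw [if_pos (none_mem_chain u)]
  · rw [Finsupp.lapply_apply]
    have h1 := T2_sq_le (Zl c) {none}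
    rw [Finset.sum_singleton] at h1
    have h2 : Lam none * ms (Zl c) none ≤ S2 c :=
      abs_le_of_sq_le_sq' h1 (apply_nonneg S2 c) |>.2
    have h3 : |c none| ≤ ms (Zl c) none := by
      rw [ms_eq (Zl c) none (s := insert none (Zl c).support) (Finset.subset_insert _ _)]
      refine le_trans ?_ (Finset.single_le_sum (f := fun w => if par w = none then |Zl c w| else 0)
        (fun w _ => by split_ifs <;> positivity) (Finset.mem_insert_self _ _))
      have h4 : par none = none := rfl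
      simp only [h4, if_true]
      rw [Zl_apply_top _ h4]
    have h4 : Lam none = 1 := rfl
    rw [h4, one_mul] at h2
    have h5 := apply_nonneg S1 c
    linarith

theorem Nm_ev_le (u : V) : Nm (ev u) ≤ 1 := by
  have h1 := Nm_le (Finsupp.single u 1) 0
  rw [E_single, one_smul, add_zero, q1_single, map_zero, map_zero, abs_one] at h1
  linarith

/-- The direction of the `j`-th group. -/
noncomputable def dd (g : Node) (j : ℕ) : V →₀ ℝ :=
  (1 / (K g.1 : ℝ)) • ∑ i : Fin (K g.1), Finsupp.single (ch g j i) 1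

theorem single_ch (g : Node) (j j' : ℕ) (i i' : Fin (K g.1)) :
    (Finsupp.single (ch g j i) (1 : ℝ) : V →₀ ℝ) (ch g j' i') = if j = j' ∧ i = i' then 1 else 0 := by
  rw [Finsupp.single_apply]
  by_cases h : j = j' ∧ i = i'
  · rw [if_pos h, if_pos (by rw [h.1, h.2])]
  · rw [if_neg h, if_neg fun hh => h (ch_inj hh)]

theorem ch_ne {g g' : Node} (h : g ≠ g') (j j' : ℕ) (i : Fin (K g.1)) (i' : Fin (K g'.1)) :
    ch g j i ≠ ch g' j' i' := by
  intro hh
  have := congrArg par hh
  rw [par_ch, par_ch] at this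
  exact h (Option.some.inj this)

theorem dd_ch (g : Node) (j j' : ℕ) (i' : Fin (K g.1)) :
    dd g j (ch g j' i') = if j = j' then 1 / (K g.1 : ℝ) else 0 := by
  rw [dd, Finsupp.smul_apply, Finsupp.finsetSum_apply]
  simp only [single_ch]
  by_cases h : j = j'
  · subst h
    simp
  · simp [h]

theorem dd_ne {g g' : Node} (h : g ≠ g') (j j' : ℕ) (i' : Fin (K g'.1)) :
    dd g j (ch g' j' i') = 0 := by
  rw [dd, Finsupp.smul_apply, Finsupp.finsetSum_apply]
  rw [Finset.sum_eq_zero, smul_zero]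
  intro i _
  rw [Finsupp.single_apply, if_neg (ch_ne h _ _ _ _)]

theorem dd_top (g : Node) (j : ℕ) {w : V} (hw : par w = none) : dd g j w = 0 := by
  rw [dd, Finsupp.smul_apply, Finsupp.finsetSum_apply]
  rw [Finset.sum_eq_zero, smul_zero]
  intro i _
  rw [Finsupp.single_apply, if_neg]
  intro hh
  rw [← hh, par_ch] at hw
  exact absurd hw (by simp)

theorem KR_ne (N : ℕ) : (K N : ℝ) ≠ 0 := by exact_mod_cast (K_pos N).ne'

theorem Bw_dd (g : Node) (j : ℕ) : Bw (dd g j) = Finsupp.single (g, j) (Lam (some g)) := by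
  ext ⟨g', j'⟩
  rw [Bw_apply, Finsupp.single_apply]
  by_cases h : g = g'
  · subst h
    simp only [dd_ch]
    by_cases hj : j = j'
    · subst hj
      simp only [if_true, Finset.sum_const, Finset.card_univ, Fintype.card_fin, nsmul_eq_mul]
      rw [mul_one_div_cancel (KR_ne _), mul_one]
    · simp [hj]
  · rw [if_neg fun hh => h (Prod.mk.inj hh).1]
    refine mul_eq_zero_of_right _ (Finset.sum_eq_zero fun i _ => dd_ne h _ _ _)

theorem Zl_dd (g : Node) (j : ℕ) : Zl (dd g j) = 0 := by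
  ext w
  rw [Finsupp.zero_apply]
  rcases hp : par w with _ | g'
  · rw [Zl_apply_top _ hp, dd_top g j hp]
  · obtain ⟨j', i', rfl⟩ := exists_ch hp
    rw [Zl_apply_ch]
    by_cases h : g = g'
    · subst h
      simp only [dd_ch]
      by_cases hj : j = j'
      · subst hj
        simp only [if_true, Finset.sum_const, Finset.card_univ, Fintype.card_fin, nsmul_eq_mul]
        rw [mul_one_div_cancel (KR_ne _), mul_one, sub_self]
      · simp [hj]
    · simp [dd_ne h]

theorem Nm_sum_dd (g : Node) (s : Finset ℕ) (r : ℕ → ℝ) :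
    Nm (∑ j ∈ s, r j • dd g j) ≤ Lam (some g) * Real.sqrt (∑ j ∈ s, r j ^ 2) := by
  have h1 := Nm_le 0 (∑ j ∈ s, r j • dd g j)
  rw [map_zero, zero_add] at h1
  have h0 : q1 (0 : V →₀ ℝ) = 0 := by simp [q1]
  have h2 : S2 (∑ j ∈ s, r j • dd g j) = 0 := by
    have : Zl (∑ j ∈ s, r j • dd g j) = 0 := by
      rw [map_sum]
      exact Finset.sum_eq_zero fun j _ => by rw [map_smul, Zl_dd, smul_zero]
    show T2 (Zl _) = 0
    rw [this, map_zero]
  have h3 : S1 (∑ j ∈ s, r j • dd g j) ≤ Lam (some g) * Real.sqrt (∑ j ∈ s, r j ^ 2) := by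
    have hs : 0 ≤ ∑ j ∈ s, r j ^ 2 := Finset.sum_nonneg fun _ _ => sq_nonneg _
    have hL := (Lam_pos (some g)).le
    refine abs_le_of_sq_le_sq' ?_ (mul_nonneg hL (Real.sqrt_nonneg _)) |>.2
    rw [S1_apply, mul_pow, Real.sq_sqrt hs, map_sum]
    have e1 : ∀ p : Node × ℕ, (∑ j ∈ s, Bw (r j • dd g j)) p =
        if p.1 = g ∧ p.2 ∈ s then r p.2 * Lam (some g) else 0 := by
      rintro ⟨g', j'⟩
      rw [Finsupp.finsetSum_apply]
      simp only [map_smul, Bw_dd, Finsupp.smul_apply, Finsupp.single_apply, smul_eq_mul]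
      by_cases h : g = g'
      · subst h
        have : ∀ j, (if (g, j) = (g, j') then Lam (some g) else 0) = if j = j' then Lam (some g)
            else 0 := by
          intro j
          by_cases hj : j = j'
          · rw [if_pos hj, if_pos (by rw [hj])]
          · rw [if_neg hj, if_neg fun hh => hj (Prod.mk.inj hh).2]
        simp only [this, mul_ite, mul_zero, true_and]
        rw [Finset.sum_ite_eq']
      · have : ∀ j, (if (g, j) = (g', j') then Lam (some g) else 0) = 0 := by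
          intro j
          rw [if_neg fun hh => h (Prod.mk.inj hh).1]
        simp only [this, mul_zero, Finset.sum_const_zero]
        rw [if_neg fun hh => h hh.1.symm]
    rw [q2_sq _ (s := s.image fun j => (g, j)) (fun p hp => ?_)]
    · rw [Finset.sum_image (fun _ _ _ _ h => (Prod.mk.inj h).2), Finset.mul_sum]
      refine Finset.sum_le_sum fun j hj => ?_
      rw [e1, if_pos ⟨rfl, hj⟩]
      exact le_of_eq (by ring)
    · rw [Finsupp.mem_support_iff, e1] at hp
      have h5 : p.1 = g ∧ p.2 ∈ s := by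
        by_contra h5
        rw [if_neg h5] at hp
        exact hp rfl
      exact Finset.mem_image.2 ⟨p.2, h5.2, Prod.ext h5.1.symm rfl⟩
  rw [h0, h2] at h1
  linarith

theorem one_le_Nm_dd {N : ℕ} {l : List (ℕ × Fin (K N))} (hl : l.length ≤ N) (j : ℕ) :
    1 ≤ Nm (dd ⟨N, l⟩ j) := by
  set g : Node := ⟨N, l⟩ with hg
  have hL : 1 ≤ Lam (some g) := one_le_Lam hl
  set φ : (V →₀ ℝ) →ₗ[ℝ] ℝ := ∑ i : Fin (K g.1), Finsupp.lapply (ch g j i) with hφ
  have hφa : ∀ x, φ x = ∑ i, x (ch g j i) := by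
    intro x
    rw [hφ, LinearMap.sum_apply]
    rfl
  refine one_le_Nm_of φ (dd g j) ?_ (fun a => ?_) (fun c => ?_)
  · rw [hφa]
    simp only [dd_ch, if_true]
    rw [Finset.sum_const, Finset.card_univ, Fintype.card_fin, nsmul_eq_mul,
      mul_one_div_cancel (KR_ne _)]
  · rw [hφa]
    simp only [E_apply]
    rw [Finset.sum_comm]
    refine (Finset.abs_sum_le_sum_abs _ _).trans (Finset.sum_le_sum fun u _ => ?_)
    by_cases h : ∃ i, ch g j i ∈ chain u
    · obtain ⟨i, hi⟩ := h
      rw [Finset.sum_eq_single i]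
      · rw [if_pos hi]
      · intro i' _ hne
        rw [if_neg]
        intro hi'
        have h1 := chain_unique u _ hi _ hi' rfl
        exact hne (ch_inj h1).2.symm
      · intro h; exact absurd (Finset.mem_univ i) h
    · rw [Finset.sum_eq_zero, abs_zero]
      · exact abs_nonneg _
      · intro i _
        rw [if_neg fun hi => h ⟨i, hi⟩]
  · rw [hφa]
    have h1 := Bw_apply c g j
    have h2 := abs_le_q2 (Bw c) (g, j)
    rw [h1, abs_mul, abs_of_pos (Lam_pos _)] at h2
    have h3 := apply_nonneg S2 c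
    have h4 : q2 (Bw c) = S1 c := rfl
    rw [h4] at h2
    nlinarith [abs_nonneg (∑ i, c (ch g j i))]

theorem ev_avg (g : Node) (j : ℕ) :
    ev (some g) + dd g j = (1 / (K g.1 : ℝ)) • ∑ i : Fin (K g.1), ev (ch g j i) := by
  have h1 : ∀ i : Fin (K g.1), ev (ch g j i) = Finsupp.single (ch g j i) 1 + ev (some g) := by
    intro i
    rw [ev_ne (by simp [ch]), par_ch]
  simp only [h1]
  rw [Finset.sum_add_distrib, Finset.sum_const, Finset.card_univ, Fintype.card_fin, smul_add, dd,
    ← Nat.cast_smul_eq_nsmul ℝ, smul_smul, one_div_mul_cancel (KR_ne _), one_smul, add_comm]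

/-! ### The directions are weakly null -/

theorem functional_null (g : Node) (F : X →L[ℝ] ℝ) :
    Tendsto (fun j => F (J (dd g j))) atTop (𝓝 0) := by
  set r : ℕ → ℝ := fun j => F (J (dd g j)) with hr
  have hL := (Lam_pos (some g)).le
  have hb : ∀ s : Finset ℕ, ∑ j ∈ s, r j ^ 2 ≤ (‖F‖ * Lam (some g)) ^ 2 := by
    intro s
    have h1 : F (J (∑ j ∈ s, r j • dd g j : V →₀ ℝ)) = ∑ j ∈ s, r j ^ 2 := by
      have e1 : J (∑ j ∈ s, r j • dd g j : V →₀ ℝ) = ∑ j ∈ s, r j • J (dd g j) := by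
        have e2 := map_sum J (fun j => r j • (dd g j : X0)) s
        refine e2.trans (Finset.sum_congr rfl fun j _ => ?_)
        exact J.map_smul (r j) (dd g j : X0)
      rw [e1, map_sum]
      exact Finset.sum_congr rfl fun j _ => by rw [map_smul, smul_eq_mul, sq]
    have h2 := F.le_opNorm (J (∑ j ∈ s, r j • dd g j : V →₀ ℝ))
    rw [h1, J_norm, Real.norm_eq_abs] at h2
    have h3 := Nm_sum_dd g s r
    set R := ∑ j ∈ s, r j ^ 2 with hR
    have hR0 : 0 ≤ R := Finset.sum_nonneg fun _ _ => sq_nonneg _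
    rw [abs_of_nonneg hR0] at h2
    have h4 : R ≤ ‖F‖ * Lam (some g) * Real.sqrt R := by
      refine h2.trans ?_
      rw [mul_assoc]
      exact mul_le_mul_of_nonneg_left h3 (norm_nonneg _)
    have h5 : Real.sqrt R ^ 2 = R := Real.sq_sqrt hR0
    have h6 : 0 ≤ Real.sqrt R := Real.sqrt_nonneg _
    have h7 : 0 ≤ ‖F‖ * Lam (some g) := mul_nonneg (norm_nonneg _) hL
    rcases h6.eq_or_lt with h8 | h8
    · have h9 : R = 0 := by rw [← h5, ← h8]; ring
      rw [h9]
      exact sq_nonneg _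
    · have h9 : Real.sqrt R ≤ ‖F‖ * Lam (some g) := by
        by_contra h9
        push Not at h9
        nlinarith
      nlinarith
  have hsum : Summable fun j => r j ^ 2 :=
    summable_of_sum_le (fun _ => sq_nonneg _) hb
  have h1 := hsum.tendsto_atTop_zero
  have h2 : Tendsto (fun j => |r j|) atTop (𝓝 0) := by
    have h3 := h1.sqrt
    simp only [Real.sqrt_sq_eq_abs, Real.sqrt_zero] at h3
    exact h3
  exact (tendsto_zero_iff_abs_tendsto_zero _).2 h2

theorem quotient_null (g : Node) (Y : Submodule ℝ X) (hY : IsClosed (Y : Set X))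
    (hfd : FiniteDimensional ℝ (X ⧸ Y)) {θ : ℝ} (hθ : 0 < θ) :
    ∃ j, ∃ y ∈ Y, ‖J (dd g j) - y‖ < θ := by
  have := hY
  set e := (Module.finBasis ℝ (X ⧸ Y)).equivFunL with he
  have h1 : Tendsto (fun j => e (Y.mkQL (J (dd g j)))) atTop (𝓝 0) := by
    rw [tendsto_pi_nhds]
    intro i
    exact functional_null g ((ContinuousLinearMap.proj (R := ℝ) (φ := fun _ => ℝ) i).comp
      ((e : (X ⧸ Y) →L[ℝ] _).comp Y.mkQL))
  have h2 : Tendsto (fun j => Y.mkQL (J (dd g j))) atTop (𝓝 0) := by
    have h3 := (e.symm.continuous.tendsto 0).comp h1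
    simp only [map_zero] at h3
    refine h3.congr fun j => ?_
    exact e.symm_apply_apply _
  rw [tendsto_zero_iff_norm_tendsto_zero] at h2
  obtain ⟨j, hj⟩ := (h2.eventually (gt_mem_nhds (half_pos hθ))).exists
  obtain ⟨m, hm, hmn⟩ := Submodule.Quotient.norm_mk_lt (Y.mkQL (J (dd g j))) (half_pos hθ)
  refine ⟨j, J (dd g j) - m, ?_, ?_⟩
  · rw [← Submodule.Quotient.mk_eq_zero, Submodule.Quotient.mk_sub, hm]
    exact sub_self _
  · rw [sub_sub_cancel]
    linarith

end Pool.Agent.Helper57.AUC
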