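import Pool.Agent.Helper57.AUC8

set_option autoImplicit false
set_option maxHeartbeats 1000000

namespace Pool.Agent.Helper57.AUC

open Classical Filter Topology

theorem conv (p : Seminorm ℝ X) (z y : X) (hz : 0 < p z) (hy : 0 < p y) {t d : ℝ} (ht : 0 < t)
    (hd : 0 < d) (hts : t * p z ≤ p y)
    (h : 1 + d ≤ p ((p z)⁻¹ • z + t • ((p y)⁻¹ • y))) : (1 + d) * p z ≤ p (z + y) := by
  set τ := t * p z / p y with hτ
  have hτ0 : 0 < τ := by positivity
  have hτ1 : τ ≤ 1 := (div_le_one hy).2 hts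
  have e1 : z + τ • y = (p z) • ((p z)⁻¹ • z + t • ((p y)⁻¹ • y)) := by
    rw [smul_add, smul_inv_smul₀ hz.ne', smul_smul, smul_smul]
    congr 2
    rw [hτ]
    field_simp
  have h1 : (1 + d) * p z ≤ p (z + τ • y) := by
    rw [e1, map_smul_eq_mul, Real.norm_of_nonneg hz.le, mul_comm]
    exact mul_le_mul_of_nonneg_left h hz.le
  have e2 : z + τ • y = (1 - τ) • z + τ • (z + y) := by
    rw [smul_add, sub_smul, one_smul]
    abel
  have h2 : p (z + τ • y) ≤ (1 - τ) * p z + τ * p (z + y) := by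
    rw [e2]
    refine (map_add_le_add p _ _).trans ?_
    rw [map_smul_eq_mul, map_smul_eq_mul, Real.norm_of_nonneg (by linarith),
      Real.norm_of_nonneg hτ0.le]
  by_contra hcon
  push Not at hcon
  have h5 : τ * p (z + y) < τ * ((1 + d) * p z) := mul_lt_mul_of_pos_left hcon hτ0
  have h6 : τ * (d * p z) ≤ 1 * (d * p z) :=
    mul_le_mul_of_nonneg_right hτ1 (by positivity)
  nlinarith

/-- The space has no equivalent norm whose first modulus is positive. -/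
theorem step (p : Seminorm ℝ X) {a b d : ℝ} (ha : 0 < a) (hb : 0 < b)
    (hab : ∀ x : X, a * ‖x‖ ≤ p x ∧ p x ≤ b * ‖x‖) (hd : 0 < d)
    (h : ∀ x : X, p x = 1 → ∃ Y : Submodule ℝ X, IsClosed (Y : Set X) ∧
      FiniteDimensional ℝ (X ⧸ Y) ∧ ∀ y ∈ Y, p y = 1 → 1 + d ≤ p (x + (a / (2 * b)) • y))
    {N : ℕ} {l : List (ℕ × Fin (K N))} (hl : l.length ≤ N) :
    ∃ (j : ℕ) (i : Fin (K N)), (1 + d / 2) * p (J (ev (some ⟨N, l⟩))) ≤
      p (J (ev (some ⟨N, (j, i) :: l⟩))) := by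
  set g : Node := ⟨N, l⟩ with hg
  set z : X := J (ev (some g)) with hz
  set q := p z with hq
  have hzn : ‖z‖ = Nm (ev (some g)) := J_norm _
  have hz1 := one_le_Nm_ev (some g)
  have hz2 := Nm_ev_le (some g)
  have hqa : a ≤ q := by
    have := (hab z).1
    rw [hzn] at this
    nlinarith
  have hqb : q ≤ b := by
    have := (hab z).2
    rw [hzn] at this
    nlinarith
  have hq0 : 0 < q := by linarith
  have hpx : p (q⁻¹ • z) = 1 := by
    rw [map_smul_eq_mul, Real.norm_of_nonneg (by positivity), ← hq, inv_mul_cancel₀ hq0.ne']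
  obtain ⟨Y, hYc, hYf, hY⟩ := h _ hpx
  obtain ⟨j, y, hyY, hy⟩ := quotient_null g Y hYc hYf (θ := min (1 / 2) (d * a / (2 * b)))
    (lt_min (by norm_num) (by positivity))
  have hy1 : ‖J (dd g j) - y‖ < 1 / 2 := hy.trans_le (min_le_left _ _)
  have hy2 : ‖J (dd g j) - y‖ < d * a / (2 * b) := hy.trans_le (min_le_right _ _)
  have hv1 : 1 ≤ ‖J (dd g j)‖ := by
    rw [J_norm]
    exact one_le_Nm_dd hl j
  have hyn : 1 / 2 ≤ ‖y‖ := by
    have := norm_sub_norm_le (J (dd g j)) y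
    linarith
  have hpy : a / 2 ≤ p y := by
    have := (hab y).1
    nlinarith
  have hpy0 : 0 < p y := by linarith
  have hts : a / (2 * b) * q ≤ p y := by
    refine le_trans ?_ hpy
    rw [div_mul_eq_mul_div, div_le_div_iff₀ (by positivity) (by norm_num)]
    nlinarith
  have hpy1 : p ((p y)⁻¹ • y) = 1 := by
    rw [map_smul_eq_mul, Real.norm_of_nonneg (by positivity), inv_mul_cancel₀ hpy0.ne']
  have h1 := hY _ (Y.smul_mem _ hyY) hpy1
  have h4 : (1 + d) * q ≤ p (z + y) := conv p z y hq0 hpy0 (by positivity) hd hts h1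
  have h5 : p (z + y) ≤ p (z + J (dd g j)) + p (J (dd g j) - y) := by
    have e : z + y = (z + J (dd g j)) - (J (dd g j) - y) := by abel
    rw [e]
    exact map_sub_le_add p _ _
  have h6 : p (J (dd g j) - y) ≤ d / 2 * a := by
    refine ((hab _).2).trans ?_
    have := mul_le_mul_of_nonneg_left hy2.le hb.le
    refine this.trans (le_of_eq ?_)
    field_simp
  have h7 : (1 + d / 2) * q ≤ p (z + J (dd g j)) := by nlinarith
  -- averages
  have hJ : z + J (dd g j) = (1 / (K N : ℝ)) • ∑ i : Fin (K N), J (ev (ch g j i)) := by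
    have e0 := ev_avg g j
    have e1 : J (ev (some g) + dd g j : V →₀ ℝ) = z + J (dd g j) :=
      J.map_add (ev (some g) : X0) (dd g j : X0)
    rw [← e1, e0]
    have e2 := J.map_smul (1 / (K N : ℝ)) (∑ i : Fin (K N), ev (ch g j i) : V →₀ ℝ)
    refine e2.trans ?_
    congr 1
    exact map_sum J (fun i => (ev (ch g j i) : X0)) Finset.univ
  have hK : (0 : ℝ) < K N := by exact_mod_cast K_pos N
  have h8 : p (z + J (dd g j)) ≤ (1 / (K N : ℝ)) * ∑ i : Fin (K N), p (J (ev (ch g j i))) := by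
    rw [hJ, map_smul_eq_mul, Real.norm_of_nonneg (by positivity)]
    exact mul_le_mul_of_nonneg_left
      (Finset.le_sum_of_subadditive p (map_zero p).le (map_add_le_add p) _ _) (by positivity)
  refine ⟨j, ?_⟩
  by_contra hcon
  push Not at hcon
  have h9 : ∑ i : Fin (K N), p (J (ev (ch g j i))) < ∑ _i : Fin (K N), (1 + d / 2) * q :=
    Finset.sum_lt_sum_of_nonempty ⟨⟨0, K_pos N⟩, Finset.mem_univ _⟩ fun i _ => hcon i
  rw [Finset.sum_const, Finset.card_univ, Fintype.card_fin, nsmul_eq_mul] at h9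
  have h10 := mul_lt_mul_of_pos_left h9 (one_div_pos.2 hK)
  rw [← mul_assoc, one_div_mul_cancel hK.ne', one_mul] at h10
  linarith

theorem not_auc (p : Seminorm ℝ X) {a b d : ℝ} (ha : 0 < a) (hb : 0 < b)
    (hab : ∀ x : X, a * ‖x‖ ≤ p x ∧ p x ≤ b * ‖x‖) (hd : 0 < d)
    (h : ∀ x : X, p x = 1 → ∃ Y : Submodule ℝ X, IsClosed (Y : Set X) ∧
      FiniteDimensional ℝ (X ⧸ Y) ∧ ∀ y ∈ Y, p y = 1 → 1 + d ≤ p (x + (a / (2 * b)) • y)) :
    False := by
  obtain ⟨N, hN⟩ := pow_unbounded_of_one_lt (b / a) (show (1 : ℝ) < 1 + d / 2 by linarith)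
  have key : ∀ m ≤ N, ∃ l : List (ℕ × Fin (K N)), l.length = m ∧
      (1 + d / 2) ^ m * a ≤ p (J (ev (some ⟨N, l⟩))) := by
    intro m
    induction m with
    | zero =>
      intro _
      refine ⟨[], rfl, ?_⟩
      have h1 := (hab (J (ev (some ⟨N, []⟩)))).1
      rw [J_norm] at h1
      have h2 := one_le_Nm_ev (some ⟨N, []⟩)
      rw [pow_zero, one_mul]
      nlinarith
    | succ m ih =>
      intro hm
      obtain ⟨l, hl, hlp⟩ := ih (by omega)
      obtain ⟨j, i, hji⟩ := step p ha hb hab hd h (N := N) (l := l) (by omega)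
      refine ⟨(j, i) :: l, by rw [List.length_cons, hl], le_trans ?_ hji⟩
      rw [pow_succ]
      have h2 : (0 : ℝ) < 1 + d / 2 := by linarith
      have := mul_le_mul_of_nonneg_left hlp h2.le
      linarith
  obtain ⟨l, -, hl⟩ := key N le_rfl
  have h1 := (hab (J (ev (some ⟨N, l⟩)))).2
  rw [J_norm] at h1
  have h2 := Nm_ev_le (some ⟨N, l⟩)
  rw [div_lt_iff₀ ha] at hN
  nlinarith

/-- The moduli. -/
noncomputable def dl (N : X → ℝ) : ℕ → ℝ → X → EReal
  | 0, _, z => ((N z - 1 : ℝ) : EReal)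
  | k + 1, t, z => ⨆ (Y : Submodule ℝ X) (_ : IsClosed (Y : Set X))
      (_ : FiniteDimensional ℝ (X ⧸ Y)), ⨅ (y : X) (_ : y ∈ Y) (_ : N y = 1), dl N k t (z + t • y)

theorem dl_of_win (t M : ℝ) : ∀ (k : ℕ) (z : X), Win t M k z →
    ((M - 1 : ℝ) : EReal) ≤ dl (fun v => ‖v‖) k t z := by
  intro k
  induction k with
  | zero =>
    intro z hz
    show ((M - 1 : ℝ) : EReal) ≤ ((‖z‖ - 1 : ℝ) : EReal)
    have hz' : M ≤ ‖z‖ := hz
    exact EReal.coe_le_coe_iff.2 (by linarith)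
  | succ k ih =>
    intro z hz
    obtain ⟨Y, h1, h2, h3⟩ := hz
    refine le_iSup_of_le Y (le_iSup_of_le h1 (le_iSup_of_le h2 ?_))
    refine le_iInf fun y => le_iInf fun hy => le_iInf fun hy1 => ?_
    exact ih _ (h3 y hy hy1)

theorem H_pos (t : ℝ) (ht : 0 < t) :
    ∃ n₀ : ℕ, 0 < ⨅ (x : X) (_ : ‖x‖ = 1), dl (fun v => ‖v‖) n₀ t x := by
  obtain ⟨n, d, hd, h⟩ := game t ht
  refine ⟨n, lt_of_lt_of_le (EReal.coe_pos.2 hd) (le_iInf fun x => le_iInf fun hx => ?_)⟩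
  have := dl_of_win t (1 + d) n x (h x hx)
  rwa [add_sub_cancel_left] at this

theorem one_of_dl (p : X → ℝ) (t : ℝ) (h : 0 < ⨅ (x : X) (_ : p x = 1), dl p 1 t x) :
    ∃ d : ℝ, 0 < d ∧ ∀ x : X, p x = 1 → ∃ Y : Submodule ℝ X, IsClosed (Y : Set X) ∧
      FiniteDimensional ℝ (X ⧸ Y) ∧ ∀ y ∈ Y, p y = 1 → 1 + d ≤ p (x + t • y) := by
  obtain ⟨d, hd0, hd⟩ := EReal.lt_iff_exists_real_btwn.1 h
  refine ⟨d, EReal.coe_pos.1 hd0, fun x hx => ?_⟩
  have h1 : (d : EReal) < dl p 1 t x := lt_of_lt_of_le hd (iInf₂_le x hx)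
  have h2 : (d : EReal) < ⨆ (Y : Submodule ℝ X) (_ : IsClosed (Y : Set X))
      (_ : FiniteDimensional ℝ (X ⧸ Y)), ⨅ (y : X) (_ : y ∈ Y) (_ : p y = 1),
      ((p (x + t • y) - 1 : ℝ) : EReal) := h1
  obtain ⟨Y, h3⟩ := lt_iSup_iff.1 h2
  obtain ⟨hc, h4⟩ := lt_iSup_iff.1 h3
  obtain ⟨hf, h5⟩ := lt_iSup_iff.1 h4
  refine ⟨Y, hc, hf, fun y hy hy1 => ?_⟩
  have h6 : (d : EReal) < ((p (x + t • y) - 1 : ℝ) : EReal) :=
    lt_of_lt_of_le h5 ((iInf_le _ y).trans ((iInf_le _ hy).trans (iInf_le _ hy1)))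
  have h7 := EReal.coe_lt_coe_iff.1 h6
  linarith

end Pool.Agent.Helper57.AUC
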