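import Pool.Agent.Helper57.NumIdx2

set_option autoImplicit false
set_option maxHeartbeats 1000000

namespace Pool.Agent.Helper57.NumIdx

/-- The set whose supremum is the numerical radius. -/
def radSet {X : Type} [NormedAddCommGroup X] [NormedSpace ℝ X] (T : X →L[ℝ] X) : Set ℝ :=
  {r : ℝ | ∃ x : X, ∃ f : X →L[ℝ] ℝ, ‖x‖ = 1 ∧ ‖f‖ = 1 ∧ f x = 1 ∧ r = ‖f (T x)‖}

section
variable {X : Type} [NormedAddCommGroup X] [NormedSpace ℝ X]

theorem radSet_nonneg (T : X →L[ℝ] X) : 0 ≤ sSup (radSet T) := by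
  apply Real.sSup_nonneg
  rintro r ⟨x, f, _, _, _, rfl⟩
  exact norm_nonneg _

theorem radSet_le {T : X →L[ℝ] X} {v : ℝ} (hv0 : 0 ≤ v) (hv : NR T v) : sSup (radSet T) ≤ v := by
  apply Real.sSup_le _ hv0
  rintro r ⟨x, f, hx, hf, hfx, rfl⟩
  exact hv x f hx hf hfx

theorem NR_radSet (T : X →L[ℝ] X) : NR T (sSup (radSet T)) := by
  intro x f hx hf hfx
  apply le_csSup
  · refine ⟨‖T‖, ?_⟩
    rintro r ⟨x, f, hx, hf, hfx, rfl⟩
    have h1 := f.le_opNorm (T x)
    have h2 := T.le_opNorm x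
    rw [hf, one_mul] at h1
    rw [hx, mul_one] at h2
    exact h1.trans h2
  · exact ⟨x, f, hx, hf, hfx, rfl⟩

theorem lower_of_iso (e : X ≃ₗᵢ[ℝ] XX) {T : X →L[ℝ] X} (hT : ‖T‖ = 1) {v : ℝ} (hv : NR T v) :
    3 / 5 ≤ v := by
  set T' : XX →L[ℝ] XX :=
    (e.toContinuousLinearEquiv : X →L[ℝ] XX).comp
      (T.comp (e.symm.toContinuousLinearEquiv : XX →L[ℝ] X)) with hT'
  have hT'a : ∀ z, T' z = e (T (e.symm z)) := fun z => rfl
  have h1 : ‖T'‖ = 1 := by
    apply le_antisymm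
    · apply ContinuousLinearMap.opNorm_le_bound _ zero_le_one
      intro z
      rw [hT'a, e.norm_map]
      have := T.le_opNorm (e.symm z)
      rwa [hT, e.symm.norm_map] at this
    · rw [← hT]
      apply ContinuousLinearMap.opNorm_le_bound _ (norm_nonneg _)
      intro x
      have := T'.le_opNorm (e x)
      rwa [hT'a, e.norm_map, e.norm_map, e.symm_apply_apply] at this
  apply XX_lower h1
  intro z f hz hf hfz
  have h2 := hv (e.symm z) (f.comp (e.toContinuousLinearEquiv : X →L[ℝ] XX))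
    (by rw [e.symm.norm_map, hz])
    (by
      have := ContinuousLinearMap.opNorm_comp_linearIsometryEquiv f e
      rw [← hf]
      exact this)
    (by
      change f (e (e.symm z)) = 1
      rw [e.apply_symm_apply, hfz])
  exact h2

end

end Pool.Agent.Helper57.NumIdx
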