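import Pool.Agent.Helper57.L1
import Pool.Agent.Helper57.NumIdx3

set_option autoImplicit false
set_option maxHeartbeats 1000000

namespace Pool.Agent.Helper57.Beta

open Filter Topology
open Pool.Agent.Helper57.L1
open Pool.Agent.Helper57.NumIdx (NR NR.neg normalize_norm normalize_NR)

/-- Property beta lower bound for numerical radii. -/
theorem beta_lower {X : Type} [NormedAddCommGroup X] [NormedSpace ℝ X] {ι : Type}
    (fn : ι → X →L[ℝ] ℝ) (v : ι → X) {ρ : ℝ} (hρ0 : 0 ≤ ρ) (hρ : ρ < 1)
    (h1 : ∀ i x, |fn i x| ≤ ‖x‖) (h2 : ∀ x (r : ℝ), 0 ≤ r → (∀ i, |fn i x| ≤ r) → ‖x‖ ≤ r)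
    (h3 : ∀ i, fn i (v i) = 1) (h4 : ∀ i j, i ≠ j → |fn j (v i)| ≤ ρ)
    {T : X →L[ℝ] X} (hT : ‖T‖ = 1) {w : ℝ} (hw : NR T w) : 1 - ρ ≤ w := by
  classical
  -- w is nonnegative
  have hfn : ∀ i, ‖fn i‖ = 1 := by
    intro i
    have hvi : ‖v i‖ ≤ 1 := by
      apply h2 _ _ zero_le_one
      intro j
      rcases eq_or_ne i j with rfl | hij
      · rw [h3, abs_one]
      · exact (h4 i j hij).trans hρ.le
    apply le_antisymm
    · apply ContinuousLinearMap.opNorm_le_bound _ zero_le_one
      intro x
      rw [one_mul]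
      exact h1 i x
    · have := (fn i).le_opNorm (v i)
      rw [h3, norm_one] at this
      nlinarith [norm_nonneg (fn i), norm_nonneg (v i)]
  have key : ∀ (i : ι) (y : X) (r : ℝ), 0 < r → ‖y‖ = r → fn i y = r → |fn i (T y)| ≤ w * r := by
    intro i y r hr hy hfy
    have a1 : ‖r⁻¹ • y‖ = 1 := by
      rw [norm_smul, norm_inv, Real.norm_of_nonneg hr.le, hy, inv_mul_cancel₀ hr.ne']
    have a2 : fn i (r⁻¹ • y) = 1 := by
      rw [map_smul, hfy, smul_eq_mul, inv_mul_cancel₀ hr.ne']
    have a3 := hw _ _ a1 (hfn i) a2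
    rw [map_smul, map_smul, norm_smul, norm_inv, Real.norm_of_nonneg hr.le,
      inv_mul_le_iff₀ hr, Real.norm_eq_abs] at a3
    linarith
  have key' : ∀ (i : ι) (y : X) (r : ℝ), 0 < r → ‖y‖ = r → fn i y = -r → |fn i (T y)| ≤ w * r := by
    intro i y r hr hy hfy
    have := key i (-y) r hr (by rw [norm_neg, hy]) (by rw [map_neg, hfy, neg_neg])
    rwa [map_neg, map_neg, abs_neg] at this
  have hρ1 : 0 < 1 - ρ := by linarith
  have main : ∀ (x : X), ‖x‖ ≤ 1 → ∀ i, |fn i (T x)| ≤ w / (1 - ρ) := by
    intro x hx i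
    set t := fn i x with ht
    have htx : |t| ≤ 1 := (h1 i x).trans hx
    have ht' := abs_le.1 htx
    set lp : ℝ := (1 - t) / (1 - ρ) with hlp
    set lm : ℝ := (1 + t) / (1 - ρ) with hlm
    have hlp0 : 0 ≤ lp := div_nonneg (by linarith) hρ1.le
    have hlm0 : 0 ≤ lm := div_nonneg (by linarith) hρ1.le
    have ep : t + lp = 1 + ρ * lp := by
      rw [hlp]; field_simp; ring
    have em : lm - t = 1 + ρ * lm := by
      rw [hlm]; field_simp; ring
    have np : ‖x + lp • v i‖ = 1 + ρ * lp := by
      apply le_antisymm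
      · apply h2 _ _ (by positivity)
        intro j
        rw [map_add, map_smul, smul_eq_mul]
        rcases eq_or_ne i j with rfl | hij
        · rw [h3, mul_one, ← ht, ep, abs_of_nonneg (by positivity)]
        · refine (abs_add_le _ _).trans ?_
          rw [abs_mul, abs_of_nonneg hlp0]
          have b1 := (h1 j x).trans hx
          have b2 := mul_le_mul_of_nonneg_left (h4 i j hij) hlp0
          linarith
      · have b3 := h1 i (x + lp • v i)
        rw [map_add, map_smul, smul_eq_mul, h3, mul_one, ← ht, ep,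
          abs_of_nonneg (by positivity)] at b3
        exact b3
    have nm : ‖x - lm • v i‖ = 1 + ρ * lm := by
      apply le_antisymm
      · apply h2 _ _ (by positivity)
        intro j
        rw [map_sub, map_smul, smul_eq_mul]
        rcases eq_or_ne i j with rfl | hij
        · rw [h3, mul_one, ← ht, abs_sub_comm, em, abs_of_nonneg (by positivity)]
        · refine (abs_sub _ _).trans ?_
          rw [abs_mul, abs_of_nonneg hlm0]
          have b1 := (h1 j x).trans hx
          have b2 := mul_le_mul_of_nonneg_left (h4 i j hij) hlm0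
          linarith
      · have b3 := h1 i (x - lm • v i)
        rw [map_sub, map_smul, smul_eq_mul, h3, mul_one, ← ht, abs_sub_comm, em,
          abs_of_nonneg (by positivity)] at b3
        exact b3
    have c1 := key i (x + lp • v i) (1 + ρ * lp) (by positivity) np (by
      rw [map_add, map_smul, smul_eq_mul, h3, mul_one, ← ht, ep])
    have c2 := key' i (x - lm • v i) (1 + ρ * lm) (by positivity) nm (by
      rw [map_sub, map_smul, smul_eq_mul, h3, mul_one, ← ht, ← em]; ring)
    have e1 : T x = ((1 + t) / 2) • T (x + lp • v i) + ((1 - t) / 2) • T (x - lm • v i) := by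
      rw [map_add, map_sub, map_smul, map_smul]
      have : (1 + t) / 2 * lp - (1 - t) / 2 * lm = 0 := by
        rw [hlp, hlm]; field_simp; ring
      have e2 : ((1 + t) / 2) • (T x + lp • T (v i)) + ((1 - t) / 2) • (T x - lm • T (v i))
          = T x + ((1 + t) / 2 * lp - (1 - t) / 2 * lm) • T (v i) := by
        module
      rw [e2, this, zero_smul, add_zero]
    rw [e1, map_add, map_smul, map_smul, smul_eq_mul, smul_eq_mul]
    refine (abs_add_le _ _).trans ?_
    rw [abs_mul, abs_mul, abs_of_nonneg (by linarith : 0 ≤ (1 + t) / 2),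
      abs_of_nonneg (by linarith : 0 ≤ (1 - t) / 2)]
    have c3 := mul_le_mul_of_nonneg_left c1 (by linarith : 0 ≤ (1 + t) / 2)
    have c4 := mul_le_mul_of_nonneg_left c2 (by linarith : 0 ≤ (1 - t) / 2)
    have hw0 : 0 ≤ w := by
      have := (abs_nonneg _).trans c1
      by_contra hneg
      push Not at hneg
      have : w * (1 + ρ * lp) < 0 := mul_neg_of_neg_of_pos hneg (by positivity)
      linarith
    have e3 : (1 + t) / 2 * (w * (1 + ρ * lp)) + (1 - t) / 2 * (w * (1 + ρ * lm))
        = w * (1 + ρ * (1 - t ^ 2) / (1 - ρ)) := by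
      rw [hlp, hlm]; field_simp; ring
    have e4 : 1 + ρ * (1 - t ^ 2) / (1 - ρ) ≤ 1 / (1 - ρ) := by
      rw [le_div_iff₀ hρ1, add_mul, div_mul_cancel₀ _ hρ1.ne']
      nlinarith [sq_nonneg t]
    have e5 := mul_le_mul_of_nonneg_left e4 hw0
    rw [mul_one_div] at e5
    linarith
  -- conclude
  have hw0' : 0 ≤ w / (1 - ρ) := by
    have := main 0 (by simp)
    by_contra hneg
    push Not at hneg
    -- there is at least one index because T is nonzero
    have hι : Nonempty ι := by
      by_contra hne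
      rw [not_nonempty_iff] at hne
      have : T = 0 := by
        ext x
        have : ‖T x‖ ≤ 0 := h2 _ 0 le_rfl (fun i => (hne.false i).elim)
        simpa using norm_le_zero_iff.1 this
      rw [this, norm_zero] at hT
      exact zero_ne_one hT
    obtain ⟨i⟩ := hι
    have := (abs_nonneg _).trans (this i)
    linarith
  have hTn : ‖T‖ ≤ w / (1 - ρ) := by
    apply ContinuousLinearMap.opNorm_le_bound _ hw0'
    intro x
    rcases eq_or_ne x 0 with rfl | hx
    · simp
    have hx' : 0 < ‖x‖ := norm_pos_iff.2 hx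
    apply h2 _ _ (by positivity)
    intro i
    have := main (‖x‖⁻¹ • x) (by
      rw [norm_smul, norm_inv, norm_norm, inv_mul_cancel₀ hx'.ne']) i
    rw [map_smul, map_smul, smul_eq_mul, abs_mul, abs_inv, abs_of_pos hx',
      inv_mul_le_iff₀ hx'] at this
    linarith
  rw [hT, le_div_iff₀ hρ1, one_mul] at hTn
  exact hTn

end Pool.Agent.Helper57.Beta
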