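import Pool.Agent.Helper57.Beta

set_option autoImplicit false
set_option maxHeartbeats 1000000

namespace Pool.Agent.Helper57.Beta

open Filter Topology
open Pool.Agent.Helper57.L1
open Pool.Agent.Helper57.NumIdx (NR NR.neg normalize_norm normalize_NR)

/-! ### The old norm and its norming functionals -/

/-- Shapes of functionals: type, length, set of minus signs. -/
abbrev Dat : Type := Fin 3 × ℕ × Finset ℕ

/-- Weight of the zeroth coordinate. -/
noncomputable def cv : Fin 3 → ℝ := ![1, 0, 2 / 3]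

/-- Weight of the other coordinates. -/
noncomputable def tv : Fin 3 → ℝ := ![0, 1, 2 / 3]

/-- Sign pattern. -/
noncomputable def sg (A : Finset ℕ) (j : ℕ) : ℝ := if j ∈ A then -1 else 1

theorem abs_sg (A : Finset ℕ) (j : ℕ) : |sg A j| = 1 := by
  unfold sg
  split_ifs <;> simp

/-- The functional with a given shape. -/
noncomputable def zF (d : Dat) : L →L[ℝ] ℝ :=
  (cv d.1 * sg d.2.2 0) • co 0 + ∑ j ∈ Finset.Ico 1 d.2.1, (tv d.1 * sg d.2.2 j) • co j

theorem zF_apply (d : Dat) (x : L) : zF d x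
    = cv d.1 * sg d.2.2 0 * x 0 + ∑ j ∈ Finset.Ico 1 d.2.1, tv d.1 * sg d.2.2 j * x j := by
  simp only [zF, _root_.add_apply, _root_.smul_apply, smul_eq_mul, co_apply]
  congr 1
  rw [_root_.sum_apply]
  apply Finset.sum_congr rfl
  intro j _
  rw [_root_.smul_apply, smul_eq_mul, co_apply]

/-- Mass off the zeroth coordinate. -/
noncomputable def ta (x : L) : ℝ := ‖x‖ - |x 0|

/-- The old norm. -/
noncomputable def q (x : L) : ℝ := max (max |x 0| (ta x)) (2 / 3 * (|x 0| + ta x))

theorem sum_Ico_le (x : L) (m : ℕ) : ∑ j ∈ Finset.Ico 1 m, |x j| ≤ ta x := by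
  have h1 := sum_le x (insert 0 (Finset.Ico 1 m))
  rw [Finset.sum_insert (by simp)] at h1
  unfold ta
  linarith

theorem ta_nonneg (x : L) : 0 ≤ ta x := by
  have := sum_Ico_le x 0
  simpa using this

theorem x0_le_q (x : L) : |x 0| ≤ q x := (le_max_left _ _).trans (le_max_left _ _)
theorem ta_le_q (x : L) : ta x ≤ q x := (le_max_right _ _).trans (le_max_left _ _)
theorem third_le_q (x : L) : 2 / 3 * (|x 0| + ta x) ≤ q x := le_max_right _ _

theorem q_nonneg (x : L) : 0 ≤ q x := (abs_nonneg _).trans (x0_le_q x)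

theorem q_le_norm (x : L) : q x ≤ ‖x‖ := by
  have h1 := ta_nonneg x
  have h2 : ta x = ‖x‖ - |x 0| := rfl
  have h3 := abs_nonneg (x 0)
  apply max_le (max_le _ _) _ <;> linarith

theorem norm_le_q (x : L) : 2 / 3 * ‖x‖ ≤ q x := by
  have h1 := third_le_q x
  have h2 : ta x = ‖x‖ - |x 0| := rfl
  have h3 : |x 0| + ta x = ‖x‖ := by rw [h2]; ring
  rwa [h3] at h1

theorem zF_le (d : Dat) (x : L) : |zF d x| ≤ q x := by
  rw [zF_apply]
  have h1 : |cv d.1 * sg d.2.2 0 * x 0| = |cv d.1| * |x 0| := by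
    rw [abs_mul, abs_mul, abs_sg, mul_one]
  have h2 : |∑ j ∈ Finset.Ico 1 d.2.1, tv d.1 * sg d.2.2 j * x j| ≤ |tv d.1| * ta x := by
    refine (Finset.abs_sum_le_sum_abs _ _).trans ?_
    have h3 : ∑ j ∈ Finset.Ico 1 d.2.1, |tv d.1 * sg d.2.2 j * x j|
        = |tv d.1| * ∑ j ∈ Finset.Ico 1 d.2.1, |x j| := by
      rw [Finset.mul_sum]
      apply Finset.sum_congr rfl
      intro j _
      rw [abs_mul, abs_mul, abs_sg, mul_one]
    rw [h3]
    exact mul_le_mul_of_nonneg_left (sum_Ico_le x _) (abs_nonneg _)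
  refine (abs_add_le _ _).trans ?_
  rw [h1]
  have hx0 := x0_le_q x
  have hta := ta_le_q x
  have hth := third_le_q x
  have hta0 := ta_nonneg x
  have habs := abs_nonneg (x 0)
  obtain ⟨k, m, A⟩ := d
  fin_cases k
  · simp [cv, tv] at h2 ⊢
    linarith
  · simp [cv, tv] at h2 ⊢
    linarith
  · simp [cv, tv] at h2 ⊢
    rw [abs_of_pos (by norm_num : (0:ℝ) < 2/3)] at h2 ⊢
    linarith

theorem exists_sign (x : L) (m : ℕ) : ∃ A : Finset ℕ, ∀ j ≤ m, sg A j * x j = |x j| := by
  classical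
  refine ⟨(Finset.range (m + 1)).filter (fun j => x j < 0), ?_⟩
  intro j hj
  unfold sg
  by_cases h : x j < 0
  · rw [if_pos (by simp only [Finset.mem_filter, Finset.mem_range]; exact ⟨by omega, h⟩),
      abs_of_neg h]
    ring
  · rw [if_neg (by simp only [Finset.mem_filter, Finset.mem_range]; exact fun h' => h h'.2),
      abs_of_nonneg (not_lt.1 h)]
    ring

theorem tail_sum (x : L) {δ : ℝ} (hδ : 0 < δ) :
    ∃ m : ℕ, ta x - δ < ∑ j ∈ Finset.Ico 1 m, |x j| := by
  have h1 : Tendsto (fun m => ∑ j ∈ Finset.range m, |x j|) atTop (𝓝 ‖x‖) := by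
    rw [norm_eq]
    exact (summ x).hasSum.tendsto_sum_nat
  have h2 := h1.eventually (lt_mem_nhds (by linarith : ‖x‖ - δ < ‖x‖))
  obtain ⟨m, hm, hm1⟩ := (h2.and (eventually_ge_atTop 1)).exists
  refine ⟨m, ?_⟩
  have h3 : ∑ j ∈ Finset.range m, |x j| = |x 0| + ∑ j ∈ Finset.Ico 1 m, |x j| := by
    rw [Finset.range_eq_Ico, Finset.sum_eq_sum_Ico_succ_bot (by omega)]
  rw [h3] at hm
  unfold ta
  linarith

theorem exists_zF (x : L) {δ : ℝ} (hδ : 0 < δ) : ∃ d : Dat, q x - δ < zF d x := by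
  obtain ⟨m, hm⟩ := tail_sum x hδ
  obtain ⟨A, hA⟩ := exists_sign x m
  have hval : ∀ k : Fin 3, zF (k, m, A) x
      = cv k * |x 0| + tv k * ∑ j ∈ Finset.Ico 1 m, |x j| := by
    intro k
    rw [zF_apply, Finset.mul_sum]
    congr 1
    · rw [mul_assoc, hA 0 (Nat.zero_le m)]
    · apply Finset.sum_congr rfl
      intro j hj
      rw [mul_assoc, hA j (Finset.mem_Ico.1 hj).2.le]
  have hcase : q x = |x 0| ∨ q x = ta x ∨ q x = 2 / 3 * (|x 0| + ta x) := by
    unfold q
    rcases max_choice (max |x 0| (ta x)) (2 / 3 * (|x 0| + ta x)) with h | h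
    · rw [h]
      rcases max_choice |x 0| (ta x) with h' | h'
      · left; exact h'
      · right; left; exact h'
    · right; right; exact h
  rcases hcase with h | h | h
  · refine ⟨(0, m, A), ?_⟩
    rw [hval, h]
    simp [cv, tv]
    exact hδ
  · refine ⟨(1, m, A), ?_⟩
    rw [hval, h]
    simp [cv, tv]
    linarith
  · refine ⟨(2, m, A), ?_⟩
    rw [hval, h]
    simp [cv, tv]
    linarith

/-- An enumeration of shapes hitting each shape infinitely often. -/
theorem exists_enum : ∃ g : ℕ → Dat × ℕ, Function.Surjective g := exists_surjective_nat _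

noncomputable def gg : ℕ → Dat × ℕ := exists_enum.choose

theorem gg_surj : Function.Surjective gg := exists_enum.choose_spec

theorem gg_freq (d : Dat) (N : ℕ) : ∃ i, N ≤ i ∧ (gg i).1 = d := by
  classical
  by_contra h
  push Not at h
  choose r hr using fun n : ℕ => gg_surj (d, n)
  have h1 : ∀ n, r n < N := by
    intro n
    by_contra hn
    exact h (r n) (not_lt.1 hn) (by rw [hr])
  have hinj : Function.Injective r := by
    intro a b hab
    have := hr a
    rw [hab, hr b] at this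
    simpa using this.symm
  have : Set.Infinite (Set.range r) := Set.infinite_range_of_injective hinj
  exact this ((Set.finite_Iio N).subset (by rintro _ ⟨n, rfl⟩; exact h1 n))

/-- The slow functional at stage `i`. -/
noncomputable def zz (i : ℕ) : L →L[ℝ] ℝ := if (gg i).1.2.1 ≤ i + 1 then zF (gg i).1 else 0

theorem zz_le (i : ℕ) (x : L) : |zz i x| ≤ q x := by
  unfold zz
  split_ifs
  · exact zF_le _ x
  · simpa using q_nonneg x

theorem zz_supp (i : ℕ) (x : L) (hx : ∀ j ≤ i, x j = 0) : zz i x = 0 := by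
  unfold zz
  split_ifs with h
  · rw [zF_apply, hx 0 (Nat.zero_le i), mul_zero, zero_add]
    apply Finset.sum_eq_zero
    intro j hj
    have := (Finset.mem_Ico.1 hj).2
    rw [hx j (by omega), mul_zero]
  · simp

/-- The norming functionals of the new norm. -/
noncomputable def fn (i : ℕ) : L →L[ℝ] ℝ := (4 : ℝ) • co (i + 1) + zz i

theorem fn_apply (i : ℕ) (x : L) : fn i x = 4 * x (i + 1) + zz i x := by
  simp [fn, co_apply]

theorem fn_le (i : ℕ) (x : L) : |fn i x| ≤ 5 * ‖x‖ := by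
  rw [fn_apply]
  refine (abs_add_le _ _).trans ?_
  rw [abs_mul, abs_of_pos (by norm_num : (0:ℝ) < 4)]
  have h1 := coord_le x (i + 1)
  have h2 := (zz_le i x).trans (q_le_norm x)
  linarith

theorem coord_tendsto (x : L) : Tendsto (fun n => x n) atTop (𝓝 0) := by
  have := (summ x).tendsto_atTop_zero
  exact (tendsto_zero_iff_abs_tendsto_zero _).2 this

theorem exists_fn (x : L) {δ : ℝ} (hδ : 0 < δ) : ∃ i, q x - δ < |fn i x| := by
  obtain ⟨d, hd⟩ := exists_zF x (by positivity : 0 < δ / 2)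
  have h1 : ∀ᶠ n in atTop, |x n| < δ / 8 := by
    have := (tendsto_zero_iff_abs_tendsto_zero _).1 (coord_tendsto x)
    exact this.eventually (gt_mem_nhds (by positivity))
  obtain ⟨N, hN⟩ := eventually_atTop.1 h1
  obtain ⟨i, hi, hgi⟩ := gg_freq d (max N d.2.1)
  refine ⟨i, ?_⟩
  have h2 : zz i x = zF d x := by
    unfold zz
    rw [hgi, if_pos]
    have := le_max_right N d.2.1
    omega
  have h3 := hN (i + 1) (by have := le_max_left N d.2.1; omega)
  have h4 := abs_lt.1 h3
  rw [fn_apply, h2]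
  refine lt_of_lt_of_le ?_ (le_abs_self _)
  linarith

/-! ### The new space -/

/-- The renormed sequence space. -/
def YY : Type := L

noncomputable instance : AddCommGroup YY := inferInstanceAs (AddCommGroup L)
noncomputable instance : Module ℝ YY := inferInstanceAs (Module ℝ L)

/-- The identity map. -/
noncomputable def toL : YY ≃ₗ[ℝ] L := LinearEquiv.refl ℝ L

noncomputable instance : Norm YY := ⟨fun z => ⨆ i : ℕ, |fn i (toL z)|⟩

theorem yy_norm_def (z : YY) : ‖z‖ = ⨆ i : ℕ, |fn i (toL z)| := rfl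

theorem yy_bdd (z : YY) : BddAbove (Set.range fun i : ℕ => |fn i (toL z)|) := by
  refine ⟨5 * ‖toL z‖, ?_⟩
  rintro r ⟨i, rfl⟩
  exact fn_le i _

theorem fn_le_yy (i : ℕ) (z : YY) : |fn i (toL z)| ≤ ‖z‖ := by
  rw [yy_norm_def]
  exact le_ciSup (yy_bdd z) i

theorem yy_le {z : YY} {r : ℝ} (h : ∀ i, |fn i (toL z)| ≤ r) : ‖z‖ ≤ r := by
  rw [yy_norm_def]
  exact ciSup_le h

theorem yy_le_norm (z : YY) : ‖z‖ ≤ 5 * ‖toL z‖ := yy_le (fun i => fn_le i _)

theorem q_le_yy (z : YY) : q (toL z) ≤ ‖z‖ := by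
  apply le_of_forall_pos_lt_add
  intro δ hδ
  obtain ⟨i, hi⟩ := exists_fn (toL z) hδ
  have := fn_le_yy i z
  linarith

theorem norm_le_yy (z : YY) : ‖toL z‖ ≤ 3 / 2 * ‖z‖ := by
  have h1 := norm_le_q (toL z)
  have h2 := q_le_yy z
  linarith

theorem yy_nonneg (z : YY) : 0 ≤ ‖z‖ := (abs_nonneg _).trans (fn_le_yy 0 z)

theorem yy_core : NormedSpace.Core ℝ YY where
  norm_nonneg z := yy_nonneg z
  norm_smul r z := by
    have h : ∀ (r : ℝ) (z : YY), ‖r • z‖ ≤ |r| * ‖z‖ := by
      intro r z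
      apply yy_le
      intro i
      rw [map_smul, map_smul, smul_eq_mul, abs_mul]
      exact mul_le_mul_of_nonneg_left (fn_le_yy i z) (abs_nonneg r)
    rw [Real.norm_eq_abs]
    apply le_antisymm (h r z)
    rcases eq_or_ne r 0 with hr | hr
    · rw [hr, abs_zero, zero_mul]
      exact yy_nonneg _
    · have h1 := h r⁻¹ (r • z)
      rw [smul_smul, inv_mul_cancel₀ hr, one_smul, abs_inv] at h1
      have h2 := mul_le_mul_of_nonneg_left h1 (abs_nonneg r)
      rw [← mul_assoc, mul_inv_cancel₀ (abs_ne_zero.2 hr), one_mul] at h2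
      exact h2
  norm_triangle z w := by
    apply yy_le
    intro i
    rw [map_add, map_add]
    exact (abs_add_le _ _).trans (add_le_add (fn_le_yy i z) (fn_le_yy i w))
  norm_eq_zero_iff z := by
    constructor
    · intro h
      have h1 := norm_le_yy z
      rw [h, mul_zero] at h1
      have h2 : toL z = 0 := norm_le_zero_iff.1 h1
      exact toL.map_eq_zero_iff.1 h2
    · rintro rfl
      apply le_antisymm
      · have := yy_le_norm 0
        simpa using this
      · exact yy_nonneg _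

noncomputable instance : NormedAddCommGroup YY := NormedAddCommGroup.ofCore yy_core

noncomputable instance : NormedSpace ℝ YY := NormedSpace.ofCore yy_core

theorem fn_le_yy' (i : ℕ) (z : YY) : |fn i (toL z)| ≤ ‖z‖ := fn_le_yy i z
theorem yy_le' {z : YY} {r : ℝ} (h : ∀ i, |fn i (toL z)| ≤ r) : ‖z‖ ≤ r := yy_le h
theorem yy_le_norm' (z : YY) : ‖z‖ ≤ 5 * ‖toL z‖ := yy_le_norm z
theorem q_le_yy' (z : YY) : q (toL z) ≤ ‖z‖ := q_le_yy z
theorem norm_le_yy' (z : YY) : ‖toL z‖ ≤ 3 / 2 * ‖z‖ := norm_le_yy z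

/-- The identity map as a continuous linear equivalence. -/
noncomputable def Id : L ≃L[ℝ] YY :=
  LinearEquiv.toContinuousLinearEquivOfBounds toL.symm 5 (3 / 2)
    (fun e => by
      have := yy_le_norm' (toL.symm e)
      rwa [LinearEquiv.apply_symm_apply] at this)
    (fun z => norm_le_yy' z)

theorem toL_Id (e : L) : toL (Id e) = e := rfl
theorem Id_toL (z : YY) : Id (toL z) = z := rfl
theorem Id_symm (z : YY) : Id.symm z = toL z := rfl

noncomputable instance : CompleteSpace YY :=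
  (completeSpace_congr (e := Id.toEquiv) Id.isUniformEmbedding).1 inferInstance

theorem yy_rnp (f : ℝ → YY) (K : NNReal) (hf : LipschitzWith K f) :
    ∀ᵐ t ∂(MeasureTheory.volume : MeasureTheory.Measure ℝ), DifferentiableAt ℝ f t := by
  have h1 : LipschitzWith _ (fun t => (Id.symm : YY →L[ℝ] L) (f t)) :=
    ((Id.symm : YY →L[ℝ] L).lipschitz).comp hf
  filter_upwards [ae_diff _ _ h1] with t ht
  have h2 : f = fun t => (Id : L →L[ℝ] YY) ((Id.symm : YY →L[ℝ] L) (f t)) := by
    funext t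
    simp
  rw [h2]
  exact ((Id : L →L[ℝ] YY).differentiableAt).comp t ht

end Pool.Agent.Helper57.Beta
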