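import Pool.Agent.Helper57.Beta2

set_option autoImplicit false
set_option maxHeartbeats 1000000

namespace Pool.Agent.Helper57.Beta

open Filter Topology
open Pool.Agent.Helper57.L1
open Pool.Agent.Helper57.NumIdx (NR NR.neg normalize_norm normalize_NR)

/-- The norming functionals on the new space. -/
noncomputable def Fn (i : ℕ) : YY →L[ℝ] ℝ := (fn i).comp (Id.symm : YY →L[ℝ] L)

theorem Fn_apply (i : ℕ) (z : YY) : Fn i z = fn i (toL z) := rfl

/-- Coordinate vectors. -/
noncomputable def ee (k : ℕ) : L := mk (fun n => if n = k then 1 else 0) (by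
  apply summable_of_ne_finset_zero (s := {k})
  intro n hn
  rw [if_neg (by simpa using hn), abs_zero])

theorem ee_apply (k n : ℕ) : ee k n = if n = k then 1 else 0 := rfl

theorem norm_ee (k : ℕ) : ‖ee k‖ = 1 := by
  rw [norm_eq]
  rw [tsum_eq_single k]
  · simp [ee_apply]
  · intro n hn
    simp [ee_apply, hn]

/-- Private vectors of the norming functionals. -/
noncomputable def vv (i : ℕ) : YY := Id ((1 / 4 : ℝ) • ee (i + 1))

theorem toL_vv (i : ℕ) : toL (vv i) = (1 / 4 : ℝ) • ee (i + 1) := rfl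

theorem Fn_vv (i : ℕ) : Fn i (vv i) = 1 := by
  rw [Fn_apply, toL_vv, map_smul, fn_apply, ee_apply, if_pos rfl, zz_supp i]
  · norm_num
  · intro j hj
    rw [ee_apply, if_neg (by omega)]

theorem Fn_vv' (i j : ℕ) (hij : i ≠ j) : |Fn j (vv i)| ≤ 1 / 4 := by
  rw [Fn_apply, toL_vv, map_smul, fn_apply, ee_apply, if_neg (by omega), mul_zero, zero_add,
    smul_eq_mul, abs_mul]
  have h := (zz_le j (ee (i + 1))).trans (q_le_norm _)
  rw [norm_ee] at h
  rw [abs_of_pos (by norm_num : (0:ℝ) < 1 / 4)]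
  linarith

theorem yy_lower {T : YY →L[ℝ] YY} (hT : ‖T‖ = 1) {w : ℝ} (hw : NR T w) : 3 / 4 ≤ w := by
  have := beta_lower Fn vv (by norm_num : (0:ℝ) ≤ 1 / 4) (by norm_num) (fun i x => fn_le_yy' i x)
    (fun x r _ h => yy_le' h) Fn_vv Fn_vv' hT hw
  linarith

/-! ### The bad functional on the dual -/

/-- Averages over far out blocks. -/
noncomputable def mm (n : ℕ) : L :=
  mk (fun k => if n + 1 ≤ k ∧ k < 2 * n + 2 then ((n : ℝ) + 1)⁻¹ else 0) (by
    apply summable_of_ne_finset_zero (s := Finset.Ico (n + 1) (2 * n + 2))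
    intro k hk
    rw [if_neg (by simpa using hk), abs_zero])

theorem mm_apply (n k : ℕ) :
    mm n k = if n + 1 ≤ k ∧ k < 2 * n + 2 then ((n : ℝ) + 1)⁻¹ else 0 := rfl

theorem mm_nonneg (n k : ℕ) : 0 ≤ mm n k := by
  rw [mm_apply]
  split_ifs
  · positivity
  · exact le_rfl

theorem mm_le (n k : ℕ) : mm n k ≤ ((n : ℝ) + 1)⁻¹ := by
  rw [mm_apply]
  split_ifs
  · exact le_rfl
  · positivity

theorem mm_zero (n : ℕ) {k : ℕ} (hk : k ≤ n) : mm n k = 0 := by
  rw [mm_apply, if_neg (by omega)]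

theorem mm_sum (n : ℕ) : ∑' k, mm n k = 1 := by
  rw [tsum_eq_sum (s := Finset.Ico (n + 1) (2 * n + 2))]
  · have h1 : ∀ k ∈ Finset.Ico (n + 1) (2 * n + 2), mm n k = ((n : ℝ) + 1)⁻¹ := by
      intro k hk
      rw [mm_apply, if_pos (by simpa using hk)]
    rw [Finset.sum_congr rfl h1, Finset.sum_const, Nat.card_Ico, nsmul_eq_mul]
    have h2 : ((2 * n + 2 - (n + 1) : ℕ) : ℝ) = (n : ℝ) + 1 := by
      have : 2 * n + 2 - (n + 1) = n + 1 := by omega
      rw [this]
      push_cast
      ring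
    rw [h2]
    field_simp
  · intro k hk
    rw [mm_apply, if_neg (by simpa using hk)]

theorem norm_mm (n : ℕ) : ‖mm n‖ = 1 := by
  rw [norm_eq, ← mm_sum n]
  apply tsum_congr
  intro k
  exact abs_of_nonneg (mm_nonneg n k)

theorem norm_Id_mm (n : ℕ) : ‖Id (mm n)‖ ≤ 5 := by
  have := yy_le_norm' (Id (mm n))
  rw [toL_Id, norm_mm] at this
  linarith

theorem exists_psi (y : YY →L[ℝ] ℝ) :
    ∃ l : ℝ, Tendsto (fun n => y (Id (mm n))) (hyperfilter ℕ : Filter ℕ) (𝓝 l) := by
  have hb : ∀ n, y (Id (mm n)) ∈ Set.Icc (-(‖y‖ * 5)) (‖y‖ * 5) := by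
    intro n
    have h1 := y.le_opNorm (Id (mm n))
    have h2 := mul_le_mul_of_nonneg_left (norm_Id_mm n) (norm_nonneg y)
    rw [Real.norm_eq_abs] at h1
    exact abs_le.1 (h1.trans h2)
  obtain ⟨l, _, hl⟩ := (isCompact_Icc (a := -(‖y‖ * 5)) (b := ‖y‖ * 5)).ultrafilter_le_nhds
    ((hyperfilter ℕ).map (fun n => y (Id (mm n)))) (by
      rw [Ultrafilter.coe_map, le_principal_iff, mem_map]
      exact Filter.univ_mem' hb)
  exact ⟨l, hl⟩

/-- The limit value. -/
noncomputable def ps (y : YY →L[ℝ] ℝ) : ℝ := (exists_psi y).choose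

theorem ps_spec (y : YY →L[ℝ] ℝ) :
    Tendsto (fun n => y (Id (mm n))) (hyperfilter ℕ : Filter ℕ) (𝓝 (ps y)) :=
  (exists_psi y).choose_spec

theorem ps_eq {y : YY →L[ℝ] ℝ} {l : ℝ}
    (h : Tendsto (fun n => y (Id (mm n))) (hyperfilter ℕ : Filter ℕ) (𝓝 l)) : ps y = l :=
  tendsto_nhds_unique (ps_spec y) h

theorem ps_bound (y : YY →L[ℝ] ℝ) : ‖ps y‖ ≤ 5 * ‖y‖ := by
  apply le_of_tendsto (ps_spec y).norm
  apply Eventually.of_forall
  intro n
  refine (y.le_opNorm _).trans ?_
  have := mul_le_mul_of_nonneg_left (norm_Id_mm n) (norm_nonneg y)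
  linarith

/-- The limit functional on the dual. -/
noncomputable def psi : (YY →L[ℝ] ℝ) →L[ℝ] ℝ :=
  LinearMap.mkContinuous
    { toFun := ps
      map_add' := by
        intro y z
        apply ps_eq
        exact (ps_spec y).add (ps_spec z)
      map_smul' := by
        intro c y
        apply ps_eq
        exact (ps_spec y).const_mul c } 5 ps_bound

theorem psi_apply (y : YY →L[ℝ] ℝ) : psi y = ps y := rfl

/-- The zeroth coordinate on the new space. -/
noncomputable def y0 : YY →L[ℝ] ℝ := (co 0).comp (Id.symm : YY →L[ℝ] L)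

theorem y0_apply (z : YY) : y0 z = (toL z) 0 := rfl

/-- The bad operator. -/
noncomputable def TT : (YY →L[ℝ] ℝ) →L[ℝ] (YY →L[ℝ] ℝ) := psi.smulRight y0

theorem TT_apply (y : YY →L[ℝ] ℝ) (z : YY) : TT y z = ps y * (toL z) 0 := rfl

/-- The key estimate. -/
theorem near (z : YY) (s : ℝ) (hs : |s| = |(toL z) 0|) {δ : ℝ} (hδ : 0 < δ) :
    ∀ᶠ n in atTop, ‖z + s • Id (mm n)‖ ≤ 5 / 3 * ‖z‖ + δ := by
  have h1 : ∀ᶠ n in atTop, |(toL z) n| < δ / 8 := by
    have := (tendsto_zero_iff_abs_tendsto_zero _).1 (coord_tendsto (toL z))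
    exact this.eventually (gt_mem_nhds (by positivity))
  obtain ⟨N, hN⟩ := eventually_atTop.1 h1
  have h2 : Tendsto (fun n : ℕ => |s| * ((n : ℝ) + 1)⁻¹) atTop (𝓝 0) := by
    have := (tendsto_one_div_add_atTop_nhds_zero_nat (𝕜 := ℝ)).const_mul |s|
    rw [mul_zero] at this
    refine this.congr ?_
    intro n
    rw [one_div]
  have h3 := h2.eventually (gt_mem_nhds (by positivity : 0 < δ / 8))
  filter_upwards [h3, eventually_ge_atTop N] with n hn hnN
  set x := toL z with hx
  have hz0 : 0 ≤ ‖z‖ := norm_nonneg z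
  apply yy_le'
  intro i
  have e1 : toL (z + s • Id (mm n)) = x + s • mm n := rfl
  rw [e1]
  rcases Nat.lt_or_ge i n with hi | hi
  · -- early functionals do not see the block
    have h4 : fn i (mm n) = 0 := by
      rw [fn_apply, mm_zero n (by omega), zz_supp i _ (fun j hj => mm_zero n (by omega))]
      ring
    rw [map_add, map_smul, h4, smul_zero, add_zero]
    have := fn_le_yy' i z
    linarith
  · rw [fn_apply]
    have h5 : |(x + s • mm n) (i + 1)| ≤ δ / 4 := by
      have e2 : (x + s • mm n) (i + 1) = x (i + 1) + s * mm n (i + 1) := by simp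
      rw [e2]
      refine (abs_add_le _ _).trans ?_
      have h6 := hN (i + 1) (by omega)
      have h7 : |s * mm n (i + 1)| ≤ |s| * ((n : ℝ) + 1)⁻¹ := by
        rw [abs_mul, abs_of_nonneg (mm_nonneg n _)]
        exact mul_le_mul_of_nonneg_left (mm_le n _) (abs_nonneg s)
      linarith
    have h8 : q (x + s • mm n) ≤ 5 / 3 * ‖z‖ := by
      have hq := q_le_yy' z
      have hx0 := x0_le_q x
      have hta := ta_le_q x
      have hth := third_le_q x
      have e3 : (x + s • mm n) 0 = x 0 := by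
        have : (x + s • mm n) 0 = x 0 + s * mm n 0 := by simp
        rw [this, mm_zero n (Nat.zero_le n), mul_zero, add_zero]
      have e4 : ta (x + s • mm n) ≤ ta x + |x 0| := by
        have : ‖x + s • mm n‖ ≤ ‖x‖ + |x 0| := by
          refine (norm_add_le _ _).trans ?_
          rw [norm_smul, norm_mm, mul_one, Real.norm_eq_abs, hs]
        unfold ta
        rw [e3]
        linarith
      have hta0 := ta_nonneg x
      have habs := abs_nonneg (x 0)
      unfold q
      rw [e3]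
      apply max_le (max_le _ _) _
      · linarith
      · linarith
      · linarith
    have h9 := zz_le i (x + s • mm n)
    refine (abs_add_le _ _).trans ?_
    rw [abs_mul, abs_of_pos (by norm_num : (0:ℝ) < 4)]
    linarith

theorem TT_aux (y : YY →L[ℝ] ℝ) (z : YY) (s : ℝ) (hs : |s| = |(toL z) 0|) :
    |y z + ps y * s| ≤ 5 / 3 * ‖y‖ * ‖z‖ := by
  have h1 : Tendsto (fun n => y (z + s • Id (mm n))) (hyperfilter ℕ : Filter ℕ)
      (𝓝 (y z + ps y * s)) := by
    have := (tendsto_const_nhds (x := y z)).add ((ps_spec y).mul_const s)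
    refine this.congr ?_
    intro n
    rw [map_add, map_smul, smul_eq_mul, mul_comm s]
  apply le_of_forall_pos_le_add
  intro δ hδ
  have hδ' : 0 < δ / (‖y‖ + 1) := by positivity
  apply le_of_tendsto h1.abs
  have h2 := (near z s hs hδ').filter_mono (Nat.hyperfilter_le_atTop)
  filter_upwards [h2] with n hn
  have h3 := y.le_opNorm (z + s • Id (mm n))
  have h4 := mul_le_mul_of_nonneg_left hn (norm_nonneg y)
  have h5 : ‖y‖ * (δ / (‖y‖ + 1)) ≤ δ := by
    rw [mul_div_assoc', div_le_iff₀ (by positivity)]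
    nlinarith [norm_nonneg y]
  rw [Real.norm_eq_abs] at h3
  nlinarith

theorem TT_add (y : YY →L[ℝ] ℝ) : ‖y + TT y‖ ≤ 5 / 3 * ‖y‖ := by
  apply ContinuousLinearMap.opNorm_le_bound _ (by positivity)
  intro z
  rw [_root_.add_apply, TT_apply, Real.norm_eq_abs]
  exact TT_aux y z _ rfl

theorem TT_sub (y : YY →L[ℝ] ℝ) : ‖y - TT y‖ ≤ 5 / 3 * ‖y‖ := by
  apply ContinuousLinearMap.opNorm_le_bound _ (by positivity)
  intro z
  rw [_root_.sub_apply, TT_apply, Real.norm_eq_abs, sub_eq_add_neg, ← mul_neg]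
  exact TT_aux y z _ (abs_neg _)

/-- Sum of the coordinates off zero. -/
noncomputable def sumL : L →L[ℝ] ℝ :=
  LinearMap.mkContinuous
    { toFun := fun x => ∑' n, x n
      map_add' := by
        intro x y
        have hx : Summable fun n => x n := (summ x).of_abs
        have hy : Summable fun n => y n := (summ y).of_abs
        rw [← hx.tsum_add hy]
        apply tsum_congr
        intro n
        simp
      map_smul' := by
        intro c x
        simp only [RingHom.id_apply, smul_eq_mul]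
        rw [← tsum_mul_left]
        apply tsum_congr
        intro n
        simp } 1 (by
      intro x
      rw [one_mul, norm_eq]
      exact norm_tsum_le_tsum_norm (summ x))

theorem sumL_apply (x : L) : sumL x = ∑' n, x n := rfl

/-- The test functional. -/
noncomputable def y1 : YY →L[ℝ] ℝ := (sumL - co 0).comp (Id.symm : YY →L[ℝ] L)

theorem y1_apply (z : YY) : y1 z = (∑' n, (toL z) n) - (toL z) 0 := rfl

theorem y1_le : ‖y1‖ ≤ 1 := by
  apply ContinuousLinearMap.opNorm_le_bound _ zero_le_one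
  intro z
  rw [one_mul, y1_apply]
  set x := toL z with hx
  have h1 : Summable fun n => |x n| := summ x
  have h2 : Summable fun n => x n := h1.of_abs
  have h3 : (∑' n, x n) - x 0 = ∑' n, x (n + 1) := by
    rw [h2.tsum_eq_zero_add]
    ring
  have h4 : ‖x‖ = |x 0| + ∑' n, |x (n + 1)| := by
    rw [norm_eq, h1.tsum_eq_zero_add]
  rw [h3]
  have h5 : Summable fun n => |x (n + 1)| := (summable_nat_add_iff 1).2 h1
  have h6 : ‖∑' n, x (n + 1)‖ ≤ ∑' n, |x (n + 1)| := norm_tsum_le_tsum_norm h5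
  have h7 : ∑' n, |x (n + 1)| = ta x := by
    unfold ta
    linarith
  rw [h7] at h6
  exact h6.trans ((ta_le_q x).trans (q_le_yy' z))

theorem ps_y1 : ps y1 = 1 := by
  apply ps_eq
  have h : ∀ n, y1 (Id (mm n)) = 1 := by
    intro n
    rw [y1_apply, toL_Id, mm_sum, mm_zero n (Nat.zero_le n), sub_zero]
  simp only [h]
  exact tendsto_const_nhds

theorem norm_e0 : ‖Id (ee 0)‖ ≤ 1 := by
  apply yy_le'
  intro i
  rw [toL_Id, fn_apply, ee_apply, if_neg (by omega), mul_zero, zero_add]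
  have h := (zz_le i (ee 0)).trans (q_le_norm _)
  rwa [norm_ee] at h

theorem one_le_TT : 1 ≤ ‖TT‖ := by
  have h1 : TT y1 (Id (ee 0)) = 1 := by
    rw [TT_apply, ps_y1, toL_Id, ee_apply, if_pos rfl, mul_one]
  have h2 := (TT y1).le_opNorm (Id (ee 0))
  have h3 := TT.le_opNorm y1
  rw [h1, norm_one] at h2
  have h4 := norm_e0
  have h5 := y1_le
  have h6 : ‖TT y1‖ ≤ ‖TT‖ := by nlinarith [norm_nonneg TT, norm_nonneg y1]
  nlinarith [norm_nonneg (TT y1), norm_nonneg (Id (ee 0))]

theorem TT_NR : NR TT (2 / 3) := by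
  intro y φ hy hφ hφy
  have d1 := φ.le_opNorm (y + TT y)
  have d2 := φ.le_opNorm (y - TT y)
  have d3 := TT_add y
  have d4 := TT_sub y
  rw [hφ, one_mul, map_add, hφy, Real.norm_eq_abs] at d1
  rw [hφ, one_mul, map_sub, hφy, Real.norm_eq_abs] at d2
  rw [hy, mul_one] at d3 d4
  have d5 := (le_abs_self _).trans (d1.trans d3)
  have d6 := (le_abs_self _).trans (d2.trans d4)
  rw [Real.norm_eq_abs, abs_le]
  constructor <;> linarith

theorem yy_upper : ∃ T₁ : (YY →L[ℝ] ℝ) →L[ℝ] (YY →L[ℝ] ℝ), ‖T₁‖ = 1 ∧ NR T₁ (2 / 3) := by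
  have hpos : 0 < ‖TT‖ := lt_of_lt_of_le zero_lt_one one_le_TT
  refine ⟨‖TT‖⁻¹ • TT, normalize_norm TT hpos, ?_⟩
  intro y φ hy hφ hφy
  refine (normalize_NR TT hpos TT_NR y φ hy hφ hφy).trans ?_
  rw [inv_mul_le_iff₀ hpos]
  have := one_le_TT
  linarith

theorem yy_nontrivial : Nontrivial YY := by
  have h : ee 0 ≠ 0 := by
    intro h
    have := norm_ee 0
    rw [h, norm_zero] at this
    norm_num at this
  exact ⟨⟨Id (ee 0), 0, fun h' => h (Id.map_eq_zero_iff.1 h')⟩⟩

end Pool.Agent.Helper57.Beta
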