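import Mathlib

set_option autoImplicit false
set_option maxHeartbeats 1000000

namespace Pool.Agent.Helper57.Comp

open Filter Topology Metric

variable {Y : Type} [NormedAddCommGroup Y] [NormedSpace ℝ Y]

/-- the double dual -/
def DD (Y : Type) [NormedAddCommGroup Y] [NormedSpace ℝ Y] : Type :=
  StrongDual ℝ (StrongDual ℝ Y)

noncomputable instance : NormedAddCommGroup (DD Y) :=
  inferInstanceAs (NormedAddCommGroup (StrongDual ℝ (StrongDual ℝ Y)))

noncomputable instance : NormedSpace ℝ (DD Y) :=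
  inferInstanceAs (NormedSpace ℝ (StrongDual ℝ (StrongDual ℝ Y)))

/-- evaluation of an element of the double dual at a functional -/
noncomputable def ev (φ : StrongDual ℝ Y) : DD Y →ₗ[ℝ] ℝ where
  toFun ξ := (show StrongDual ℝ (StrongDual ℝ Y) from ξ) φ
  map_add' _ _ := rfl
  map_smul' _ _ := rfl

/-- canonical embedding into the double dual -/
noncomputable def JJ : Y →ₗᵢ[ℝ] DD Y := NormedSpace.inclusionInDoubleDualLi ℝ (E := Y)

theorem ev_JJ (y : Y) (φ : StrongDual ℝ Y) : ev φ (JJ y) = φ y := rfl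

theorem norm_JJ (y : Y) : ‖JJ y‖ = ‖y‖ := JJ.norm_map y

theorem abs_ev_le (φ : StrongDual ℝ Y) (ξ : DD Y) : |ev φ ξ| ≤ ‖ξ‖ * ‖φ‖ := by
  have := ContinuousLinearMap.le_opNorm (show StrongDual ℝ (StrongDual ℝ Y) from ξ) φ
  exact this

theorem exists_ev (ξ : DD Y) (ε : ℝ) (hε : 0 < ε) :
    ∃ φ : StrongDual ℝ Y, ‖φ‖ ≤ 1 ∧ ‖ξ‖ - ε ≤ ev φ ξ := by
  obtain ⟨x, hx, hx2⟩ := ContinuousLinearMap.exists_lt_apply_of_lt_opNorm
    (show StrongDual ℝ (StrongDual ℝ Y) from ξ) (r := ‖ξ‖ - ε)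
    (show ‖ξ‖ - ε < ‖ξ‖ by linarith)
  have hx3 : ‖ξ‖ - ε < |ev x ξ| := hx2
  rcases le_total 0 (ev x ξ) with h0 | h0
  · rw [abs_of_nonneg h0] at hx3
    exact ⟨x, hx.le, hx3.le⟩
  · rw [abs_of_nonpos h0] at hx3
    refine ⟨-x, by rw [norm_neg]; exact hx.le, ?_⟩
    have : ev (-x) ξ = - ev x ξ :=
      map_neg (show StrongDual ℝ (StrongDual ℝ Y) from ξ) x
    rw [this]
    exact hx3.le

/-- `ξ` is in the weak-star closure of the set `C`. -/
def WClos (C : Set Y) (ξ : DD Y) : Prop :=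
  ∀ (s : Finset (StrongDual ℝ Y)) (ε : ℝ), 0 < ε → ∃ h ∈ C, ∀ φ ∈ s, |φ h - ev φ ξ| < ε

/-- a bounded sequence has a weak-star cluster point in the double dual -/
theorem exists_cluster (y : ℕ → Y) (M : ℝ) (hM : ∀ n, ‖y n‖ ≤ M) :
    ∃ ξ : DD Y, ‖ξ‖ ≤ M ∧ ∀ m : ℕ, WClos (y '' {n | m ≤ n}) ξ := by
  have hcomp : IsCompact (WeakDual.toStrongDual ⁻¹'
      closedBall (0 : StrongDual ℝ (StrongDual ℝ Y)) M) :=
    WeakDual.isCompact_closedBall (𝕜 := ℝ) (E := StrongDual ℝ Y) 0 M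
  set J' : Y → StrongDual ℝ (StrongDual ℝ Y) := fun y => NormedSpace.inclusionInDoubleDual ℝ Y y
    with hJ'
  have hmem : ∀ n, StrongDual.toWeakDual (J' (y n)) ∈
      (WeakDual.toStrongDual ⁻¹' closedBall (0 : StrongDual ℝ (StrongDual ℝ Y)) M) := by
    intro n
    have h1 : dist (J' (y n)) (0 : StrongDual ℝ (StrongDual ℝ Y)) ≤ M := by
      have h2 := dist_zero_right (J' (y n))
      refine h2.trans_le ?_
      have h3 := norm_JJ (y n)
      exact h3.trans_le (hM n)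
    exact h1
  obtain ⟨ξ, hξ, hcl⟩ := hcomp.exists_mapClusterPt (f := (atTop : Filter ℕ))
    (u := fun n => StrongDual.toWeakDual (J' (y n)))
    (Filter.le_principal_iff.mpr (Filter.mem_map.mpr (Filter.Eventually.of_forall hmem)))
  have hξ' : dist (WeakDual.toStrongDual ξ : StrongDual ℝ (StrongDual ℝ Y)) 0 ≤ M := hξ
  have hξ2 := dist_zero_right (WeakDual.toStrongDual ξ : StrongDual ℝ (StrongDual ℝ Y))
  refine ⟨WeakDual.toStrongDual ξ, hξ2.symm.trans_le hξ', ?_⟩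
  intro m s ε hε
  have hopen : IsOpen {η : WeakDual ℝ (StrongDual ℝ Y) | ∀ φ ∈ s, |η φ - ξ φ| < ε} := by
    have : {η : WeakDual ℝ (StrongDual ℝ Y) | ∀ φ ∈ s, |η φ - ξ φ| < ε} =
        ⋂ φ ∈ s, {η : WeakDual ℝ (StrongDual ℝ Y) | |η φ - ξ φ| < ε} := by
      ext η; simp
    rw [this]
    refine isOpen_biInter_finset fun φ _ => ?_
    exact isOpen_lt (((WeakDual.eval_continuous φ).sub continuous_const).abs) continuous_const
  have hnhds : {η : WeakDual ℝ (StrongDual ℝ Y) | ∀ φ ∈ s, |η φ - ξ φ| < ε} ∈ 𝓝 ξ :=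
    hopen.mem_nhds (by intro φ _; simpa using hε)
  have hfr := (mapClusterPt_iff_frequently.mp hcl) _ hnhds
  obtain ⟨n, hn, hn2⟩ := (frequently_atTop.mp hfr) m
  exact ⟨y n, ⟨n, hn, rfl⟩, fun φ hφ => hn2 φ hφ⟩

theorem WClos.mono {C D : Set Y} {ξ : DD Y} (h : WClos C ξ) (hCD : C ⊆ D) : WClos D ξ := by
  intro s ε hε
  obtain ⟨x, hx, h2⟩ := h s ε hε
  exact ⟨x, hCD hx, h2⟩

/-- The convexity lemma (local reflexivity for convex sets). -/
theorem exists_near {ι κ : Type} [Fintype ι] [Fintype κ]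
    (a : κ → Y) (b : κ → ι → ℝ) (C : ι → Set Y) (hC : ∀ i, Convex ℝ (C i))
    (ξ : ι → DD Y) (hξ : ∀ i, WClos (C i) (ξ i))
    (s0 : Finset (StrongDual ℝ Y)) (ε0 : ℝ) (hε0 : 0 < ε0) (ε : ℝ) (hε : 0 < ε) :
    ∃ h : ι → Y, (∀ i, h i ∈ C i) ∧ (∀ i, ∀ φ ∈ s0, |φ (h i) - ev φ (ξ i)| ≤ ε0) ∧
      ∀ l, ‖a l + ∑ i, b l i • h i‖ < ‖JJ (a l) + ∑ i, b l i • ξ i‖ + ε := by
  classical
  set ρ : κ → ℝ := fun l => ‖JJ (a l) + ∑ i, b l i • ξ i‖ + ε with hρ
  have hρpos : ∀ l, 0 < ρ l := fun l => by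
    have := norm_nonneg (JJ (a l) + ∑ i, b l i • ξ i)
    simp only [hρ]; linarith
  set D : Set (ι → Y) := {h | (∀ i, h i ∈ C i) ∧ (∀ i, ∀ φ ∈ s0, |φ (h i) - ev φ (ξ i)| ≤ ε0)} with hD
  have hDconv : Convex ℝ D := by
    intro h hh h' hh' α β hα hβ hαβ
    refine ⟨fun i => hC i (hh.1 i) (hh'.1 i) hα hβ hαβ, fun i φ hφ => ?_⟩
    have h1 := hh.2 i φ hφ
    have h2 := hh'.2 i φ hφ
    have e : φ ((α • h + β • h') i) - ev φ (ξ i) = α * (φ (h i) - ev φ (ξ i)) + β * (φ (h' i) - ev φ (ξ i)) := by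
      simp only [Pi.add_apply, Pi.smul_apply, map_add, map_smul, smul_eq_mul]
      have : ev φ (ξ i) = (α + β) * ev φ (ξ i) := by rw [hαβ, one_mul]
      linear_combination (-1 : ℝ) * this
    rw [e]
    calc |α * (φ (h i) - ev φ (ξ i)) + β * (φ (h' i) - ev φ (ξ i))|
        ≤ |α * (φ (h i) - ev φ (ξ i))| + |β * (φ (h' i) - ev φ (ξ i))| := abs_add_le _ _
      _ = α * |φ (h i) - ev φ (ξ i)| + β * |φ (h' i) - ev φ (ξ i)| := by
          rw [abs_mul, abs_mul, abs_of_nonneg hα, abs_of_nonneg hβ]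
      _ ≤ α * ε0 + β * ε0 := by gcongr
      _ = ε0 := by rw [← add_mul, hαβ, one_mul]
  set F : (ι → Y) → (κ → Y) := fun h l => a l + ∑ i, b l i • h i with hF
  have hAconv : Convex ℝ (F '' D) := by
    rintro _ ⟨h, hh, rfl⟩ _ ⟨h', hh', rfl⟩ α β hα hβ hαβ
    refine ⟨α • h + β • h', hDconv hh hh' hα hβ hαβ, ?_⟩
    funext l
    simp only [hF, Pi.add_apply, Pi.smul_apply, smul_add]
    have e1 : ∑ i, (b l i • α • h i + b l i • β • h' i) =
        α • ∑ i, b l i • h i + β • ∑ i, b l i • h' i := by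
      rw [Finset.sum_add_distrib, Finset.smul_sum, Finset.smul_sum]
      congr 1 <;> exact Finset.sum_congr rfl fun i _ => smul_comm _ _ _
    rw [e1]
    have e2 : a l = α • a l + β • a l := by rw [← add_smul, hαβ, one_smul]
    nth_rewrite 1 [e2]
    abel
  set O : Set (κ → Y) := Set.univ.pi fun l => ball (0 : Y) (ρ l) with hO
  have hOopen : IsOpen O := isOpen_set_pi Set.finite_univ fun l _ => isOpen_ball
  have hOconv : Convex ℝ O := convex_pi fun l _ => convex_ball _ _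
  by_contra hcon
  have hdisj : Disjoint O (F '' D) := by
    rw [Set.disjoint_left]
    rintro _ hy ⟨h, hh, rfl⟩
    refine hcon ⟨h, hh.1, hh.2, fun l => ?_⟩
    have := hy l (Set.mem_univ l)
    simpa [hF] using this
  obtain ⟨Φ, u, hΦ1, hΦ2⟩ := geometric_hahn_banach_open hOconv hOopen hAconv hdisj
  set Φl : κ → StrongDual ℝ Y := fun l => Φ.comp (ContinuousLinearMap.single ℝ (fun _ : κ => Y) l)
    with hΦl
  have hsum : ∀ y : κ → Y, Φ y = ∑ l, Φl l (y l) := by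
    intro y
    have : y = ∑ l, Pi.single l (y l) := (Finset.univ_sum_single y).symm
    nth_rewrite 1 [this]
    rw [map_sum]
    rfl
  -- lower bound for u
  have hlow : ∑ l, ρ l * ‖Φl l‖ ≤ u := by
    refine le_of_forall_pos_le_add fun η hη => ?_
    have : ∀ l, ∃ y : Y, ‖y‖ < ρ l ∧ ρ l * ‖Φl l‖ - η / (Fintype.card κ + 1) ≤ Φl l y := by
      intro l
      set η' := η / (Fintype.card κ + 1) with hη'
      have hη'pos : 0 < η' := by positivity
      obtain ⟨x, hx, hx2⟩ := (Φl l).exists_lt_apply_of_lt_opNorm (r := ‖Φl l‖ - η' / ρ l)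
        (by have := div_pos hη'pos (hρpos l); linarith)
      rcases le_total 0 (Φl l x) with h0 | h0
      · refine ⟨ρ l • x, ?_, ?_⟩
        · rw [norm_smul, Real.norm_eq_abs, abs_of_pos (hρpos l)]
          nlinarith [hρpos l]
        · rw [map_smul, smul_eq_mul]
          rw [Real.norm_eq_abs, abs_of_nonneg h0] at hx2
          have h3 : ρ l * (‖Φl l‖ - η' / ρ l) ≤ ρ l * Φl l x :=
            mul_le_mul_of_nonneg_left hx2.le (hρpos l).le
          have h4 : ρ l * (η' / ρ l) = η' := by field_simp [(hρpos l).ne']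
          linarith [mul_sub (ρ l) (‖Φl l‖) (η' / ρ l)]
      · refine ⟨ρ l • (-x), ?_, ?_⟩
        · rw [norm_smul, Real.norm_eq_abs, abs_of_pos (hρpos l), norm_neg]
          nlinarith [hρpos l]
        · rw [map_smul, smul_eq_mul, map_neg]
          rw [Real.norm_eq_abs, abs_of_nonpos h0] at hx2
          have h3 : ρ l * (‖Φl l‖ - η' / ρ l) ≤ ρ l * (-Φl l x) :=
            mul_le_mul_of_nonneg_left hx2.le (hρpos l).le
          have h4 : ρ l * (η' / ρ l) = η' := by field_simp [(hρpos l).ne']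
          linarith [mul_sub (ρ l) (‖Φl l‖) (η' / ρ l)]
    choose y hy1 hy2 using this
    have h1 : Φ y < u := hΦ1 y (fun l _ => by simpa using hy1 l)
    rw [hsum] at h1
    have h2 : ∑ l, (ρ l * ‖Φl l‖ - η / (Fintype.card κ + 1)) ≤ ∑ l, Φl l (y l) :=
      Finset.sum_le_sum fun l _ => hy2 l
    rw [Finset.sum_sub_distrib, Finset.sum_const, Finset.card_univ, nsmul_eq_mul] at h2
    have h3 : (Fintype.card κ : ℝ) * (η / (Fintype.card κ + 1)) ≤ η := by
      rw [mul_div_assoc', div_le_iff₀ (by positivity)]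
      nlinarith [(Nat.cast_nonneg (Fintype.card κ) : (0:ℝ) ≤ _)]
    linarith
  -- upper bound for u
  have hup : u ≤ ∑ l, (ρ l - ε) * ‖Φl l‖ := by
    refine le_of_forall_pos_le_add fun η hη => ?_
    set B : ℝ := ∑ l, ∑ i, |b l i| with hB
    have hB0 : 0 ≤ B := Finset.sum_nonneg fun l _ => Finset.sum_nonneg fun i _ => abs_nonneg _
    set ε' : ℝ := min ε0 (η / (B + 1)) with hε'
    have hε'pos : 0 < ε' := lt_min hε0 (by positivity)
    have hch : ∀ i, ∃ h ∈ C i, ∀ φ ∈ s0 ∪ Finset.univ.image Φl, |φ h - ev φ (ξ i)| < ε' :=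
      fun i => hξ i _ _ hε'pos
    choose h hh1 hh2 using hch
    have hhD : h ∈ D := ⟨hh1, fun i φ hφ =>
      ((hh2 i φ (Finset.mem_union_left _ hφ)).le).trans (min_le_left _ _)⟩
    have h1 : u ≤ Φ (F h) := hΦ2 _ ⟨h, hhD, rfl⟩
    rw [hsum] at h1
    have h2 : ∀ l, Φl l (F h l) ≤ (ρ l - ε) * ‖Φl l‖ + (∑ i, |b l i|) * ε' := by
      intro l
      have e1 : Φl l (F h l) = Φl l (a l) + ∑ i, b l i * Φl l (h i) := by
        simp only [hF, map_add, map_sum, map_smul, smul_eq_mul]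
      have e2 : ev (Φl l) (JJ (a l) + ∑ i, b l i • ξ i) =
          Φl l (a l) + ∑ i, b l i * ev (Φl l) (ξ i) := by
        rw [map_add, map_sum, ev_JJ]
        simp only [map_smul, smul_eq_mul]
      have h3 : ev (Φl l) (JJ (a l) + ∑ i, b l i • ξ i) ≤ (ρ l - ε) * ‖Φl l‖ := by
        have : ρ l - ε = ‖JJ (a l) + ∑ i, b l i • ξ i‖ := by simp [hρ]
        rw [this]
        exact (le_abs_self _).trans (abs_ev_le (Φl l) (JJ (a l) + ∑ i, b l i • ξ i))
      have h4 : ∑ i, b l i * Φl l (h i) - ∑ i, b l i * ev (Φl l) (ξ i) ≤ (∑ i, |b l i|) * ε' := by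
        rw [← Finset.sum_sub_distrib, Finset.sum_mul]
        refine Finset.sum_le_sum fun i _ => ?_
        rw [← mul_sub]
        refine (le_abs_self _).trans ?_
        rw [abs_mul]
        exact mul_le_mul_of_nonneg_left (hh2 i (Φl l) (Finset.mem_union_right _
          (Finset.mem_image_of_mem _ (Finset.mem_univ l)))).le (abs_nonneg _)
      rw [e1]
      linarith [e2]
    have h5 : ∑ l, Φl l (F h l) ≤ ∑ l, ((ρ l - ε) * ‖Φl l‖ + (∑ i, |b l i|) * ε') :=
      Finset.sum_le_sum fun l _ => h2 l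
    rw [Finset.sum_add_distrib, ← Finset.sum_mul] at h5
    have h6 : B * ε' ≤ η := by
      have : ε' ≤ η / (B + 1) := min_le_right _ _
      calc B * ε' ≤ B * (η / (B + 1)) := mul_le_mul_of_nonneg_left this hB0
        _ ≤ η := by
          rw [mul_div_assoc', div_le_iff₀ (by positivity)]
          nlinarith
    linarith
  have hzero : ∑ l, ε * ‖Φl l‖ ≤ 0 := by
    have : ∑ l, ε * ‖Φl l‖ = ∑ l, ρ l * ‖Φl l‖ - ∑ l, (ρ l - ε) * ‖Φl l‖ := by
      rw [← Finset.sum_sub_distrib]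
      exact Finset.sum_congr rfl fun l _ => by ring
    linarith
  have hz : ∀ l, Φl l = 0 := by
    intro l
    have h1 : ε * ‖Φl l‖ ≤ ∑ l, ε * ‖Φl l‖ :=
      Finset.single_le_sum (f := fun l => ε * ‖Φl l‖)
        (fun l _ => mul_nonneg hε.le (norm_nonneg _)) (Finset.mem_univ l)
    have h2 : ‖Φl l‖ ≤ 0 := by
      by_contra hh
      push Not at hh
      nlinarith
    exact norm_le_zero_iff.mp h2
  have h0 : Φ 0 < u := hΦ1 0 (fun l _ => by simpa using hρpos l)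
  rw [map_zero] at h0
  have h1 : u ≤ 0 := by
    refine hup.trans (le_of_eq ?_)
    exact Finset.sum_eq_zero fun l _ => by rw [hz l, norm_zero, mul_zero]
  linarith

end Pool.Agent.Helper57.Comp
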