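import Mathlib
import Pool.Agent.Helper57.Comp1

set_option autoImplicit false
set_option maxHeartbeats 1000000

namespace Pool.Agent.Helper57.Comp

open Filter Topology Metric

variable {Y : Type} [NormedAddCommGroup Y] [NormedSpace ℝ Y]

theorem norm_comb_sub_le {Z ι : Type} [Fintype ι] [SeminormedAddCommGroup Z] [NormedSpace ℝ Z]
    (v : ι → Z) (L : ι → ℝ) (hL : ∀ i, ‖v i‖ ≤ L i) (c c' : ι → ℝ) :
    ‖∑ i, c i • v i‖ ≤ ‖∑ i, c' i • v i‖ + dist c c' * ∑ i, L i := by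
  have e : ∑ i, c i • v i = ∑ i, c' i • v i + ∑ i, (c i - c' i) • v i := by
    rw [← Finset.sum_add_distrib]
    refine Finset.sum_congr rfl fun i _ => ?_
    rw [← add_smul]
    congr 1
    ring
  rw [e]
  refine (norm_add_le _ _).trans ?_
  have h1 : ‖∑ i, (c i - c' i) • v i‖ ≤ ∑ i, dist c c' * L i := by
    refine (norm_sum_le _ _).trans (Finset.sum_le_sum fun i _ => ?_)
    rw [norm_smul]
    refine mul_le_mul ?_ (hL i) (norm_nonneg _) dist_nonneg
    rw [Real.norm_eq_abs, ← Real.dist_eq]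
    exact dist_le_pi_dist c c' i
  rw [← Finset.mul_sum] at h1
  linarith

theorem DD_add (x y : DD Y) : ‖x + y‖ ≤ ‖x‖ + ‖y‖ := norm_add_le x y

theorem DD_smul (a : ℝ) (x : DD Y) : ‖a • x‖ = |a| * ‖x‖ := by
  rw [norm_smul, Real.norm_eq_abs]

theorem JJ_sum {ι : Type} (s : Finset ι) (f : ι → Y) : JJ (∑ i ∈ s, f i) = ∑ i ∈ s, JJ (f i) :=
  map_sum JJ f s

theorem isCompact_l1 (ι : Type) [Fintype ι] : IsCompact {c : ι → ℝ | ∑ i, |c i| ≤ 1} := by
  refine Metric.isCompact_of_isClosed_isBounded ?_ ?_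
  · exact isClosed_le (continuous_finsetSum _ fun i _ => (continuous_apply i).abs)
      continuous_const
  · refine (Metric.isBounded_iff_subset_closedBall 0).mpr ⟨1, fun c hc => ?_⟩
    rw [mem_closedBall, dist_pi_le_iff zero_le_one]
    intro i
    rw [Pi.zero_apply, Real.dist_eq, sub_zero]
    exact (Finset.single_le_sum (f := fun i => |c i|) (fun i _ => abs_nonneg _)
      (Finset.mem_univ i)).trans hc

theorem exists_uniform {ι : Type} [Fintype ι]
    (G : ι → Y) (C : ι → Set Y) (hC : ∀ i, Convex ℝ (C i))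
    (ξ : ι → DD Y) (hξ : ∀ i, WClos (C i) (ξ i)) (M : ℝ) (hM : ∀ i, ∀ h ∈ C i, ‖h‖ ≤ M)
    (hξM : ∀ i, ‖ξ i‖ ≤ M) (hM0 : 0 ≤ M)
    (β θ : ℝ) (hβ : 0 ≤ β) (hθ : 0 ≤ θ) (ε : ℝ) (hε : 0 < ε) :
    ∃ h : ι → Y, (∀ i, h i ∈ C i) ∧ ∀ c : ι → ℝ, ∑ i, |c i| ≤ 1 →
      ‖∑ i, c i • (G i + β • h i)‖ ≤ ‖∑ i, c i • (JJ (G i) + β • ξ i)‖ + ε ∧
      ‖∑ i, c i • (JJ (G i) + (β + θ) • ξ i)‖ ≤
        ‖∑ i, c i • (JJ (G i + β • h i) + θ • ξ i)‖ + ε := by
  classical
  set L : ι → ℝ := fun i => ‖G i‖ + (β + θ) * M with hL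
  have hL0 : ∀ i, 0 ≤ L i := fun i => by
    have := norm_nonneg (G i)
    simp only [hL]
    have h2 : 0 ≤ (β + θ) * M := mul_nonneg (by linarith) hM0
    linarith
  set LL : ℝ := ∑ i, L i with hLL
  have hLL0 : 0 ≤ LL := Finset.sum_nonneg fun i _ => hL0 i
  set δ : ℝ := ε / (4 * (LL + 1)) with hδ
  have hδpos : 0 < δ := by positivity
  have hδL : δ * LL ≤ ε / 4 := by
    rw [hδ, div_mul_eq_mul_div, div_le_iff₀ (by positivity)]
    nlinarith
  obtain ⟨t, htS, htf, hcov⟩ := (isCompact_l1 ι).finite_cover_balls hδpos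
  set_option linter.unusedVariables false in
  have hfin : Fintype t := htf.fintype
  set η : t → DD Y := fun l => ∑ i, l.1 i • (JJ (G i) + (β + θ) • ξ i) with hη
  have hφex : ∀ l : t, ∃ φ : StrongDual ℝ Y, ‖φ‖ ≤ 1 ∧ ‖η l‖ - ε / 4 ≤ ev φ (η l) := by
    intro l
    exact exists_ev (η l) (ε / 4) (by linarith)
  choose φ hφ1 hφ2 using hφex
  set ε0 : ℝ := ε / (4 * (β + 1)) with hε0
  have hε0pos : 0 < ε0 := by positivity
  have hβε0 : β * ε0 ≤ ε / 4 := by
    rw [hε0, mul_div_assoc', div_le_iff₀ (by positivity)]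
    nlinarith
  obtain ⟨h, hh1, hh2, hh3⟩ := exists_near (κ := t)
    (fun l => ∑ i, l.1 i • G i) (fun l i => l.1 i * β) C hC ξ hξ
    (Finset.univ.image φ) ε0 hε0pos (ε / 4) (by linarith)
  refine ⟨h, hh1, fun c hc => ?_⟩
  obtain ⟨l, hl⟩ : ∃ l : t, dist c l.1 < δ := by
    have := hcov hc
    simp only [Set.mem_iUnion, mem_ball, exists_prop] at this
    obtain ⟨l, hl, hl2⟩ := this
    exact ⟨⟨l, hl⟩, hl2⟩
  have hdl : dist c l.1 * LL ≤ ε / 4 :=
    (mul_le_mul_of_nonneg_right hl.le hLL0).trans hδL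
  have hdl' : dist l.1 c * LL ≤ ε / 4 := by rw [dist_comm]; exact hdl
  have hlS : ∑ i, |l.1 i| ≤ 1 := htS l.2
  have hβθM : β * M ≤ (β + θ) * M := by nlinarith
  have hnJ : ∀ y : Y, ‖JJ y‖ = ‖y‖ := norm_JJ
  have n1 : ∀ i, ‖G i + β • h i‖ ≤ L i := fun i => by
    refine (norm_add_le _ _).trans ?_
    rw [norm_smul, Real.norm_eq_abs, abs_of_nonneg hβ]
    have : β * ‖h i‖ ≤ β * M := mul_le_mul_of_nonneg_left (hM i _ (hh1 i)) hβ
    simp only [hL]; linarith
  have n2 : ∀ i, ‖JJ (G i) + β • ξ i‖ ≤ L i := fun i => by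
    refine (DD_add _ _).trans ?_
    have e1 : ‖β • ξ i‖ = β * ‖ξ i‖ := by rw [DD_smul, abs_of_nonneg hβ]
    rw [e1, hnJ]
    have : β * ‖ξ i‖ ≤ β * M := mul_le_mul_of_nonneg_left (hξM i) hβ
    simp only [hL]; linarith
  have n3 : ∀ i, ‖JJ (G i) + (β + θ) • ξ i‖ ≤ L i := fun i => by
    refine (DD_add _ _).trans ?_
    have e1 : ‖(β + θ) • ξ i‖ = (β + θ) * ‖ξ i‖ := by
      rw [DD_smul, abs_of_nonneg (by linarith)]
    rw [e1, hnJ]
    have : (β + θ) * ‖ξ i‖ ≤ (β + θ) * M := mul_le_mul_of_nonneg_left (hξM i) (by linarith)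
    simp only [hL]; linarith
  have n4 : ∀ i, ‖JJ (G i + β • h i) + θ • ξ i‖ ≤ L i := fun i => by
    refine (DD_add _ _).trans ?_
    have e1 : ‖θ • ξ i‖ = θ * ‖ξ i‖ := by
      rw [DD_smul, abs_of_nonneg hθ]
    rw [e1, hnJ]
    have h5 : ‖G i + β • h i‖ ≤ ‖G i‖ + β * M := by
      refine (norm_add_le _ _).trans ?_
      rw [norm_smul, Real.norm_eq_abs, abs_of_nonneg hβ]
      have : β * ‖h i‖ ≤ β * M := mul_le_mul_of_nonneg_left (hM i _ (hh1 i)) hβ
      linarith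
    have : θ * ‖ξ i‖ ≤ θ * M := mul_le_mul_of_nonneg_left (hξM i) hθ
    simp only [hL]; linarith [add_mul β θ M]
  constructor
  · have s1 := norm_comb_sub_le (fun i => G i + β • h i) L n1 c l.1
    have s2 := norm_comb_sub_le (fun i => JJ (G i) + β • ξ i) L n2 l.1 c
    have s3 : ‖∑ i, l.1 i • (G i + β • h i)‖ ≤ ‖∑ i, l.1 i • (JJ (G i) + β • ξ i)‖ + ε / 4 := by
      have e1 : ∑ i, l.1 i • (G i + β • h i) =
          ∑ i, l.1 i • G i + ∑ i, (l.1 i * β) • h i := by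
        rw [← Finset.sum_add_distrib]
        exact Finset.sum_congr rfl fun i _ => by rw [smul_add, smul_smul]
      have e2 : ∑ i, l.1 i • (JJ (G i) + β • ξ i) =
          JJ (∑ i, l.1 i • G i) + ∑ i, (l.1 i * β) • ξ i := by
        have : JJ (∑ i, l.1 i • G i) = ∑ i, l.1 i • JJ (G i) := by
          rw [JJ_sum]
          exact Finset.sum_congr rfl fun i _ => map_smul _ _ _
        rw [this, ← Finset.sum_add_distrib]
        exact Finset.sum_congr rfl fun i _ => by rw [smul_add, smul_smul]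
      rw [e1, e2]
      exact (hh3 l).le
    linarith
  · have s1 := norm_comb_sub_le (fun i => JJ (G i) + (β + θ) • ξ i) L n3 c l.1
    have s2 := norm_comb_sub_le (fun i => JJ (G i + β • h i) + θ • ξ i) L n4 l.1 c
    have s3 : ‖η l‖ ≤ ‖∑ i, l.1 i • (JJ (G i + β • h i) + θ • ξ i)‖ + ε / 2 := by
      have e1 : ev (φ l) (η l) = ∑ i, l.1 i * (φ l (G i) + (β + θ) * ev (φ l) (ξ i)) := by
        simp only [hη, map_sum, map_smul, map_add, ev_JJ, smul_eq_mul]
      have e2 : ev (φ l) (∑ i, l.1 i • (JJ (G i + β • h i) + θ • ξ i)) =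
          ∑ i, l.1 i * (φ l (G i) + β * φ l (h i) + θ * ev (φ l) (ξ i)) := by
        rw [map_sum]
        refine Finset.sum_congr rfl fun i _ => ?_
        rw [map_smul, map_add, ev_JJ, map_smul, map_add, map_smul, smul_eq_mul, smul_eq_mul,
          smul_eq_mul]
      have e3 : ev (φ l) (∑ i, l.1 i • (JJ (G i + β • h i) + θ • ξ i)) ≤
          ‖∑ i, l.1 i • (JJ (G i + β • h i) + θ • ξ i)‖ := by
        refine (le_abs_self _).trans ((abs_ev_le _ _).trans ?_)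
        exact mul_le_of_le_one_right (norm_nonneg _) (hφ1 l)
      have e4 : ∑ i, l.1 i * (φ l (G i) + (β + θ) * ev (φ l) (ξ i)) -
          ∑ i, l.1 i * (φ l (G i) + β * φ l (h i) + θ * ev (φ l) (ξ i)) ≤ ε / 4 := by
        rw [← Finset.sum_sub_distrib]
        have : ∀ i, l.1 i * (φ l (G i) + (β + θ) * ev (φ l) (ξ i)) -
            l.1 i * (φ l (G i) + β * φ l (h i) + θ * ev (φ l) (ξ i)) ≤ |l.1 i| * (β * ε0) := by
          intro i
          have e5 : l.1 i * (φ l (G i) + (β + θ) * ev (φ l) (ξ i)) -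
            l.1 i * (φ l (G i) + β * φ l (h i) + θ * ev (φ l) (ξ i)) =
            - (l.1 i * (β * (φ l (h i) - ev (φ l) (ξ i)))) := by ring
          rw [e5]
          refine (le_abs_self _).trans ?_
          rw [abs_neg, abs_mul, abs_mul, abs_of_nonneg hβ]
          refine mul_le_mul_of_nonneg_left (mul_le_mul_of_nonneg_left ?_ hβ) (abs_nonneg _)
          exact hh2 i (φ l) (Finset.mem_image_of_mem _ (Finset.mem_univ l))
        refine (Finset.sum_le_sum fun i _ => this i).trans ?_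
        rw [← Finset.sum_mul]
        have h6 : (∑ i, |l.1 i|) * (β * ε0) ≤ 1 * (β * ε0) :=
          mul_le_mul_of_nonneg_right hlS (by positivity)
        linarith
      have := hφ2 l
      linarith
    have s4 : ‖∑ i, l.1 i • (JJ (G i) + (β + θ) • ξ i)‖ = ‖η l‖ := rfl
    linarith

end Pool.Agent.Helper57.Comp
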