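import Mathlib
import Pool.Agent.Helper57.Comp2

set_option autoImplicit false
set_option maxHeartbeats 1000000

namespace Pool.Agent.Helper57.Comp

open Filter Topology Metric ZeroAtInfty

/-- the space `c₀` -/
abbrev c0 : Type := C₀(ℕ, ℝ)

theorem c0_tendsto (u : c0) : Tendsto (fun l => u l) atTop (𝓝 0) := by
  have := zero_at_infty u
  rwa [Filter.cocompact_eq_cofinite, Nat.cofinite_eq_atTop] at this

theorem c0_abs_le (u : c0) (l : ℕ) : |u l| ≤ ‖u‖ := by
  have := u.toBCF.norm_coe_le_norm l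
  rwa [Real.norm_eq_abs] at this

theorem c0_norm_le (u : c0) (t : ℝ) (ht : 0 ≤ t) (h : ∀ l, |u l| ≤ t) : ‖u‖ ≤ t := by
  have := (BoundedContinuousFunction.norm_le (f := u.toBCF) ht).mpr (fun l => by
    rw [Real.norm_eq_abs]; exact h l)
  exact this

/-- truncation of a function `ℕ → ℝ`, an element of `c₀` -/
noncomputable def trunc (f : ℕ → ℝ) (m : ℕ) : c0 where
  toFun l := if l < m then f l else 0
  continuous_toFun := continuous_of_discreteTopology
  zero_at_infty' := by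
    rw [Filter.cocompact_eq_cofinite, Nat.cofinite_eq_atTop]
    refine tendsto_const_nhds.congr' ?_
    filter_upwards [eventually_ge_atTop m] with l hl
    rw [if_neg (not_lt.mpr hl)]

theorem trunc_apply (f : ℕ → ℝ) (m l : ℕ) : trunc f m l = if l < m then f l else 0 := rfl

section
variable {E : Type} [NormedAddCommGroup E] [NormedSpace ℝ E] (S : E ≃ₗ[ℝ] c0) (A : ℝ)
  (hA : ∀ x, ‖S x‖ ≤ A * ‖x‖)

/-- coordinate functional -/
noncomputable def coo (l : ℕ) : StrongDual ℝ E :=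
  LinearMap.mkContinuous
    { toFun := fun x => S x l
      map_add' := fun x y => by rw [map_add]; rfl
      map_smul' := fun a x => by rw [map_smul]; rfl } A
    (fun x => by
      rw [Real.norm_eq_abs]
      exact (c0_abs_le (S x) l).trans (hA x))

theorem coo_apply (l : ℕ) (x : E) : coo S A hA l x = S x l := rfl

theorem norm_coo_le (hA0 : 0 ≤ A) (l : ℕ) : ‖coo S A hA l‖ ≤ A :=
  LinearMap.mkContinuous_norm_le _ hA0 _

/-- far convex combinations of coordinate functionals of type `i` -/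
def CC (i m : ℕ) : Set (StrongDual ℝ E) :=
  convexHull ℝ (coo S A hA '' {l | l.unpair.1 = i ∧ m ≤ l})

theorem CC_convex (i m : ℕ) : Convex ℝ (CC S A hA i m) := convex_convexHull ℝ _

theorem CC_norm (hA0 : 0 ≤ A) (i m : ℕ) (h : StrongDual ℝ E) (hh : h ∈ CC S A hA i m) :
    ‖h‖ ≤ A := by
  have : CC S A hA i m ⊆ closedBall 0 A := by
    refine convexHull_min ?_ (convex_closedBall _ _)
    rintro _ ⟨l, _, rfl⟩
    rw [mem_closedBall_zero_iff]
    exact norm_coo_le S A hA hA0 l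
  have := this hh
  rwa [mem_closedBall_zero_iff] at this

theorem CC_apply_le (i m : ℕ) (h : StrongDual ℝ E) (hh : h ∈ CC S A hA i m) (x : E) (t : ℝ)
    (hx : ∀ l, m ≤ l → |S x l| ≤ t) : |h x| ≤ t := by
  have : CC S A hA i m ⊆ {h | |h x| ≤ t} := by
    refine convexHull_min ?_ ?_
    · rintro _ ⟨l, hl, rfl⟩
      exact hx l hl.2
    · intro g hg g' hg' a b ha hb hab
      simp only [Set.mem_ofPred_eq] at hg hg' ⊢
      have e : (a • g + b • g') x = a * g x + b * g' x := rfl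
      rw [e]
      calc |a * g x + b * g' x| ≤ |a * g x| + |b * g' x| := abs_add_le _ _
        _ = a * |g x| + b * |g' x| := by rw [abs_mul, abs_mul, abs_of_nonneg ha, abs_of_nonneg hb]
        _ ≤ a * t + b * t := by gcongr
        _ = t := by rw [← add_mul, hab, one_mul]
  exact this hh

theorem CC_support (i m : ℕ) (h : StrongDual ℝ E) (hh : h ∈ CC S A hA i m) :
    ∃ m' : ℕ, ∀ (u : c0) (s : ℝ), (∀ l, l.unpair.1 = i → m ≤ l → l < m' → u l = s) →
      h (S.symm u) = s := by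
  have : CC S A hA i m ⊆ {h | ∃ m' : ℕ, ∀ (u : c0) (s : ℝ),
      (∀ l, l.unpair.1 = i → m ≤ l → l < m' → u l = s) → h (S.symm u) = s} := by
    refine convexHull_min ?_ ?_
    · rintro _ ⟨l, hl, rfl⟩
      refine ⟨l + 1, fun u s hu => ?_⟩
      rw [coo_apply, S.apply_symm_apply]
      exact hu l hl.1 hl.2 (Nat.lt_succ_self l)
    · rintro g ⟨m1, hg⟩ g' ⟨m2, hg'⟩ a b ha hb hab
      refine ⟨max m1 m2, fun u s hu => ?_⟩
      have e : (a • g + b • g') (S.symm u) = a * g (S.symm u) + b * g' (S.symm u) := rfl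
      rw [e, hg u s (fun l h1 h2 h3 => hu l h1 h2 (h3.trans_le (le_max_left _ _))),
        hg' u s (fun l h1 h2 h3 => hu l h1 h2 (h3.trans_le (le_max_right _ _))),
        ← add_mul, hab, one_mul]
  exact this hh

theorem CC_finsupp (i m : ℕ) (h : StrongDual ℝ E) (hh : h ∈ CC S A hA i m) :
    ∃ m' : ℕ, ∀ u : c0, (∀ l < m', u l = 0) → h (S.symm u) = 0 := by
  obtain ⟨m', hm'⟩ := CC_support S A hA i m h hh
  exact ⟨m', fun u hu => hm' u 0 (fun l _ _ h3 => hu l h3)⟩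

theorem exists_xi (hA0 : 0 ≤ A) : ∃ ξ : ℕ → DD (StrongDual ℝ E), (∀ i, ‖ξ i‖ ≤ A) ∧
    ∀ i m, WClos (CC S A hA i m) (ξ i) := by
  have : ∀ i : ℕ, ∃ ξ : DD (StrongDual ℝ E), ‖ξ‖ ≤ A ∧ ∀ m, WClos (CC S A hA i m) ξ := by
    intro i
    obtain ⟨ξ, h1, h2⟩ := exists_cluster (fun n => coo S A hA (Nat.pair i n)) A
      (fun n => norm_coo_le S A hA hA0 _)
    refine ⟨ξ, h1, fun m => (h2 m).mono ?_⟩
    rintro _ ⟨n, hn, rfl⟩
    refine subset_convexHull ℝ _ ⟨Nat.pair i n, ⟨by simp, ?_⟩, rfl⟩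
    exact le_trans hn (Nat.right_le_pair i n)
  choose ξ h1 h2 using this
  exact ⟨ξ, h1, h2⟩

/-- The unit ball is flat at infinity at small scales. -/
def Flat : Prop := ∀ κ : ℝ, 0 < κ → ∃ δ : ℝ, 0 < δ ∧ ∀ x : E, ‖x‖ ≤ 1 → ∃ m : ℕ,
  ∀ u : c0, ‖u‖ ≤ 1 → (∀ l < m, u l = 0) → ‖x + δ • S.symm u‖ ≤ 1 + κ * δ

/-- finitely supported functional -/
def FinSupp (G : StrongDual ℝ E) : Prop :=
  ∃ m : ℕ, ∀ u : c0, (∀ l < m, u l = 0) → G (S.symm u) = 0

theorem FinSupp.comb {ι : Type} (s : Finset ι) (c : ι → ℝ) (G : ι → StrongDual ℝ E)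
    (h : ∀ i, FinSupp S (G i)) : FinSupp S (∑ i ∈ s, c i • G i) := by
  choose m hm using h
  refine ⟨s.sup m, fun u hu => ?_⟩
  rw [_root_.sum_apply]
  refine Finset.sum_eq_zero fun i hi => ?_
  rw [_root_.smul_apply, hm i u (fun l hl => hu l (hl.trans_le (Finset.le_sup hi))), smul_zero]

theorem strict_growth (hflat : Flat S) {k : ℕ} (G : StrongDual ℝ E)
    (hG : FinSupp S G) (c : Fin k → ℝ) (hc : ∑ i, |c i| = 1) (θ : ℝ) (hθ : 0 < θ) :
    ∃ η : ℝ, 0 < η ∧ ∃ m : ℕ, ∀ h : Fin k → StrongDual ℝ E, (∀ i : Fin k, h i ∈ CC S A hA i m) →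
      ‖G‖ + η ≤ ‖G + θ • ∑ i, c i • h i‖ := by
  set N : ℝ := ‖G‖ with hN
  have hN0 : 0 ≤ N := norm_nonneg _
  obtain ⟨δ, hδ, hδ2⟩ := hflat (θ / (4 * (N + 1))) (by positivity)
  set κ : ℝ := θ / (4 * (N + 1)) with hκ
  have hκ0 : 0 < κ := by positivity
  have hκN : κ * N ≤ θ / 4 := by
    rw [hκ, div_mul_eq_mul_div, div_le_iff₀ (by positivity)]
    nlinarith
  -- a nearly norming x
  have hx : ∃ x : E, ‖x‖ ≤ 1 ∧ N - δ * θ / 8 ≤ G x := by
    obtain ⟨x, hx, hx2⟩ := G.exists_lt_apply_of_lt_opNorm (r := N - δ * θ / 8)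
      (by have : 0 < δ * θ / 8 := by positivity
          linarith)
    rw [Real.norm_eq_abs] at hx2
    rcases le_total 0 (G x) with h0 | h0
    · rw [abs_of_nonneg h0] at hx2
      exact ⟨x, hx.le, hx2.le⟩
    · rw [abs_of_nonpos h0] at hx2
      exact ⟨-x, by rw [norm_neg]; exact hx.le, by rw [map_neg]; exact hx2.le⟩
  obtain ⟨x, hx1, hx2⟩ := hx
  obtain ⟨m1, hm1⟩ := hδ2 x hx1
  obtain ⟨m0, hm0⟩ := hG
  obtain ⟨m2, hm2⟩ : ∃ m2 : ℕ, ∀ l, m2 ≤ l → |S x l| ≤ δ / 8 := by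
    have h1 := (c0_tendsto (S x)).abs
    rw [abs_zero] at h1
    have h2 := h1.eventually (gt_mem_nhds (show (0:ℝ) < δ / 8 by positivity))
    obtain ⟨m2, hm2⟩ := eventually_atTop.mp h2
    exact ⟨m2, fun l hl => (hm2 l hl).le⟩
  set m : ℕ := max m0 (max m1 m2) with hm
  refine ⟨δ * θ / (2 * (1 + κ * δ)), by positivity, m, fun h hh => ?_⟩
  have hsup : ∀ i : Fin k, ∃ m' : ℕ, ∀ (u : c0) (s : ℝ),
      (∀ l, l.unpair.1 = (i : ℕ) → m ≤ l → l < m' → u l = s) → h i (S.symm u) = s :=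
    fun i => CC_support S A hA i m (h i) (hh i)
  choose M' hM' using hsup
  set mm : ℕ := Finset.univ.sup M' with hmm
  set f : ℕ → ℝ := fun l => if m ≤ l then
    (if hl : l.unpair.1 < k then (SignType.sign (c ⟨l.unpair.1, hl⟩) : ℝ) else 0) else 0 with hf
  set u : c0 := trunc f mm with hu
  have hf1 : ∀ l, |f l| ≤ 1 := by
    intro l
    simp only [hf]
    split_ifs with h1 h2
    · rcases lt_trichotomy (c ⟨l.unpair.1, h2⟩) 0 with h3 | h3 | h3
      · simp [sign_neg h3]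
      · simp [h3]
      · simp [sign_pos h3]
    · simp
    · simp
  have hu1 : ‖u‖ ≤ 1 := by
    refine c0_norm_le _ _ zero_le_one fun l => ?_
    rw [hu, trunc_apply]
    split_ifs
    · exact hf1 l
    · simp
  have hu0 : ∀ l < m, u l = 0 := by
    intro l hl
    rw [hu, trunc_apply]
    split_ifs
    · simp only [hf]
      rw [if_neg (not_le.mpr hl)]
    · rfl
  have hGu : G (S.symm u) = 0 := hm0 u (fun l hl => hu0 l (hl.trans_le (le_max_left _ _)))
  have hxu := hm1 u hu1 (fun l hl => hu0 l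
    (hl.trans_le ((le_max_left _ _).trans (le_max_right _ _))))
  have hhu : ∀ i : Fin k, h i (S.symm u) = (SignType.sign (c i) : ℝ) := by
    intro i
    refine hM' i u _ fun l h1 h2 h3 => ?_
    rw [hu, trunc_apply, if_pos (h3.trans_le (Finset.le_sup (Finset.mem_univ i)))]
    simp only [hf]
    rw [if_pos h2, dif_pos (h1 ▸ i.2)]
    congr 2
    congr 1
    exact Fin.ext h1
  have hhx : |∑ i, c i * h i x| ≤ δ / 8 := by
    refine (Finset.abs_sum_le_sum_abs _ _).trans ?_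
    have : ∀ i : Fin k, |c i * h i x| ≤ |c i| * (δ / 8) := by
      intro i
      rw [abs_mul]
      refine mul_le_mul_of_nonneg_left ?_ (abs_nonneg _)
      exact CC_apply_le S A hA i m (h i) (hh i) x _ (fun l hl => hm2 l
        (((le_max_right _ _).trans (le_max_right _ _)).trans hl))
    refine (Finset.sum_le_sum fun i _ => this i).trans ?_
    rw [← Finset.sum_mul, hc, one_mul]
  have hval : (G + θ • ∑ i, c i • h i) (x + δ • S.symm u) =
      G x + θ * ∑ i, c i * h i x + θ * δ := by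
    have e1 : (G + θ • ∑ i, c i • h i) (x + δ • S.symm u) =
        G (x + δ • S.symm u) + θ * ∑ i, c i * h i (x + δ • S.symm u) := by
      simp [_root_.sum_apply]
    rw [e1, map_add, map_smul, hGu, smul_zero, add_zero]
    have e2 : ∑ i, c i * h i (x + δ • S.symm u) = ∑ i, c i * h i x + δ * ∑ i, |c i| := by
      rw [Finset.mul_sum, ← Finset.sum_add_distrib]
      refine Finset.sum_congr rfl fun i _ => ?_
      rw [map_add, map_smul, hhu i, smul_eq_mul, mul_add]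
      have : c i * (SignType.sign (c i) : ℝ) = |c i| := self_mul_sign (c i)
      linear_combination δ * this
    rw [e2, hc]
    ring
  have hbig : N + 3 / 4 * (δ * θ) ≤ (G + θ • ∑ i, c i • h i) (x + δ • S.symm u) := by
    rw [hval]
    have := (abs_le.mp hhx).1
    nlinarith
  have hle : (G + θ • ∑ i, c i • h i) (x + δ • S.symm u) ≤
      ‖G + θ • ∑ i, c i • h i‖ * (1 + κ * δ) := by
    refine (le_abs_self _).trans ?_
    have := (G + θ • ∑ i, c i • h i).le_opNorm (x + δ • S.symm u)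
    rw [Real.norm_eq_abs] at this
    exact this.trans (mul_le_mul_of_nonneg_left hxu (norm_nonneg _))
  have h1κ : 0 < 1 + κ * δ := by positivity
  have hfinal : (N + δ * θ / (2 * (1 + κ * δ))) * (1 + κ * δ) ≤
      ‖G + θ • ∑ i, c i • h i‖ * (1 + κ * δ) := by
    have e3 : (N + δ * θ / (2 * (1 + κ * δ))) * (1 + κ * δ) = N + N * κ * δ + δ * θ / 2 := by
      field_simp
    rw [e3]
    nlinarith
  exact le_of_mul_le_mul_right hfinal h1κ

theorem growth_xi (hA0 : 0 ≤ A) (hflat : Flat S) (ξ : ℕ → DD (StrongDual ℝ E))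
    (hξ : ∀ i m, WClos (CC S A hA i m) (ξ i)) {k : ℕ} (G : Fin k → StrongDual ℝ E)
    (hG : ∀ i, FinSupp S (G i)) (c : Fin k → ℝ) (hc : ∑ i, |c i| = 1) (θ : ℝ) (hθ : 0 < θ) :
    ‖∑ i, c i • G i‖ < ‖∑ i, c i • (JJ (G i) + θ • ξ i)‖ := by
  obtain ⟨η, hη, m, hm⟩ := strict_growth S A hA hflat (∑ i, c i • G i)
    (FinSupp.comb S _ _ _ hG) c hc θ hθ
  obtain ⟨h, hh1, -, hh3⟩ := exists_near (κ := Unit) (ι := Fin k)
    (fun _ => ∑ i, c i • G i) (fun _ i => c i * θ) (fun i => CC S A hA i m)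
    (fun i => CC_convex S A hA i m) (fun i => ξ i) (fun i => hξ i m) ∅ 1 one_pos (η / 2)
    (by linarith)
  have h1 := hm h hh1
  have h2 := hh3 ()
  have e1 : ∑ i, c i • G i + θ • ∑ i, c i • h i = ∑ i, c i • G i + ∑ i, (c i * θ) • h i := by
    congr 1
    rw [Finset.smul_sum]
    exact Finset.sum_congr rfl fun i _ => by rw [smul_smul, mul_comm]
  have e2 : ∑ i, c i • (JJ (G i) + θ • ξ i) =
      JJ (∑ i, c i • G i) + ∑ i, (c i * θ) • ξ i := by
    rw [JJ_sum, ← Finset.sum_add_distrib]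
    refine Finset.sum_congr rfl fun i _ => ?_
    rw [map_smul, smul_add, smul_smul]
  rw [e1] at h1
  rw [e2]
  linarith

end

end Pool.Agent.Helper57.Comp
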