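import Mathlib
import Pool.Agent.Helper57.Comp3

set_option autoImplicit false
set_option maxHeartbeats 1000000

namespace Pool.Agent.Helper57.Comp

open Filter Topology Metric ZeroAtInfty

section
variable {E : Type} [NormedAddCommGroup E] [NormedSpace ℝ E] (S : E ≃ₗ[ℝ] c0) (A : ℝ)
  (hA : ∀ x, ‖S x‖ ≤ A * ‖x‖) (ξ : ℕ → DD (StrongDual ℝ E))

theorem exists_kappa (hA0 : 0 ≤ A) (hflat : Flat S)
    (hξ : ∀ i m, WClos (CC S A hA i m) (ξ i)) (k : ℕ) (G : ℕ → StrongDual ℝ E)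
    (hG : ∀ i, FinSupp S (G i)) (θ : ℝ) (hθ : 0 < θ) :
    ∃ κ : ℝ, 0 < κ ∧ ∀ c : ℕ → ℝ, ∑ i ∈ Finset.range k, |c i| = 1 →
      ‖∑ i ∈ Finset.range k, c i • G i‖ + κ ≤
        ‖∑ i ∈ Finset.range k, c i • (JJ (G i) + θ • ξ i)‖ := by
  set K : Set (Fin k → ℝ) := {c | ∑ i, |c i| = 1} with hK
  have hKc : IsCompact K := by
    refine (isCompact_l1 (Fin k)).of_isClosed_subset ?_ ?_
    · exact isClosed_eq (continuous_finsetSum _ fun i _ => (continuous_apply i).abs)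
        continuous_const
    · intro c hc
      exact le_of_eq hc
  set f : (Fin k → ℝ) → ℝ := fun c => ‖∑ i, c i • (JJ (G i) + θ • ξ i)‖ - ‖∑ i, c i • G i‖ with hf
  have hfc : Continuous f := by
    refine Continuous.sub ?_ ?_
    · exact (continuous_finsetSum _ fun i _ => (continuous_apply i).smul continuous_const).norm
    · exact (continuous_finsetSum _ fun i _ => (continuous_apply i).smul continuous_const).norm
  have hex : ∃ κ : ℝ, 0 < κ ∧ ∀ c ∈ K, κ ≤ f c := by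
    rcases K.eq_empty_or_nonempty with h0 | h0
    · exact ⟨1, one_pos, fun c hc => by rw [h0] at hc; exact absurd hc (Set.notMem_empty c)⟩
    · obtain ⟨c0, hc0, hmin⟩ := hKc.exists_isMinOn h0 hfc.continuousOn
      refine ⟨f c0, ?_, fun c hc => hmin hc⟩
      have := growth_xi S A hA hA0 hflat ξ hξ (fun i : Fin k => G i) (fun i => hG i) c0 hc0 θ hθ
      simp only [hf]
      linarith
  obtain ⟨κ, hκ, hκ2⟩ := hex
  refine ⟨κ, hκ, fun c hc => ?_⟩
  have h1 := hκ2 (fun i => c i) (by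
    show ∑ i : Fin k, |c i| = 1
    rw [← Finset.sum_range (fun i => |c i|)]
    exact hc)
  simp only [hf] at h1
  rw [← Finset.sum_range (fun i => c i • G i),
    ← Finset.sum_range (fun i => c i • (JJ (G i) + θ • ξ i))] at h1
  linarith

/-- scale -/
noncomputable def th (k : ℕ) : ℝ := (1 / 2 : ℝ) ^ (k + 1)

theorem th_pos (k : ℕ) : 0 < th k := by unfold th; positivity

theorem th_succ (k : ℕ) : th (k + 1) = th k / 2 := by
  unfold th; rw [pow_succ]; ring

/-- A state of the construction -/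
structure St (E : Type) [NormedAddCommGroup E] [NormedSpace ℝ E] where
  G : ℕ → StrongDual ℝ E
  κ : ℝ

/-- good state -/
def Good (k : ℕ) (s : St E) : Prop :=
  (∀ i, FinSupp S (s.G i)) ∧ (∀ i, k ≤ i → s.G i = coo S A hA i) ∧ 0 < s.κ ∧
  ∀ c : ℕ → ℝ, ∑ i ∈ Finset.range k, |c i| = 1 →
    ‖∑ i ∈ Finset.range k, c i • s.G i‖ + s.κ * th k ≤
      ‖∑ i ∈ Finset.range k, c i • (JJ (s.G i) + th k • ξ i)‖

/-- one step -/
def Step (k : ℕ) (s s' : St E) : Prop :=
  s'.κ ≤ s.κ ∧ (∃ h : ℕ → StrongDual ℝ E, (∀ i, h i ∈ CC S A hA i k) ∧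
    (∀ i, i < k → s'.G i = s.G i + th (k + 1) • h i) ∧ (∀ i, k ≤ i → s'.G i = s.G i)) ∧
  ∀ c : ℕ → ℝ, ∑ i ∈ Finset.range k, |c i| ≤ 1 →
    ‖∑ i ∈ Finset.range k, c i • s'.G i‖ ≤
      ‖∑ i ∈ Finset.range k, c i • (JJ (s.G i) + th (k + 1) • ξ i)‖ +
        th (k + 1) * s.κ * (1 / 2 : ℝ) ^ (k + 4) ∧
    ‖∑ i ∈ Finset.range k, c i • (JJ (s.G i) + th k • ξ i)‖ ≤
      ‖∑ i ∈ Finset.range k, c i • (JJ (s'.G i) + th (k + 1) • ξ i)‖ +
        th (k + 1) * s.κ * (1 / 2 : ℝ) ^ (k + 4)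

theorem coo_mem_CC (i m : ℕ) : coo S A hA (Nat.pair i m) ∈ CC S A hA i m :=
  subset_convexHull ℝ _ ⟨Nat.pair i m, ⟨by simp, Nat.right_le_pair i m⟩, rfl⟩

theorem coo_finSupp (i : ℕ) : FinSupp S (coo S A hA i) :=
  ⟨i + 1, fun u hu => by
    rw [coo_apply, S.apply_symm_apply]
    exact hu i (Nat.lt_succ_self i)⟩

theorem step_exists (hA0 : 0 ≤ A) (hflat : Flat S)
    (hξ : ∀ i m, WClos (CC S A hA i m) (ξ i)) (hξA : ∀ i, ‖ξ i‖ ≤ A) (k : ℕ) (s : St E)
    (hs : Good S A hA ξ k s) : ∃ s' : St E, Good S A hA ξ (k + 1) s' ∧ Step S A hA ξ k s s' := by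
  obtain ⟨hs1, hs2, hs3, hs4⟩ := hs
  have hε : 0 < th (k + 1) * s.κ * (1 / 2 : ℝ) ^ (k + 4) := by
    have := th_pos (k + 1)
    positivity
  obtain ⟨h, hh1, hh2⟩ := exists_uniform (fun i : Fin k => s.G i) (fun i => CC S A hA i k)
    (fun i => CC_convex S A hA i k) (fun i => ξ i) (fun i => hξ i k) A
    (fun i g hg => CC_norm S A hA hA0 i k g hg) (fun i => hξA i) hA0 (th (k + 1)) (th (k + 1))
    (th_pos _).le (th_pos _).le _ hε
  set h' : ℕ → StrongDual ℝ E := fun i => if hi : i < k then h ⟨i, hi⟩ else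
    coo S A hA (Nat.pair i k) with hh'
  have hh'mem : ∀ i, h' i ∈ CC S A hA i k := by
    intro i
    simp only [hh']
    split_ifs with hi
    · exact hh1 ⟨i, hi⟩
    · exact coo_mem_CC S A hA i k
  have hh'fin : ∀ i : Fin k, h' i = h i := by
    intro i
    simp only [hh']
    rw [dif_pos i.2]
  set G' : ℕ → StrongDual ℝ E := fun i => if i < k then s.G i + th (k + 1) • h' i else s.G i
    with hG'
  have hG'lt : ∀ i, i < k → G' i = s.G i + th (k + 1) • h' i := fun i hi => by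
    simp only [hG']; rw [if_pos hi]
  have hG'ge : ∀ i, k ≤ i → G' i = s.G i := fun i hi => by
    simp only [hG']; rw [if_neg (not_lt.mpr hi)]
  have hG'fs : ∀ i, FinSupp S (G' i) := by
    intro i
    rcases lt_or_ge i k with hi | hi
    · rw [hG'lt i hi]
      obtain ⟨m1, hm1⟩ := hs1 i
      obtain ⟨m2, hm2⟩ := CC_finsupp S A hA i k _ (hh'mem i)
      refine ⟨max m1 m2, fun u hu => ?_⟩
      rw [_root_.add_apply, _root_.smul_apply,
        hm1 u (fun l hl => hu l (hl.trans_le (le_max_left _ _))),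
        hm2 u (fun l hl => hu l (hl.trans_le (le_max_right _ _))), smul_zero, add_zero]
    · rw [hG'ge i hi]
      exact hs1 i
  obtain ⟨κ0, hκ0, hκ02⟩ := exists_kappa S A hA ξ hA0 hflat hξ (k + 1) G' hG'fs (th (k + 1))
    (th_pos _)
  have hth : 0 < th (k + 1) := th_pos _
  refine ⟨⟨G', min s.κ (κ0 / th (k + 1))⟩, ⟨hG'fs, ?_, ?_, ?_⟩, min_le_left _ _,
    ⟨h', hh'mem, hG'lt, hG'ge⟩, ?_⟩
  · intro i hi
    show G' i = _
    rw [hG'ge i (by omega)]
    exact hs2 i (by omega)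
  · exact lt_min hs3 (div_pos hκ0 hth)
  · intro c hc
    refine le_trans ?_ (hκ02 c hc)
    have : min s.κ (κ0 / th (k + 1)) * th (k + 1) ≤ κ0 := by
      calc min s.κ (κ0 / th (k + 1)) * th (k + 1) ≤ κ0 / th (k + 1) * th (k + 1) :=
            mul_le_mul_of_nonneg_right (min_le_right _ _) hth.le
        _ = κ0 := by field_simp
    show ‖∑ i ∈ Finset.range (k + 1), c i • G' i‖ + min s.κ (κ0 / th (k + 1)) * th (k + 1) ≤ _
    linarith
  · intro c hc
    have h2θ : th (k + 1) + th (k + 1) = th k := by rw [th_succ]; ring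
    obtain ⟨h3, h4⟩ := hh2 (fun i => c i) (by
      rw [← Finset.sum_range (fun i => |c i|)]
      exact hc)
    rw [h2θ] at h4
    have e1 : ∑ i : Fin k, c i • (s.G i + th (k + 1) • h i) =
        ∑ i ∈ Finset.range k, c i • G' i := by
      rw [Finset.sum_range (fun i => c i • G' i)]
      refine Finset.sum_congr rfl fun i _ => ?_
      rw [hG'lt i i.2, hh'fin]
    have e2 : ∑ i : Fin k, c i • (JJ (s.G i) + th (k + 1) • ξ i) =
        ∑ i ∈ Finset.range k, c i • (JJ (s.G i) + th (k + 1) • ξ i) :=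
      (Finset.sum_range (fun i => c i • (JJ (s.G i) + th (k + 1) • ξ i))).symm
    have e3 : ∑ i : Fin k, c i • (JJ (s.G i) + th k • ξ i) =
        ∑ i ∈ Finset.range k, c i • (JJ (s.G i) + th k • ξ i) :=
      (Finset.sum_range (fun i => c i • (JJ (s.G i) + th k • ξ i))).symm
    have e4 : ∑ i : Fin k, c i • (JJ (s.G i + th (k + 1) • h i) + th (k + 1) • ξ i) =
        ∑ i ∈ Finset.range k, c i • (JJ (G' i) + th (k + 1) • ξ i) := by
      rw [Finset.sum_range (fun i => c i • (JJ (G' i) + th (k + 1) • ξ i))]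
      refine Finset.sum_congr rfl fun i _ => ?_
      rw [hG'lt i i.2, hh'fin]
    rw [e1, e2] at h3
    rw [e3, e4] at h4
    exact ⟨h3, h4⟩

theorem exists_seq (hA0 : 0 ≤ A) (hflat : Flat S)
    (hξ : ∀ i m, WClos (CC S A hA i m) (ξ i)) (hξA : ∀ i, ‖ξ i‖ ≤ A) :
    ∃ s : ℕ → St E, ∀ k, Good S A hA ξ k (s k) ∧ Step S A hA ξ k (s k) (s (k + 1)) := by
  have h0 : Good S A hA ξ 0 ⟨fun i => coo S A hA i, 1⟩ := by
    refine ⟨fun i => coo_finSupp S A hA i, fun i _ => rfl, one_pos, fun c hc => ?_⟩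
    rw [Finset.range_zero, Finset.sum_empty] at hc
    exact absurd hc zero_ne_one
  choose! nxt hn1 hn2 using step_exists S A hA ξ hA0 hflat hξ hξA
  set seq : ℕ → St E := fun k => Nat.rec ⟨fun i => coo S A hA i, 1⟩ (fun k s => nxt k s) k
    with hseq
  have hgood : ∀ k, Good S A hA ξ k (seq k) := by
    intro k
    induction k with
    | zero => exact h0
    | succ k ih => exact hn1 k (seq k) ih
  exact ⟨seq, fun k => ⟨hgood k, hn2 k (seq k) (hgood k)⟩⟩

end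

end Pool.Agent.Helper57.Comp
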