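import Mathlib
import Pool.Agent.Helper57.Comp4

set_option autoImplicit false
set_option maxHeartbeats 1000000

namespace Pool.Agent.Helper57.Comp

open Filter Topology Metric ZeroAtInfty

section
variable {E : Type} [NormedAddCommGroup E] [NormedSpace ℝ E] (S : E ≃ₗ[ℝ] c0) (A : ℝ)

theorem th_tendsto : Tendsto th atTop (𝓝 0) := by
  have h := (tendsto_pow_atTop_nhds_zero_of_lt_one (r := (1 / 2 : ℝ)) (by norm_num)
    (by norm_num)).comp (tendsto_add_atTop_nat 1)
  exact h

theorem static_aux (hA : ∀ x, ‖S x‖ ≤ A * ‖x‖) (hA0 : 0 ≤ A) (hflat : Flat S) :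
    ∃ g : ℕ → StrongDual ℝ E, (∀ i x, |g i x - S x i| ≤ th (i + 1) * ‖S x‖) ∧
      ∀ (n : ℕ) (c : ℕ → ℝ), (∀ i, n ≤ i → c i = 0) → ∑ i ∈ Finset.range n, |c i| = 1 →
        ∀ x : E, ‖x‖ ≤ 1 → (∑ i ∈ Finset.range n, c i • g i) x <
          ‖∑ i ∈ Finset.range n, c i • g i‖ := by
  obtain ⟨ξ, hξA, hξ⟩ := exists_xi S A hA hA0
  obtain ⟨s, hs⟩ := exists_seq S A hA ξ hA0 hflat hξ hξA
  -- increments
  have hinc : ∀ k i, ∃ h : StrongDual ℝ E, (∀ x t, (∀ l, k ≤ l → |S x l| ≤ t) → |h x| ≤ t) ∧
      ‖h‖ ≤ A ∧ ((s (k + 1)).G i - (s k).G i = th (k + 1) • h ∨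
        (s (k + 1)).G i - (s k).G i = 0) := by
    intro k i
    obtain ⟨-, ⟨h, h1, h2, h3⟩, -⟩ := (hs k).2
    refine ⟨h i, fun x t hx => CC_apply_le S A hA i k _ (h1 i) x t hx,
      CC_norm S A hA hA0 i k _ (h1 i), ?_⟩
    rcases lt_or_ge i k with hi | hi
    · left; rw [h2 i hi]; abel
    · right; rw [h3 i hi]; abel
  have hnorm1 : ∀ k i, ‖(s (k + 1)).G i - (s k).G i‖ ≤ A * (th k - th (k + 1)) := by
    intro k i
    have e : th k - th (k + 1) = th (k + 1) := by rw [th_succ]; ring
    obtain ⟨h, -, h2, h3⟩ := hinc k i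
    rw [e]
    rcases h3 with h3 | h3
    · rw [h3, norm_smul, Real.norm_eq_abs, abs_of_pos (th_pos _), mul_comm]
      exact mul_le_mul_of_nonneg_right h2 (th_pos _).le
    · rw [h3, norm_zero]
      exact mul_nonneg hA0 (th_pos _).le
  have hnorm2 : ∀ i k n, ‖(s (k + n)).G i - (s k).G i‖ ≤ A * (th k - th (k + n)) := by
    intro i k n
    induction n with
    | zero => simp
    | succ n ih =>
      have h1 := hnorm1 (k + n) i
      have e : (s (k + (n + 1))).G i - (s k).G i =
          ((s (k + n + 1)).G i - (s (k + n)).G i) + ((s (k + n)).G i - (s k).G i) := by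
        rw [← add_assoc]; abel
      rw [e]
      refine (norm_add_le _ _).trans ?_
      have e2 : k + (n + 1) = k + n + 1 := by ring
      rw [e2]
      linarith [mul_sub A (th (k + n)) (th (k + n + 1)), mul_sub A (th k) (th (k + n)),
        mul_sub A (th k) (th (k + n + 1))]
  have hpt1 : ∀ k i x t, 0 ≤ t → (∀ l, k ≤ l → |S x l| ≤ t) →
      |(s (k + 1)).G i x - (s k).G i x| ≤ t * (th k - th (k + 1)) := by
    intro k i x t ht hx
    have e : th k - th (k + 1) = th (k + 1) := by rw [th_succ]; ring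
    obtain ⟨h, h1, -, h3⟩ := hinc k i
    rw [e]
    have e2 : (s (k + 1)).G i x - (s k).G i x = ((s (k + 1)).G i - (s k).G i) x := rfl
    rw [e2]
    rcases h3 with h3 | h3
    · rw [h3, _root_.smul_apply, smul_eq_mul, abs_mul, abs_of_pos (th_pos _), mul_comm]
      exact mul_le_mul_of_nonneg_right (h1 x t hx) (th_pos _).le
    · rw [h3, _root_.zero_apply, abs_zero]
      exact mul_nonneg ht (th_pos _).le
  have hpt2 : ∀ i k n x t, 0 ≤ t → (∀ l, k ≤ l → |S x l| ≤ t) →
      |(s (k + n)).G i x - (s k).G i x| ≤ t * (th k - th (k + n)) := by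
    intro i k n x t ht hx
    induction n with
    | zero => simp
    | succ n ih =>
      have h1 := hpt1 (k + n) i x t ht (fun l hl => hx l (by omega))
      have e : (s (k + (n + 1))).G i x - (s k).G i x =
          ((s (k + n + 1)).G i x - (s (k + n)).G i x) + ((s (k + n)).G i x - (s k).G i x) := by
        rw [← add_assoc]; ring
      rw [e]
      refine (abs_add_le _ _).trans ?_
      have e2 : k + (n + 1) = k + n + 1 := by ring
      rw [e2]
      linarith [mul_sub t (th (k + n)) (th (k + n + 1)), mul_sub t (th k) (th (k + n)),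
        mul_sub t (th k) (th (k + n + 1))]
  -- limits
  have hlim : ∀ i, ∃ g : StrongDual ℝ E, Tendsto (fun k => (s k).G i) atTop (𝓝 g) := by
    intro i
    have hc : CauchySeq (fun k => (s k).G i) := by
      rw [Metric.cauchySeq_iff']
      intro ε hε
      have h1 : Tendsto (fun k => A * th k) atTop (𝓝 0) := by
        have := th_tendsto.const_mul A
        rwa [mul_zero] at this
      obtain ⟨N, hN⟩ := (h1.eventually (gt_mem_nhds hε)).exists
      refine ⟨N, fun n hn => ?_⟩
      obtain ⟨j, rfl⟩ := Nat.exists_eq_add_of_le hn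
      rw [dist_eq_norm]
      refine (hnorm2 i N j).trans_lt (lt_of_le_of_lt ?_ hN)
      exact mul_le_mul_of_nonneg_left (by linarith [th_pos (N + j)]) hA0
    exact cauchySeq_tendsto_of_complete hc
  choose g hg using hlim
  have hgnorm : ∀ i k, ‖g i - (s k).G i‖ ≤ A * th k := by
    intro i k
    have h1 : Tendsto (fun n => ‖(s (k + n)).G i - (s k).G i‖) atTop (𝓝 ‖g i - (s k).G i‖) := by
      have h2 : Tendsto (fun n => (s (k + n)).G i) atTop (𝓝 (g i)) := by
        refine (hg i).comp ?_
        exact tendsto_atTop_mono (fun n => Nat.le_add_left n k) tendsto_id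
      exact (h2.sub_const _).norm
    refine le_of_tendsto h1 (Eventually.of_forall fun n => (hnorm2 i k n).trans ?_)
    exact mul_le_mul_of_nonneg_left (by linarith [th_pos (k + n)]) hA0
  have hgpt : ∀ i k x t, 0 ≤ t → (∀ l, k ≤ l → |S x l| ≤ t) →
      |g i x - (s k).G i x| ≤ t * th k := by
    intro i k x t ht hx
    have h1 : Tendsto (fun n => |(s (k + n)).G i x - (s k).G i x|) atTop
        (𝓝 |g i x - (s k).G i x|) := by
      have h2 : Tendsto (fun n => (s (k + n)).G i) atTop (𝓝 (g i)) := by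
        refine (hg i).comp ?_
        exact tendsto_atTop_mono (fun n => Nat.le_add_left n k) tendsto_id
      have h3 : Tendsto (fun n => (s (k + n)).G i x) atTop (𝓝 (g i x)) :=
        ((ContinuousLinearMap.apply ℝ ℝ x).continuous.tendsto (g i)).comp h2
      exact (h3.sub_const _).abs
    refine le_of_tendsto h1 (Eventually.of_forall fun n => (hpt2 i k n x t ht hx).trans ?_)
    exact mul_le_mul_of_nonneg_left (by linarith [th_pos (k + n)]) ht
  refine ⟨g, fun i x => ?_, ?_⟩
  · have h1 := hgpt i (i + 1) x ‖S x‖ (norm_nonneg _) (fun l _ => c0_abs_le _ _)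
    have h2 : (s (i + 1)).G i = coo S A hA i := by
      obtain ⟨-, ⟨h, -, -, h3⟩, -⟩ := (hs i).2
      rw [h3 i le_rfl]
      exact (hs i).1.2.1 i le_rfl
    rw [h2, coo_apply, mul_comm] at h1
    exact h1
  · intro n c hc0 hc1 x hx
    set κ : ℝ := (s n).κ with hκ
    have hκ0 : 0 < κ := (hs n).1.2.2.1
    set P : ℕ → ℝ := fun k => ‖∑ i ∈ Finset.range n, c i • (s k).G i‖ with hP
    set Λ : ℕ → ℝ := fun k => ‖∑ i ∈ Finset.range n, c i • (JJ ((s k).G i) + th k • ξ i)‖ with hΛ
    set Q : ℝ := ‖∑ i ∈ Finset.range n, c i • g i‖ with hQ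
    have hsum : ∀ {Z : Type} [AddCommGroup Z] [Module ℝ Z] (v : ℕ → Z) (k : ℕ), n ≤ k →
        ∑ i ∈ Finset.range k, c i • v i = ∑ i ∈ Finset.range n, c i • v i := by
      intro Z _ _ v k hk
      refine (Finset.sum_subset (Finset.range_subset_range.mpr hk) fun i _ hi => ?_).symm
      rw [hc0 i (by simpa using hi), zero_smul]
    have hsum1 : ∀ k, n ≤ k → ∑ i ∈ Finset.range k, |c i| = 1 := by
      intro k hk
      rw [← hc1]
      refine (Finset.sum_subset (Finset.range_subset_range.mpr hk) fun i _ hi => ?_).symm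
      rw [hc0 i (by simpa using hi), abs_zero]
    have hκk : ∀ j, (s (n + j)).κ ≤ κ := by
      intro j
      induction j with
      | zero => exact le_rfl
      | succ j ih => exact ((hs (n + j)).2.1).trans ih
    have hεk : ∀ j, th (n + j + 1) * (s (n + j)).κ * (1 / 2 : ℝ) ^ (n + j + 4) ≤
        th (n + j + 1) * κ * (1 / 2 : ℝ) ^ (n + j + 4) := fun j => by
      have := hκk j
      have h2 := th_pos (n + j + 1)
      gcongr
    have hD0 : P n + κ * th n ≤ Λ n := (hs n).1.2.2.2 c (hsum1 n le_rfl)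
    have hstep : ∀ j, P (n + j + 1) ≤ (P (n + j) + Λ (n + j)) / 2 +
          th (n + j + 1) * κ * (1 / 2 : ℝ) ^ (n + j + 4) ∧
        Λ (n + j) ≤ Λ (n + j + 1) + th (n + j + 1) * κ * (1 / 2 : ℝ) ^ (n + j + 4) := by
      intro j
      obtain ⟨h1, h2⟩ := (hs (n + j)).2.2.2 c (hsum1 (n + j) (Nat.le_add_right _ _)).le
      have hle : n ≤ n + j := Nat.le_add_right _ _
      have a1 := hsum (fun i => (s (n + j + 1)).G i) (n + j) hle
      have a2 := hsum (fun i => JJ ((s (n + j)).G i) + th (n + j + 1) • ξ i) (n + j) hle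
      have a3 := hsum (fun i => JJ ((s (n + j)).G i) + th (n + j) • ξ i) (n + j) hle
      have a4 := hsum (fun i => JJ ((s (n + j + 1)).G i) + th (n + j + 1) • ξ i) (n + j) hle
      rw [a1, a2] at h1
      rw [a3, a4] at h2
      have h3 : ‖∑ i ∈ Finset.range n, c i • (JJ ((s (n + j)).G i) + th (n + j + 1) • ξ i)‖ ≤
          (P (n + j) + Λ (n + j)) / 2 := by
        have e1 : ∑ i ∈ Finset.range n, c i • (JJ ((s (n + j)).G i) + th (n + j + 1) • ξ i) =
            (1 / 2 : ℝ) • JJ (∑ i ∈ Finset.range n, c i • (s (n + j)).G i) +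
            (1 / 2 : ℝ) • ∑ i ∈ Finset.range n,
              c i • (JJ ((s (n + j)).G i) + th (n + j) • ξ i) := by
          rw [JJ_sum, Finset.smul_sum, Finset.smul_sum, ← Finset.sum_add_distrib]
          refine Finset.sum_congr rfl fun i _ => ?_
          rw [map_smul, th_succ]
          module
        rw [e1]
        refine (norm_add_le _ _).trans ?_
        rw [norm_smul, norm_smul, norm_JJ]
        have : ‖(1 / 2 : ℝ)‖ = 1 / 2 := by norm_num
        rw [this]
        simp only [hP, hΛ]
        linarith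
      have h4 := hεk j
      constructor
      · refine le_trans h1 ?_
        linarith
      · exact h2.trans (by linarith)
    have hDk : ∀ j, P (n + j) + κ * th (n + j) * (1 / 2 + (1 / 2 : ℝ) ^ (n + j + 2)) ≤
        Λ (n + j) := by
      intro j
      induction j with
      | zero =>
        have h1 : (1 / 2 : ℝ) ^ (n + 0 + 2) ≤ 1 / 2 := by
          have : (1 / 2 : ℝ) ^ (n + 0 + 2) ≤ (1 / 2 : ℝ) ^ 1 :=
            pow_le_pow_of_le_one (by norm_num) (by norm_num) (by omega)
          simpa using this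
        have h2 : 0 < κ * th n := mul_pos hκ0 (th_pos n)
        have h3 : κ * th (n + 0) * (1 / 2 + (1 / 2 : ℝ) ^ (n + 0 + 2)) ≤ κ * th n * 1 :=
          mul_le_mul_of_nonneg_left (by linarith) h2.le
        rw [mul_one] at h3
        have h4 : P (n + 0) = P n := rfl
        have h5 : Λ (n + 0) = Λ n := rfl
        linarith
      | succ j ih =>
        obtain ⟨h1, h2⟩ := hstep j
        have e0 : n + (j + 1) = n + j + 1 := by ring
        rw [e0]
        have e1 : th (n + j) = 2 * th (n + j + 1) := by rw [th_succ]; ring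
        rw [e1] at ih
        have e2 : (1 / 2 : ℝ) ^ (n + j + 1 + 2) = (1 / 2 : ℝ) ^ (n + j + 2) / 2 := by
          rw [show n + j + 1 + 2 = (n + j + 2) + 1 by ring, pow_succ]; ring
        have e3 : (1 / 2 : ℝ) ^ (n + j + 4) = (1 / 2 : ℝ) ^ (n + j + 2) / 4 := by
          rw [show n + j + 4 = (n + j + 2) + 2 by ring, pow_add]; ring
        rw [e3] at h1 h2
        rw [e2]
        nlinarith [h1, h2, ih]
    have hQlim : Tendsto Λ atTop (𝓝 Q) := by
      have h1 : Tendsto (fun k => ∑ i ∈ Finset.range n, c i • (JJ ((s k).G i) + th k • ξ i)) atTop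
          (𝓝 (∑ i ∈ Finset.range n, c i • (JJ (g i) + (0 : ℝ) • ξ i))) := by
        refine tendsto_finsetSum _ fun i _ => ?_
        refine Tendsto.const_smul ?_ (c i)
        refine Tendsto.add ?_ ?_
        · exact (JJ.continuous.tendsto (g i)).comp (hg i)
        · exact th_tendsto.smul_const (ξ i)
      have h2 := h1.norm
      have e1 : ∑ i ∈ Finset.range n, c i • (JJ (g i) + (0 : ℝ) • ξ i) =
          JJ (∑ i ∈ Finset.range n, c i • g i) := by
        rw [JJ_sum]
        refine Finset.sum_congr rfl fun i _ => ?_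
        rw [zero_smul, add_zero, map_smul]
      rw [e1, norm_JJ] at h2
      exact h2
    have hmono : ∀ j, Λ (n + j) - κ * th (n + j) / 4 ≤ Λ (n + j + 1) - κ * th (n + j + 1) / 4 := by
      intro j
      obtain ⟨-, h2⟩ := hstep j
      have e1 : th (n + j) = 2 * th (n + j + 1) := by rw [th_succ]; ring
      rw [e1]
      have h3 : (1 / 2 : ℝ) ^ (n + j + 4) ≤ 1 / 4 := by
        have : (1 / 2 : ℝ) ^ (n + j + 4) ≤ (1 / 2 : ℝ) ^ 2 :=
          pow_le_pow_of_le_one (by norm_num) (by norm_num) (by omega)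
        calc (1 / 2 : ℝ) ^ (n + j + 4) ≤ (1 / 2 : ℝ) ^ 2 := this
          _ = 1 / 4 := by norm_num
      have h4 : 0 < th (n + j + 1) * κ := mul_pos (th_pos _) hκ0
      nlinarith
    have hQge : ∀ j, Λ (n + j) - κ * th (n + j) / 4 ≤ Q := by
      intro j
      have hm : Monotone (fun j => Λ (n + j) - κ * th (n + j) / 4) :=
        monotone_nat_of_le_succ hmono
      have hl : Tendsto (fun j => Λ (n + j) - κ * th (n + j) / 4) atTop (𝓝 Q) := by
        have h1 : Tendsto (fun j => n + j) atTop atTop :=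
          tendsto_atTop_mono (fun j => Nat.le_add_left j n) tendsto_id
        have h2 := (hQlim.comp h1).sub (((th_tendsto.comp h1).const_mul κ).div_const 4)
        rw [mul_zero, zero_div, sub_zero] at h2
        exact h2
      exact hm.ge_of_tendsto hl j
    -- choose the stage
    obtain ⟨m2, hm2⟩ : ∃ m2 : ℕ, ∀ l, m2 ≤ l → |S x l| ≤ κ / 8 := by
      have h1 := (c0_tendsto (S x)).abs
      rw [abs_zero] at h1
      have h2 := h1.eventually (gt_mem_nhds (show (0:ℝ) < κ / 8 by positivity))
      obtain ⟨m2, hm2⟩ := eventually_atTop.mp h2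
      exact ⟨m2, fun l hl => (hm2 l hl).le⟩
    set k : ℕ := n + m2 with hk
    have h1 : (∑ i ∈ Finset.range n, c i • g i) x - (∑ i ∈ Finset.range n, c i • (s k).G i) x ≤
        κ / 8 * th k := by
      have e1 : (∑ i ∈ Finset.range n, c i • g i) x -
          (∑ i ∈ Finset.range n, c i • (s k).G i) x =
          ∑ i ∈ Finset.range n, c i * (g i x - (s k).G i x) := by
        rw [_root_.sum_apply, _root_.sum_apply, ← Finset.sum_sub_distrib]
        refine Finset.sum_congr rfl fun i _ => ?_
        rw [_root_.smul_apply, _root_.smul_apply, smul_eq_mul, smul_eq_mul]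
        ring
      rw [e1]
      refine (le_abs_self _).trans ((Finset.abs_sum_le_sum_abs _ _).trans ?_)
      have h2 : ∀ i, |c i * (g i x - (s k).G i x)| ≤ |c i| * (κ / 8 * th k) := by
        intro i
        rw [abs_mul]
        refine mul_le_mul_of_nonneg_left ?_ (abs_nonneg _)
        exact hgpt i k x (κ / 8) (by positivity) (fun l hl => hm2 l (by omega))
      refine (Finset.sum_le_sum fun i _ => h2 i).trans ?_
      rw [← Finset.sum_mul, hc1, one_mul]
    have h2 : (∑ i ∈ Finset.range n, c i • (s k).G i) x ≤ P k := by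
      refine (le_abs_self _).trans ?_
      have := (∑ i ∈ Finset.range n, c i • (s k).G i).le_opNorm x
      rw [Real.norm_eq_abs] at this
      exact this.trans (mul_le_of_le_one_right (norm_nonneg _) hx)
    have h3 := hDk m2
    have h4 := hQge m2
    have h5 : 0 < κ * th (n + m2) := mul_pos hκ0 (th_pos _)
    have h6 : 0 < κ * th (n + m2) * (1 / 2 : ℝ) ^ (n + m2 + 2) := by positivity
    rw [← hk] at h3 h4 h5 h6
    nlinarith

end

end Pool.Agent.Helper57.Comp
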