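import Mathlib

set_option autoImplicit false
set_option maxHeartbeats 1000000

namespace Pool.Agent.Helper57.L1

open Filter Topology MeasureTheory

/-- The space of absolutely summable real sequences. -/
abbrev L : Type := lp (fun _ : ℕ => ℝ) 1

theorem summ (x : L) : Summable fun n => |x n| := by
  have h := (lp.memℓp x).summable (by norm_num)
  simpa using h

theorem norm_eq (x : L) : ‖x‖ = ∑' n, |x n| := by
  rw [lp.norm_eq_tsum_rpow (by norm_num)]
  simp

/-- Constructor. -/
noncomputable def mk (a : ℕ → ℝ) (ha : Summable fun n => |a n|) : L :=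
  ⟨a, memℓp_gen (by simpa using ha)⟩

theorem mk_apply (a : ℕ → ℝ) (ha : Summable fun n => |a n|) (n : ℕ) : mk a ha n = a n := rfl

theorem sum_le (x : L) (s : Finset ℕ) : ∑ n ∈ s, |x n| ≤ ‖x‖ := by
  rw [norm_eq]
  exact (summ x).sum_le_tsum s (fun n _ => abs_nonneg _)

theorem coord_le (x : L) (n : ℕ) : |x n| ≤ ‖x‖ := by
  simpa using sum_le x {n}

theorem norm_le_of (x : L) {M : ℝ} (h : ∀ N, ∑ n ∈ Finset.range N, |x n| ≤ M) : ‖x‖ ≤ M := by
  rw [norm_eq]
  exact (summ x).tsum_le_of_sum_range_le h

/-- Coordinate functional. -/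
noncomputable def co (n : ℕ) : L →L[ℝ] ℝ :=
  LinearMap.mkContinuous
    { toFun := fun x => x n
      map_add' := fun x y => by simp
      map_smul' := fun c x => by simp } 1 (fun x => by
        simpa using coord_le x n)

theorem co_apply (n : ℕ) (x : L) : co n x = x n := rfl

/-- Lipschitz maps from the line to the space of summable sequences are differentiable almost
everywhere. -/
theorem ae_diff (f : ℝ → L) (K : NNReal) (hf : LipschitzWith K f) :
    ∀ᵐ t ∂(volume : Measure ℝ), DifferentiableAt ℝ f t := by
  have hc : ∀ n, LipschitzWith K (fun t => f t n) := by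
    intro n
    apply LipschitzWith.of_dist_le_mul
    intro s t
    have h1 := hf.dist_le_mul s t
    rw [dist_eq_norm] at h1 ⊢
    have h2 := coord_le (f s - f t) n
    have h3 : (f s - f t) n = f s n - f t n := by simp
    rw [h3] at h2
    exact h2.trans h1
  set d : ℕ → ℝ → ℝ := fun n => deriv (fun t => f t n) with hd
  have hdm : ∀ n, Measurable (d n) := fun n => measurable_deriv _
  have hdiff : ∀ᵐ t ∂(volume : Measure ℝ), ∀ n, DifferentiableAt ℝ (fun t => f t n) t := by
    rw [ae_all_iff]
    intro n
    exact (hc n).ae_differentiableAt_real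
  -- partial sums of derivatives are bounded
  have hbd : ∀ t, (∀ n, DifferentiableAt ℝ (fun t => f t n) t) →
      ∀ s : Finset ℕ, ∑ n ∈ s, |d n t| ≤ K := by
    intro t ht s
    have h1 : Tendsto (fun y => ∑ n ∈ s, |slope (fun t => f t n) t y|) (𝓝[≠] t)
        (𝓝 (∑ n ∈ s, |d n t|)) := by
      apply tendsto_finsetSum
      intro n _
      exact ((hasDerivAt_iff_tendsto_slope.1 (ht n).hasDerivAt)).abs
    apply le_of_tendsto h1
    filter_upwards [self_mem_nhdsWithin] with y hy
    have hy' : y - t ≠ 0 := sub_ne_zero.2 hy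
    have h2 : ∀ n, |slope (fun t => f t n) t y| = |(f y - f t) n| / |y - t| := by
      intro n
      rw [slope_def_field, abs_div]
      simp
    simp only [h2]
    rw [← Finset.sum_div, div_le_iff₀ (abs_pos.2 hy')]
    have h3 := hf.dist_le_mul y t
    rw [dist_eq_norm, Real.dist_eq] at h3
    exact (sum_le (f y - f t) s).trans h3
  -- a bounded version of the derivatives
  set D : Set ℝ := {t | ∀ n, DifferentiableAt ℝ (fun t => f t n) t} with hD
  have hsumm : ∀ t ∈ D, Summable fun n => |d n t| := by
    intro t ht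
    exact summable_of_sum_le (fun n => abs_nonneg _) (hbd t ht)
  have hDae : ∀ᵐ t ∂(volume : Measure ℝ), t ∈ D := hdiff
  set φ : ℕ → ℝ → ℝ := fun N t => (∑' n, ENNReal.ofReal |d (n + N) t|).toReal with hφ
  have hφm : ∀ N, Measurable (φ N) := by
    intro N
    apply Measurable.ennreal_toReal
    apply Measurable.tsum
    intro n
    exact ((hdm (n + N)).abs).ennreal_ofReal
  have hφeq : ∀ N, ∀ t ∈ D, φ N t = ∑' n, |d (n + N) t| := by
    intro N t ht
    have h1 : Summable fun n => |d (n + N) t| := (summable_nat_add_iff N).2 (hsumm t ht)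
    simp only [hφ]
    rw [← ENNReal.ofReal_tsum_of_nonneg (fun n => abs_nonneg _) h1,
      ENNReal.toReal_ofReal (tsum_nonneg fun n => abs_nonneg _)]
  have hφ0 : ∀ N t, 0 ≤ φ N t := fun N t => ENNReal.toReal_nonneg
  have hφK : ∀ N, ∀ t ∈ D, φ N t ≤ K := by
    intro N t ht
    rw [hφeq N t ht]
    have h1 : Summable fun n => |d (n + N) t| := (summable_nat_add_iff N).2 (hsumm t ht)
    apply h1.tsum_le_of_sum_range_le
    intro n
    have h2 := hbd t ht ((Finset.range n).map (addRightEmbedding N))
    rw [Finset.sum_map] at h2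
    exact h2
  have hφle : ∀ N, ∀ t ∈ D, ∀ s : Finset ℕ, (∀ n ∈ s, N ≤ n) → ∑ n ∈ s, |d n t| ≤ φ N t := by
    intro N t ht s hs
    rw [hφeq N t ht]
    have h1 : Summable fun n => |d (n + N) t| := (summable_nat_add_iff N).2 (hsumm t ht)
    have h2 : ∑ n ∈ s, |d n t| = ∑ n ∈ s.image (fun n => n - N), |d (n + N) t| := by
      rw [Finset.sum_image]
      · apply Finset.sum_congr rfl
        intro n hn
        rw [Nat.sub_add_cancel (hs n hn)]
      · intro a ha b hb hab
        have h3 := hs a ha
        have h4 := hs b hb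
        simp only at hab
        omega
    rw [h2]
    exact h1.sum_le_tsum _ (fun n _ => abs_nonneg _)
  have hφloc : ∀ N, LocallyIntegrable (φ N) volume := by
    intro N
    apply (locallyIntegrable_const (K : ℝ)).mono (hφm N).aestronglyMeasurable
    filter_upwards [hDae] with t ht
    have hKn : ‖(K : ℝ)‖ = K := Real.norm_of_nonneg K.2
    rw [Real.norm_of_nonneg (hφ0 N t), hKn]
    exact hφK N t ht
  have hφint : ∀ N a b, IntervalIntegrable (φ N) volume a b := by
    intro N a b
    rw [intervalIntegrable_iff]
    exact ((hφloc N).integrableOn_isCompact isCompact_uIcc).mono_set Set.uIoc_subset_uIcc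
  have hac : ∀ n a b, AbsolutelyContinuousOnInterval (fun t => f t n) a b := by
    intro n a b
    exact ((hc n).lipschitzOnWith).absolutelyContinuousOnInterval
  have hincr : ∀ N a b, a ≤ b → ∀ s : Finset ℕ, (∀ n ∈ s, N ≤ n) →
      ∑ n ∈ s, |f b n - f a n| ≤ ∫ t in a..b, φ N t := by
    intro N a b hab s hs
    have h1 : ∀ n, |f b n - f a n| ≤ ∫ t in a..b, |d n t| := by
      intro n
      rw [← (hac n a b).integral_deriv_eq_sub]
      exact intervalIntegral.abs_integral_le_integral_abs hab
    have hi : ∀ n, IntervalIntegrable (fun t => |d n t|) volume a b := fun n =>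
      ((hac n a b).intervalIntegrable_deriv).abs
    refine (Finset.sum_le_sum (fun n _ => h1 n)).trans ?_
    rw [← intervalIntegral.integral_finsetSum (fun n _ => hi n)]
    apply intervalIntegral.integral_mono_ae hab
    · have := IntervalIntegrable.sum s (fun n _ => hi n)
      refine this.congr ?_
      intro u _
      simp
    · exact hφint N a b
    · filter_upwards [hDae] with t ht
      exact hφle N t ht s hs
  set F : ℕ → ℝ → ℝ := fun N y => ∫ t in (0 : ℝ)..y, φ N t with hF
  have hincr' : ∀ N t y, ∀ s : Finset ℕ, (∀ n ∈ s, N ≤ n) →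
      ∑ n ∈ s, |f y n - f t n| ≤ |F N y - F N t| := by
    intro N t y s hs
    have h0 : ∀ a b, F N b - F N a = ∫ t in a..b, φ N t := by
      intro a b
      simp only [hF]
      rw [intervalIntegral.integral_interval_sub_left (hφint N 0 b) (hφint N 0 a)]
    rcases le_total t y with h | h
    · have := hincr N t y h s hs
      rw [← h0] at this
      exact this.trans (le_abs_self _)
    · have := hincr N y t h s hs
      rw [← h0] at this
      have h2 : ∑ n ∈ s, |f y n - f t n| = ∑ n ∈ s, |f t n - f y n| := by
        apply Finset.sum_congr rfl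
        intro n _
        rw [abs_sub_comm]
      rw [h2, abs_sub_comm]
      exact this.trans (le_abs_self _)
  have hFd : ∀ᵐ t ∂(volume : Measure ℝ), ∀ N, HasDerivAt (F N) (φ N t) t := by
    rw [ae_all_iff]
    intro N
    filter_upwards [LocallyIntegrable.ae_hasDerivAt_integral (hφloc N)] with t ht
    exact ht 0
  filter_upwards [hDae, hFd] with t ht hFt
  have hst := hsumm t ht
  have hD' : HasDerivAt f (mk (fun n => d n t) hst) t := by
    rw [hasDerivAt_iff_isLittleO, Asymptotics.isLittleO_iff]
    intro ε hε
    have htail : Tendsto (fun N => φ N t) atTop (𝓝 0) := by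
      have := tendsto_sum_nat_add (fun n => |d n t|)
      refine this.congr ?_
      intro N
      rw [hφeq N t ht]
    obtain ⟨N, hN⟩ := (htail.eventually (gt_mem_nhds (by positivity : 0 < ε / 8))).exists
    have e1 := (hasDerivAt_iff_isLittleO.1 (hFt N))
    rw [Asymptotics.isLittleO_iff] at e1
    have e1' := e1 (by positivity : 0 < ε / 4)
    have e2 : ∀ n, ∀ᶠ y in 𝓝 t, ‖f y n - f t n - (y - t) • d n t‖ ≤ ε / (4 * (N + 1)) * ‖y - t‖ := by
      intro n
      have := hasDerivAt_iff_isLittleO.1 (ht n).hasDerivAt
      rw [Asymptotics.isLittleO_iff] at this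
      exact this (by positivity)
    have e2' : ∀ᶠ y in 𝓝 t, ∀ n ∈ Finset.range N,
        ‖f y n - f t n - (y - t) • d n t‖ ≤ ε / (4 * (N + 1)) * ‖y - t‖ := by
      rw [Finset.eventually_all]
      intro n _
      exact e2 n
    filter_upwards [e1', e2'] with y h1 h2
    apply norm_le_of
    intro M
    have hv : ∀ n, |(f y - f t - (y - t) • mk (fun n => d n t) hst) n|
        = |f y n - f t n - (y - t) * d n t| := by
      intro n
      simp [mk_apply]
    simp only [hv]
    have h3 : ∑ n ∈ Finset.range M, |f y n - f t n - (y - t) * d n t|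
        ≤ ∑ n ∈ Finset.range N, |f y n - f t n - (y - t) * d n t|
          + ∑ n ∈ Finset.Ico N (N + M), |f y n - f t n - (y - t) * d n t| := by
      rw [Finset.sum_range_add_sum_Ico _ (Nat.le_add_right N M)]
      apply Finset.sum_le_sum_of_subset_of_nonneg
      · intro n hn
        rw [Finset.mem_range] at hn ⊢
        omega
      · intro n _ _
        exact abs_nonneg _
    have h4 : ∑ n ∈ Finset.range N, |f y n - f t n - (y - t) * d n t| ≤ ε / 4 * |y - t| := by
      have h5 : ∑ n ∈ Finset.range N, |f y n - f t n - (y - t) * d n t|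
          ≤ ∑ _n ∈ Finset.range N, ε / (4 * (N + 1)) * ‖y - t‖ := by
        apply Finset.sum_le_sum
        intro n hn
        exact h2 n hn
      rw [Finset.sum_const, Finset.card_range, nsmul_eq_mul] at h5
      refine h5.trans ?_
      rw [Real.norm_eq_abs, ← mul_assoc]
      apply mul_le_mul_of_nonneg_right _ (abs_nonneg _)
      rw [mul_div_assoc', div_le_div_iff₀ (by positivity) (by positivity)]
      nlinarith
    have h6 : ∑ n ∈ Finset.Ico N (N + M), |f y n - f t n - (y - t) * d n t|
        ≤ |F N y - F N t| + |y - t| * φ N t := by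
      have h7 : ∀ n ∈ Finset.Ico N (N + M), |f y n - f t n - (y - t) * d n t|
          ≤ |f y n - f t n| + |y - t| * |d n t| := by
        intro n _
        refine (abs_sub _ _).trans ?_
        rw [abs_mul]
      refine (Finset.sum_le_sum h7).trans ?_
      rw [Finset.sum_add_distrib, ← Finset.mul_sum]
      have h8 := hincr' N t y (Finset.Ico N (N + M)) (fun n hn => (Finset.mem_Ico.1 hn).1)
      have h9 := hφle N t ht (Finset.Ico N (N + M)) (fun n hn => (Finset.mem_Ico.1 hn).1)
      have h10 := mul_le_mul_of_nonneg_left h9 (abs_nonneg (y - t))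
      linarith
    have h11 : |F N y - F N t| ≤ ε / 4 * |y - t| + |y - t| * φ N t := by
      simp only [Real.norm_eq_abs, smul_eq_mul] at h1
      have h12 : |F N y - F N t| ≤ |F N y - F N t - (y - t) * φ N t| + |(y - t) * φ N t| := by
        have := abs_add_le (F N y - F N t - (y - t) * φ N t) ((y - t) * φ N t)
        rwa [sub_add_cancel] at this
      rw [abs_mul, abs_of_nonneg (hφ0 N t)] at h12
      linarith
    have h13 : |y - t| * φ N t ≤ |y - t| * (ε / 8) :=
      mul_le_mul_of_nonneg_left hN.le (abs_nonneg _)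
    rw [Real.norm_eq_abs]
    have h14 : 0 ≤ ε * |y - t| := by positivity
    linarith
  exact hD'.differentiableAt

end Pool.Agent.Helper57.L1
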