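import Mathlib

set_option autoImplicit false
set_option maxHeartbeats 1000000

namespace Pool.Agent.Helper57.NumIdx

open Filter Topology

/-! ### Numerical range versus norms -/

section range
variable {X : Type} [NormedAddCommGroup X] [NormedSpace ℝ X]

/-- `v` bounds the numerical range of `T`. -/
def NR (T : X →L[ℝ] X) (v : ℝ) : Prop :=
  ∀ (x : X) (f : X →L[ℝ] ℝ), ‖x‖ = 1 → ‖f‖ = 1 → f x = 1 → ‖f (T x)‖ ≤ v

theorem NR.neg {T : X →L[ℝ] X} {v : ℝ} (h : NR T v) : NR (-T) v := by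
  intro x f hx hf hfx
  have := h x f hx hf hfx
  simpa using this

theorem low1 {T : X →L[ℝ] X} {v : ℝ} (hv : NR T v) {α : ℝ} (hα : 0 ≤ α) (w : X) :
    (1 - α * v) * ‖w‖ ≤ ‖w - α • T w‖ := by
  rcases eq_or_ne w 0 with rfl | hw
  · simp
  have hw' : 0 < ‖w‖ := norm_pos_iff.2 hw
  obtain ⟨f, hf, hfw⟩ := exists_dual_vector ℝ w hw'.ne'
  have hfw' : f w = ‖w‖ := by simpa using hfw
  have hx : ‖(‖w‖⁻¹ • w)‖ = 1 := by
    rw [norm_smul, norm_inv, norm_norm, inv_mul_cancel₀ hw'.ne']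
  have hfx : f (‖w‖⁻¹ • w) = 1 := by
    rw [map_smul, hfw', smul_eq_mul, inv_mul_cancel₀ hw'.ne']
  have h1 := hv _ f hx hf hfx
  rw [map_smul, map_smul, norm_smul, norm_inv, norm_norm] at h1
  have h2 : ‖f (T w)‖ ≤ v * ‖w‖ := by
    have := mul_le_mul_of_nonneg_left h1 hw'.le
    rw [← mul_assoc, mul_inv_cancel₀ hw'.ne', one_mul] at this
    linarith
  have h3 : f (w - α • T w) ≤ ‖w - α • T w‖ := by
    have := f.le_opNorm (w - α • T w)
    rw [hf, one_mul] at this
    exact (le_abs_self _).trans this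
  have h4 : f (w - α • T w) = ‖w‖ - α * f (T w) := by
    rw [map_sub, map_smul, hfw', smul_eq_mul]
  have h5 : f (T w) ≤ v * ‖w‖ := (le_abs_self _).trans h2
  have h6 := mul_le_mul_of_nonneg_left h5 hα
  rw [h4] at h3
  linarith

theorem low2 {T : X →L[ℝ] X} (hT : ‖T‖ ≤ 1) {v : ℝ} (hv : NR T v) {α : ℝ} (hα : 0 ≤ α) (x : X) :
    (1 - α * v) * ‖x + α • T x‖ ≤ (1 + α ^ 2) * ‖x‖ := by
  have h1 := low1 hv hα (x + α • T x)
  have h2 : x + α • T x - α • T (x + α • T x) = x - (α ^ 2) • T (T x) := by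
    rw [map_add, map_smul]
    module
  rw [h2] at h1
  have h3 : ‖x - (α ^ 2) • T (T x)‖ ≤ ‖x‖ + α ^ 2 * ‖T (T x)‖ := by
    refine (norm_sub_le _ _).trans ?_
    rw [norm_smul, Real.norm_of_nonneg (sq_nonneg α)]
  have h4 : ‖T (T x)‖ ≤ ‖x‖ := by
    have a1 := T.le_opNorm (T x)
    have a2 := T.le_opNorm x
    have := norm_nonneg (T x)
    have := norm_nonneg x
    nlinarith
  nlinarith [sq_nonneg α, norm_nonneg x]

/-- The norm of a space in which `‖I + S‖ ≤ M` and `‖I - S‖ ≤ M` force `1 + ‖S‖ ≤ M`. -/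
def NOne (E : Type) [NormedAddCommGroup E] [NormedSpace ℝ E] : Prop :=
  ∀ (S : E →L[ℝ] E) (M : ℝ), (∀ x, ‖x + S x‖ ≤ M * ‖x‖) → (∀ x, ‖x - S x‖ ≤ M * ‖x‖) →
    1 + ‖S‖ ≤ M

/-- Perturbation of the numerical index one property. -/
theorem perturb {E : Type} [NormedAddCommGroup E] [NormedSpace ℝ E] (hE : NOne E)
    (Φ : E ≃L[ℝ] X) {c : ℝ} (hc : 1 ≤ c) (h1 : ∀ e, ‖Φ e‖ ≤ ‖e‖) (h2 : ∀ e, ‖e‖ ≤ c * ‖Φ e‖)
    {T : X →L[ℝ] X} (hT : ‖T‖ = 1) {v : ℝ} (hv : NR T v) {α : ℝ} (hα : 0 < α) (hαv : α * v < 1) :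
    (1 + α / c) * (1 - α * v) ≤ c * (1 + α ^ 2) := by
  have hc0 : 0 < c := by linarith
  set S : E →L[ℝ] E :=
    α • ((Φ.symm : X →L[ℝ] E).comp (T.comp (Φ : E →L[ℝ] X))) with hS
  have hSx : ∀ e, S e = α • Φ.symm (T (Φ e)) := by
    intro e
    simp [hS]
  have hΦS : ∀ e, Φ (S e) = α • T (Φ e) := by
    intro e
    rw [hSx, map_smul, ContinuousLinearEquiv.apply_symm_apply]
  have hpos : 0 < 1 - α * v := by linarith
  set M : ℝ := c * (1 + α ^ 2) / (1 - α * v) with hM
  have key : ∀ e, ‖e + S e‖ ≤ M * ‖e‖ := by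
    intro e
    have a1 := low2 hT.le hv hα.le (Φ e)
    have a2 := h2 (e + S e)
    rw [map_add, hΦS] at a2
    have a3 := h1 e
    rw [hM, div_mul_eq_mul_div, le_div_iff₀ hpos]
    have a4 : (1 + α ^ 2) * ‖Φ e‖ ≤ (1 + α ^ 2) * ‖e‖ :=
      mul_le_mul_of_nonneg_left a3 (by positivity)
    have a5 := mul_le_mul_of_nonneg_left (a1.trans a4) hc0.le
    have a6 := mul_le_mul_of_nonneg_right a2 hpos.le
    linarith
  have key' : ∀ e, ‖e - S e‖ ≤ M * ‖e‖ := by
    intro e
    have hTn : ‖-T‖ ≤ 1 := by rw [norm_neg, hT]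
    have a1 := low2 hTn hv.neg hα.le (Φ e)
    have a2 := h2 (e - S e)
    rw [map_sub, hΦS] at a2
    have e1 : Φ e + α • (-T) (Φ e) = Φ e - α • T (Φ e) := by
      simp [sub_eq_add_neg]
    rw [e1] at a1
    have a3 := h1 e
    rw [hM, div_mul_eq_mul_div, le_div_iff₀ hpos]
    have a4 : (1 + α ^ 2) * ‖Φ e‖ ≤ (1 + α ^ 2) * ‖e‖ :=
      mul_le_mul_of_nonneg_left a3 (by positivity)
    have a5 := mul_le_mul_of_nonneg_left (a1.trans a4) hc0.le
    have a6 := mul_le_mul_of_nonneg_right a2 hpos.le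
    linarith
  have h3 := hE S M key key'
  have h4 : α / c ≤ ‖S‖ := by
    have : ‖T‖ ≤ c / α * ‖S‖ := by
      apply ContinuousLinearMap.opNorm_le_bound _ (by positivity)
      intro x
      have b1 : T x = Φ (α⁻¹ • S (Φ.symm x)) := by
        rw [map_smul, hΦS, ContinuousLinearEquiv.apply_symm_apply, smul_smul,
          inv_mul_cancel₀ hα.ne', one_smul]
      rw [b1]
      refine (h1 _).trans ?_
      rw [norm_smul, norm_inv, Real.norm_of_nonneg hα.le]
      have b2 := S.le_opNorm (Φ.symm x)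
      have b3 := h2 (Φ.symm x)
      rw [ContinuousLinearEquiv.apply_symm_apply] at b3
      have b4 : ‖S (Φ.symm x)‖ ≤ ‖S‖ * (c * ‖x‖) :=
        b2.trans (mul_le_mul_of_nonneg_left b3 (norm_nonneg _))
      have b5 := mul_le_mul_of_nonneg_left b4 (inv_pos.2 hα).le
      refine b5.trans (le_of_eq ?_)
      field_simp
    rw [hT] at this
    rw [div_le_iff₀ hc0]
    have h5 := mul_le_mul_of_nonneg_left this hα.le
    have h6 : α * (c / α * ‖S‖) = ‖S‖ * c := by field_simp
    rw [h6] at h5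
    linarith
  have h5 : 1 + α / c ≤ M := by linarith
  rw [hM, le_div_iff₀ hpos] at h5
  exact h5

end range

/-! ### Renorming by adding spikes to the unit ball -/

structure RenData (E : Type) [NormedAddCommGroup E] [NormedSpace ℝ E] where
  J : Type
  x : J → E
  g : J → (E →L[ℝ] ℝ)
  c : ℝ
  θ : ℝ
  hc : 1 ≤ c
  hx : ∀ j, ‖x j‖ ≤ c
  hθ0 : 0 ≤ θ
  hθ : θ < 1
  hg : ∀ j, ‖g j‖ ≤ θ
  hgx : ∀ j, g j (x j) = 1
  hgx' : ∀ i j, i ≠ j → |g j (x i)| ≤ θ
  dense : ∀ z : E, z ∈ closure (Submodule.span ℝ (Set.range x) : Set E)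

section ren
variable {E : Type} [NormedAddCommGroup E] [NormedSpace ℝ E]

/-- The renormed space. -/
def Ren (_D : RenData E) : Type := E

instance (D : RenData E) : AddCommGroup (Ren D) := inferInstanceAs (AddCommGroup E)
instance (D : RenData E) : Module ℝ (Ren D) := inferInstanceAs (Module ℝ E)

/-- The polar set. -/
def Pol (D : RenData E) : Set (E →L[ℝ] ℝ) := {y | ‖y‖ ≤ 1 ∧ ∀ j, |y (D.x j)| ≤ 1}

/-- The identity map. -/
def toE (D : RenData E) : Ren D ≃ₗ[ℝ] E := LinearEquiv.refl ℝ E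

noncomputable instance (D : RenData E) : Norm (Ren D) := ⟨fun z => ⨆ y : Pol D, |y.1 (toE D z)|⟩

theorem pol_zero (D : RenData E) : (0 : E →L[ℝ] ℝ) ∈ Pol D := by
  constructor
  · simp
  · intro j; simp

instance (D : RenData E) : Nonempty (Pol D) := ⟨⟨0, pol_zero D⟩⟩

theorem norm_def (D : RenData E) (z : Ren D) : ‖z‖ = ⨆ y : Pol D, |y.1 (toE D z)| := rfl

theorem bdd (D : RenData E) (z : Ren D) :
    BddAbove (Set.range fun y : Pol D => |y.1 (toE D z)|) := by
  refine ⟨‖toE D z‖, ?_⟩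
  rintro r ⟨y, rfl⟩
  have := y.1.le_opNorm (toE D z)
  have h1 := y.2.1
  have h2 := norm_nonneg (toE D z)
  simp only [Real.norm_eq_abs] at this
  nlinarith

theorem le_ren (D : RenData E) {y : E →L[ℝ] ℝ} (hy : y ∈ Pol D) (z : Ren D) :
    |y (toE D z)| ≤ ‖z‖ := by
  rw [norm_def]
  exact le_ciSup (bdd D z) ⟨y, hy⟩

theorem ren_le (D : RenData E) {z : Ren D} {r : ℝ} (h : ∀ y ∈ Pol D, |y (toE D z)| ≤ r) :
    ‖z‖ ≤ r := by
  rw [norm_def]
  exact ciSup_le (fun y => h y.1 y.2)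

theorem ren_le_norm (D : RenData E) (z : Ren D) : ‖z‖ ≤ ‖toE D z‖ := by
  apply ren_le
  intro y hy
  have := y.le_opNorm (toE D z)
  have h1 := hy.1
  have h2 := norm_nonneg (toE D z)
  simp only [Real.norm_eq_abs] at this
  nlinarith

theorem norm_le_ren (D : RenData E) (z : Ren D) : ‖toE D z‖ ≤ D.c * ‖z‖ := by
  have hc : 0 < D.c := by linarith [D.hc]
  obtain ⟨f, hf, hfz⟩ := exists_dual_vector'' ℝ (toE D z)
  have hy : D.c⁻¹ • f ∈ Pol D := by
    constructor
    · rw [norm_smul, norm_inv, Real.norm_of_nonneg hc.le, inv_mul_le_iff₀ hc]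
      linarith [D.hc]
    · intro j
      rw [_root_.smul_apply, smul_eq_mul, abs_mul, abs_inv, abs_of_pos hc,
        inv_mul_le_iff₀ hc, mul_one]
      have h1 := f.le_opNorm (D.x j)
      have h2 := D.hx j
      have h3 := norm_nonneg (D.x j)
      simp only [Real.norm_eq_abs] at h1
      nlinarith
  have h1 := le_ren D hy z
  have hfz' : f (toE D z) = ‖toE D z‖ := by simpa using hfz
  rw [_root_.smul_apply, smul_eq_mul, hfz', abs_of_nonneg (by positivity),
    inv_mul_le_iff₀ hc] at h1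
  exact h1

theorem ren_core (D : RenData E) : NormedSpace.Core ℝ (Ren D) where
  norm_nonneg z := (abs_nonneg _).trans (le_ren D (pol_zero D) z)
  norm_smul r z := by
    have h0 : ∀ w : Ren D, 0 ≤ ‖w‖ := fun w => (abs_nonneg _).trans (le_ren D (pol_zero D) w)
    have h : ∀ (r : ℝ) (z : Ren D), ‖r • z‖ ≤ |r| * ‖z‖ := by
      intro r z
      apply ren_le
      intro y hy
      rw [map_smul, map_smul, smul_eq_mul, abs_mul]
      exact mul_le_mul_of_nonneg_left (le_ren D hy z) (abs_nonneg r)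
    rw [Real.norm_eq_abs]
    apply le_antisymm (h r z)
    rcases eq_or_ne r 0 with hr | hr
    · rw [hr, abs_zero, zero_mul]
      exact h0 _
    · have h1 := h r⁻¹ (r • z)
      rw [smul_smul, inv_mul_cancel₀ hr, one_smul, abs_inv] at h1
      have h2 := mul_le_mul_of_nonneg_left h1 (abs_nonneg r)
      rw [← mul_assoc, mul_inv_cancel₀ (abs_ne_zero.2 hr), one_mul] at h2
      exact h2
  norm_triangle z w := by
    apply ren_le
    intro y hy
    rw [map_add, map_add]
    exact (abs_add_le _ _).trans (add_le_add (le_ren D hy z) (le_ren D hy w))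
  norm_eq_zero_iff z := by
    constructor
    · intro h
      have h1 := norm_le_ren D z
      rw [h, mul_zero] at h1
      have h2 : toE D z = 0 := norm_le_zero_iff.1 h1
      exact (toE D).map_eq_zero_iff.1 h2
    · rintro rfl
      apply le_antisymm
      · have := ren_le_norm D 0
        simpa using this
      · exact (abs_nonneg _).trans (le_ren D (pol_zero D) 0)

noncomputable instance (D : RenData E) : NormedAddCommGroup (Ren D) :=
  NormedAddCommGroup.ofCore (ren_core D)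

noncomputable instance (D : RenData E) : NormedSpace ℝ (Ren D) :=
  NormedSpace.ofCore (ren_core D)

theorem le_ren' (D : RenData E) {y : E →L[ℝ] ℝ} (hy : y ∈ Pol D) (z : Ren D) :
    |y (toE D z)| ≤ ‖z‖ := le_ren D hy z

theorem ren_le' (D : RenData E) {z : Ren D} {r : ℝ} (h : ∀ y ∈ Pol D, |y (toE D z)| ≤ r) :
    ‖z‖ ≤ r := ren_le D h

theorem ren_le_norm' (D : RenData E) (z : Ren D) : ‖z‖ ≤ ‖toE D z‖ := ren_le_norm D z

theorem norm_le_ren' (D : RenData E) (z : Ren D) : ‖toE D z‖ ≤ D.c * ‖z‖ := norm_le_ren D z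

/-- The identity map as a continuous linear equivalence. -/
noncomputable def Id (D : RenData E) : E ≃L[ℝ] Ren D :=
  LinearEquiv.toContinuousLinearEquivOfBounds (toE D).symm 1 D.c
    (fun e => by
      have := ren_le_norm' D ((toE D).symm e)
      rwa [LinearEquiv.apply_symm_apply, ← one_mul ‖e‖] at this)
    (fun z => norm_le_ren' D z)

theorem toE_Id (D : RenData E) (e : E) : toE D (Id D e) = e := rfl

theorem Id_le (D : RenData E) (e : E) : ‖Id D e‖ ≤ ‖e‖ := ren_le_norm' D _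

theorem le_Id (D : RenData E) (e : E) : ‖e‖ ≤ D.c * ‖Id D e‖ := norm_le_ren' D (Id D e)

instance (D : RenData E) [CompleteSpace E] : CompleteSpace (Ren D) :=
  (completeSpace_congr (e := (Id D).toEquiv) (Id D).isUniformEmbedding).1 inferInstance

theorem dual_le (D : RenData E) {u : Ren D →L[ℝ] ℝ} {M : ℝ} (hM : 0 < M)
    (h1 : ‖u.comp (Id D : E →L[ℝ] Ren D)‖ ≤ M) (h2 : ∀ j, |u (Id D (D.x j))| ≤ M) : ‖u‖ ≤ M := by
  have hy : M⁻¹ • (u.comp (Id D : E →L[ℝ] Ren D)) ∈ Pol D := by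
    constructor
    · rw [norm_smul, norm_inv, Real.norm_of_nonneg hM.le, inv_mul_le_iff₀ hM, mul_one]
      exact h1
    · intro j
      rw [_root_.smul_apply, smul_eq_mul, abs_mul, abs_inv, abs_of_pos hM,
        inv_mul_le_iff₀ hM, mul_one]
      exact h2 j
  apply ContinuousLinearMap.opNorm_le_bound _ hM.le
  intro z
  have h3 := le_ren' D hy z
  rw [_root_.smul_apply, smul_eq_mul, abs_mul, abs_inv, abs_of_pos hM,
    inv_mul_le_iff₀ hM] at h3
  exact h3

/-- The exposing functionals on the renormed space. -/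
noncomputable def G (D : RenData E) (j : D.J) : Ren D →L[ℝ] ℝ :=
  (D.g j).comp ((Id D).symm : Ren D →L[ℝ] E)

theorem G_Id (D : RenData E) (j : D.J) (e : E) : G D j (Id D e) = D.g j e := by
  simp [G]

theorem norm_spike (D : RenData E) (j : D.J) : ‖Id D (D.x j)‖ ≤ 1 := by
  apply ren_le'
  intro y hy
  exact hy.2 j

theorem comp_Id_le (D : RenData E) (u : Ren D →L[ℝ] ℝ) :
    ‖u.comp (Id D : E →L[ℝ] Ren D)‖ ≤ ‖u‖ := by
  apply ContinuousLinearMap.opNorm_le_bound _ (norm_nonneg _)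
  intro e
  refine (u.le_opNorm _).trans ?_
  exact mul_le_mul_of_nonneg_left (Id_le D e) (norm_nonneg _)

theorem G_diff (D : RenData E) (j : D.J) (u : Ren D →L[ℝ] ℝ) (hu : ‖u‖ ≤ (1 - D.θ) / 2) :
    ‖G D j + u‖ ≤ 1 + u (Id D (D.x j)) := by
  have hθ := D.hθ
  have hux : ∀ i, |u (Id D (D.x i))| ≤ (1 - D.θ) / 2 := by
    intro i
    have h1 := u.le_opNorm (Id D (D.x i))
    have h2 := norm_spike D i
    have h3 := norm_nonneg u
    rw [Real.norm_eq_abs] at h1
    nlinarith [norm_nonneg (Id D (D.x i))]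
  have hj := abs_le.1 (hux j)
  have hM : 0 < 1 + u (Id D (D.x j)) := by
    have := D.hθ0
    linarith
  apply dual_le D hM
  · have h1 : (G D j + u).comp (Id D : E →L[ℝ] Ren D)
        = D.g j + u.comp (Id D : E →L[ℝ] Ren D) := by
      ext e
      simp [G]
    rw [h1]
    refine (norm_add_le _ _).trans ?_
    have h2 := D.hg j
    have h3 := comp_Id_le D u
    linarith
  · intro i
    rw [_root_.add_apply, G_Id]
    rcases eq_or_ne i j with rfl | hij
    · rw [D.hgx, abs_of_pos hM]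
    · refine (abs_add_le _ _).trans ?_
      have h1 := D.hgx' i j hij
      have h2 := hux i
      linarith

theorem G_norm (D : RenData E) (j : D.J) : ‖G D j‖ = 1 := by
  have hθ := D.hθ
  apply le_antisymm
  · have h := G_diff D j 0 (by rw [norm_zero]; linarith)
    simpa using h
  · have h1 := (G D j).le_opNorm (Id D (D.x j))
    rw [G_Id, D.hgx, norm_one] at h1
    have h2 := norm_spike D j
    nlinarith [norm_nonneg (G D j), norm_nonneg (Id D (D.x j))]

theorem bidual_close (D : RenData E) (j : D.J) (φ : (Ren D →L[ℝ] ℝ) →L[ℝ] ℝ) (hφ : ‖φ‖ ≤ 1) :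
    ‖φ - NormedSpace.inclusionInDoubleDual ℝ (Ren D) (Id D (D.x j))‖
      ≤ (1 - φ (G D j)) / ((1 - D.θ) / 2) := by
  have hθ := D.hθ
  set r : ℝ := (1 - D.θ) / 2 with hr
  have hr0 : 0 < r := by rw [hr]; linarith
  have hφle : ∀ w, φ w ≤ ‖w‖ := by
    intro w
    have := φ.le_opNorm w
    rw [Real.norm_eq_abs] at this
    have h2 := le_abs_self (φ w)
    nlinarith [norm_nonneg w]
  have hG1 : 0 ≤ 1 - φ (G D j) := by
    have := hφle (G D j)
    rw [G_norm] at this
    linarith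
  have key : ∀ u : Ren D →L[ℝ] ℝ, ‖u‖ ≤ r → φ u - u (Id D (D.x j)) ≤ 1 - φ (G D j) := by
    intro u hu
    have h1 := G_diff D j u hu
    have h2 := hφle (G D j + u)
    rw [map_add] at h2
    linarith
  apply ContinuousLinearMap.opNorm_le_bound _ (by positivity)
  intro u
  rw [_root_.sub_apply, NormedSpace.dual_def, Real.norm_eq_abs]
  rcases eq_or_ne u 0 with rfl | hu
  · simp
  have hu' : 0 < ‖u‖ := norm_pos_iff.2 hu
  have hs : 0 < r / ‖u‖ := by positivity
  have hn1 : ‖(r / ‖u‖) • u‖ ≤ r := by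
    rw [norm_smul, Real.norm_of_nonneg hs.le]
    apply le_of_eq
    field_simp
  have hn2 : ‖(-(r / ‖u‖)) • u‖ ≤ r := by
    rw [norm_smul, norm_neg, Real.norm_of_nonneg hs.le]
    apply le_of_eq
    field_simp
  have k1 := key _ hn1
  have k2 := key _ hn2
  rw [map_smul, _root_.smul_apply, smul_eq_mul, smul_eq_mul] at k1 k2
  have e1 : (1 - φ (G D j)) / r * ‖u‖ = (1 - φ (G D j)) / (r / ‖u‖) := by
    field_simp
  rw [e1, abs_le]
  constructor
  · rw [← neg_le_neg_iff, neg_neg, le_div_iff₀ hs]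
    linarith
  · rw [le_div_iff₀ hs]
    linarith

/-- The renormed space is the unique isometric predual of its dual. -/
theorem unique_predual (D : RenData E) [CompleteSpace E] (Z : Type) [NormedAddCommGroup Z]
    [NormedSpace ℝ Z] [CompleteSpace Z] (Φ : (Z →L[ℝ] ℝ) ≃ₗᵢ[ℝ] (Ren D →L[ℝ] ℝ)) :
    Nonempty (Z ≃ₗᵢ[ℝ] Ren D) := by
  classical
  have hθ := D.hθ
  -- embedding of Z into the bidual of Ren D
  let J : Z →ₗᵢ[ℝ] ((Ren D →L[ℝ] ℝ) →L[ℝ] ℝ) :=
    { toFun := fun z => (NormedSpace.inclusionInDoubleDual ℝ Z z).comp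
        (Φ.symm.toContinuousLinearEquiv : (Ren D →L[ℝ] ℝ) →L[ℝ] (Z →L[ℝ] ℝ))
      map_add' := by
        intro a b
        ext u
        simp
      map_smul' := by
        intro a b
        ext u
        simp
      norm_map' := by
        intro z
        have h1 : ‖(NormedSpace.inclusionInDoubleDual ℝ Z z)‖ = ‖z‖ :=
          (NormedSpace.inclusionInDoubleDualLi (E := Z) ℝ).norm_map z
        have h2 := ContinuousLinearMap.opNorm_comp_linearIsometryEquiv
          (NormedSpace.inclusionInDoubleDual ℝ Z z) Φ.symm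
        rw [h1] at h2
        exact h2 }
  have hJ : ∀ (z : Z) (u : Ren D →L[ℝ] ℝ), J z u = (Φ.symm u) z := fun z u => rfl
  let ι : Ren D →ₗᵢ[ℝ] ((Ren D →L[ℝ] ℝ) →L[ℝ] ℝ) := NormedSpace.inclusionInDoubleDualLi ℝ
  have hι : ∀ (x : Ren D) (u : Ren D →L[ℝ] ℝ), ι x u = u x := fun x u => rfl
  have hclosed : IsClosed (Set.range J) :=
    (J.isometry.isUniformInducing.isComplete_range).isClosed
  -- the spikes lie in the range of J
  have hspike : ∀ j, ι (Id D (D.x j)) ∈ Set.range J := by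
    intro j
    rw [← hclosed.closure_eq]
    refine (Metric.mem_closure_iff (α := (Ren D →L[ℝ] ℝ) →L[ℝ] ℝ)).2 ?_
    intro ε hε
    set r : ℝ := (1 - D.θ) / 2 with hr
    have hr0 : 0 < r := by rw [hr]; linarith
    set w : Z →L[ℝ] ℝ := Φ.symm (G D j) with hw
    have hwn : ‖w‖ = 1 := by rw [hw, LinearIsometryEquiv.norm_map, G_norm]
    have hlt : (1 - min (1 / 2) (ε * r / 2)) < ‖w‖ := by
      rw [hwn]
      have : 0 < min (1 / 2) (ε * r / 2) := by positivity
      linarith
    have hnn : 0 ≤ 1 - min (1 / 2) (ε * r / 2) := by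
      have := min_le_left (1 / 2) (ε * r / 2)
      linarith
    obtain ⟨z, hz1, hz2⟩ := w.exists_lt_apply_of_lt_opNorm hlt
    rw [Real.norm_eq_abs] at hz2
    -- choose the sign
    obtain ⟨z', hz1', hz2'⟩ : ∃ z' : Z, ‖z'‖ ≤ 1 ∧ 1 - min (1 / 2) (ε * r / 2) < w z' := by
      rcases le_total 0 (w z) with h | h
      · rw [abs_of_nonneg h] at hz2
        exact ⟨z, hz1.le, hz2⟩
      · rw [abs_of_nonpos h] at hz2
        refine ⟨-z, ?_, ?_⟩
        · rw [norm_neg]; exact hz1.le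
        · rw [map_neg]; exact hz2
    refine ⟨J z', ⟨z', rfl⟩, ?_⟩
    have h1 := bidual_close D j (J z') (by rw [J.norm_map]; exact hz1')
    have h2 : J z' (G D j) = w z' := rfl
    rw [h2, ← hr] at h1
    have h5 : ‖J z' - ι (Id D (D.x j))‖ < ε := by
      refine lt_of_le_of_lt h1 ?_
      rw [div_lt_iff₀ hr0]
      have h3 := min_le_right (1 / 2) (ε * r / 2)
      have h4 : 0 < ε * r := by positivity
      linarith
    exact lt_of_eq_of_lt ((dist_comm _ _).trans (dist_eq_norm (J z') (ι (Id D (D.x j))))) h5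
  -- the whole of Ren D
  have hall : ∀ x : Ren D, ι x ∈ Set.range J := by
    intro x
    let P : Submodule ℝ (Ren D) := (LinearMap.range J.toLinearMap).comap ι.toLinearMap
    have hPc : IsClosed (P : Set (Ren D)) := by
      have : (P : Set (Ren D)) = ι ⁻¹' (Set.range J) := by
        ext y
        simp [P]
      rw [this]
      exact hclosed.preimage ι.continuous
    have hx : (x : Ren D) ∈ (P : Set (Ren D)) := by
      have h1 := D.dense ((Id D).symm x)
      have h2 : (Id D) ((Id D).symm x) ∈ closure (Id D '' (Submodule.span ℝ (Set.range D.x) : Set E)) :=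
        image_closure_subset_closure_image (Id D).continuous ⟨_, h1, rfl⟩
      rw [ContinuousLinearEquiv.apply_symm_apply] at h2
      refine (closure_minimal ?_ hPc) h2
      rintro _ ⟨e, he, rfl⟩
      have h3 : Submodule.span ℝ (Set.range D.x) ≤ P.comap (Id D : E →L[ℝ] Ren D).toLinearMap := by
        rw [Submodule.span_le]
        rintro _ ⟨j, rfl⟩
        have := hspike j
        obtain ⟨z, hz⟩ := this
        refine ⟨z, ?_⟩
        exact hz
      exact h3 he
    obtain ⟨z, hz⟩ := hx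
    exact ⟨z, hz⟩
  choose F hF using hall
  have hFadd : ∀ x y, F (x + y) = F x + F y := by
    intro x y
    apply J.injective
    rw [map_add, hF, hF, hF, map_add]
  have hFsmul : ∀ (a : ℝ) x, F (a • x) = a • F x := by
    intro a x
    apply J.injective
    rw [map_smul, hF, hF, map_smul]
  let Ψ : Ren D →ₗᵢ[ℝ] Z :=
    { toFun := F
      map_add' := hFadd
      map_smul' := hFsmul
      norm_map' := by
        intro x
        change ‖F x‖ = ‖x‖
        rw [← J.norm_map, hF, ι.norm_map] }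
  have hΨ : ∀ x, J (Ψ x) = ι x := hF
  have hsurj : Function.Surjective Ψ := by
    by_contra hns
    obtain ⟨z, hz⟩ : ∃ z, z ∉ Set.range Ψ := by
      by_contra h
      push Not at h
      exact hns h
    have hc : IsClosed (Set.range Ψ) := Ψ.isometry.isClosedEmbedding.isClosed_range
    have hconv : Convex ℝ (Set.range Ψ) := by
      have : (Set.range Ψ) = (LinearMap.range Ψ.toLinearMap : Set Z) := by
        ext y; simp
      rw [this]
      exact (LinearMap.range Ψ.toLinearMap).convex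
    obtain ⟨f, u, hfu, hfz⟩ := geometric_hahn_banach_closed_point hconv hc hz
    have hu0 : 0 < u := by
      have := hfu 0 ⟨0, map_zero Ψ⟩
      rwa [map_zero] at this
    have hvan : ∀ x, f (Ψ x) = 0 := by
      intro x
      by_contra hne
      have h1 := hfu (Ψ ((u / f (Ψ x)) • x)) ⟨_, rfl⟩
      rw [map_smul, map_smul, smul_eq_mul, div_mul_cancel₀ _ hne] at h1
      exact lt_irrefl _ h1
    have hΦf : Φ f = 0 := by
      ext x
      have h1 : ι x (Φ f) = J (Ψ x) (Φ f) := by rw [hΨ]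
      rw [hι, hJ, LinearIsometryEquiv.symm_apply_apply, hvan] at h1
      simpa using h1
    have hf0 : f = 0 := by
      have := Φ.map_eq_zero_iff.1 hΦf
      exact this
    rw [hf0] at hfz
    simp only [_root_.zero_apply] at hfz
    linarith
  exact ⟨(LinearIsometryEquiv.ofSurjective Ψ hsurj).symm⟩

end ren

end Pool.Agent.Helper57.NumIdx
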