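import Pool.Agent.Helper57.NumIdx

set_option autoImplicit false
set_option maxHeartbeats 1000000
namespace Pool.Agent.Helper57.NumIdx
open Filter Topology OnePoint

/-- The ambient space. -/
abbrev V : Type := Fin 3 → C(OnePoint ℕ, ℝ)

/-- Sum of the three limits. -/
noncomputable def limSum : V →L[ℝ] ℝ :=
  ∑ i, (ContinuousMap.evalCLM ℝ (∞ : OnePoint ℕ)).comp
    (ContinuousLinearMap.proj (R := ℝ) (φ := fun _ : Fin 3 => C(OnePoint ℕ, ℝ)) i)

/-- The space of triples of convergent sequences whose limits sum to zero. -/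
def Esp : Type := (limSum.ker : Submodule ℝ V)

noncomputable instance : NormedAddCommGroup Esp := inferInstanceAs (NormedAddCommGroup limSum.ker)
noncomputable instance : NormedSpace ℝ Esp := inferInstanceAs (NormedSpace ℝ limSum.ker)
noncomputable instance : CompleteSpace Esp := inferInstanceAs (CompleteSpace limSum.ker)

/-- Evaluation of the `i`-th sequence at `k`. -/
noncomputable def ev (i : Fin 3) (k : OnePoint ℕ) : Esp →L[ℝ] ℝ :=
  ((ContinuousMap.evalCLM ℝ k).comp
    (ContinuousLinearMap.proj (R := ℝ) (φ := fun _ : Fin 3 => C(OnePoint ℕ, ℝ)) i)).comp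
    (limSum.ker.subtypeL)

theorem ev_def (i : Fin 3) (k : OnePoint ℕ) (x : Esp) : ev i k x = x.1 i k := rfl

theorem ev_le (i : Fin 3) (k : OnePoint ℕ) (x : Esp) : |ev i k x| ≤ ‖x‖ := by
  have h1 : ‖x.1 i‖ ≤ ‖x.1‖ := norm_le_pi_norm x.1 i
  have h2 : ‖x.1 i k‖ ≤ ‖x.1 i‖ := (x.1 i).norm_coe_le_norm k
  exact h2.trans h1

theorem ev_tendsto (i : Fin 3) (x : Esp) :
    Tendsto (fun n : ℕ => ev i (n : OnePoint ℕ) x) atTop (𝓝 (ev i ∞ x)) :=
  (OnePoint.continuous_iff_from_nat _).1 (x.1 i).continuous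

theorem norm_le_of (x : Esp) {M : ℝ} (hM : 0 ≤ M)
    (h : ∀ (i : Fin 3) (n : ℕ), |ev i (n : OnePoint ℕ) x| ≤ M) : ‖x‖ ≤ M := by
  have h1 : ‖x.1‖ ≤ M := by
    rw [pi_norm_le_iff_of_nonneg hM]
    intro i
    rw [ContinuousMap.norm_le _ hM]
    intro k
    induction k using OnePoint.rec with
    | infty =>
      have h2 := (ev_tendsto i x).abs
      exact le_of_tendsto' h2 (fun n => h i n)
    | coe n => exact h i n
  exact h1

theorem ev_sum (x : Esp) : ev 0 ∞ x + ev 1 ∞ x + ev 2 ∞ x = 0 := by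
  have h := x.2
  have h2 : limSum x.1 = 0 := h
  simp only [limSum, Fin.sum_univ_three] at h2
  exact h2

/-- Constructor. -/
noncomputable def mk (f : Fin 3 → ℕ → ℝ) (L : Fin 3 → ℝ)
    (hf : ∀ i, Tendsto (f i) atTop (𝓝 (L i))) (hL : L 0 + L 1 + L 2 = 0) : Esp :=
  ⟨fun i => continuousMapMkNat (f i) (L i) (hf i), by
    change limSum _ = 0
    simp only [limSum, Fin.sum_univ_three]
    exact hL⟩

theorem ev_mk (f : Fin 3 → ℕ → ℝ) (L : Fin 3 → ℝ)
    (hf : ∀ i, Tendsto (f i) atTop (𝓝 (L i))) (hL : L 0 + L 1 + L 2 = 0) (i : Fin 3) (n : ℕ) :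
    ev i (n : OnePoint ℕ) (mk f L hf hL) = f i n := rfl

theorem ev_mk_infty (f : Fin 3 → ℕ → ℝ) (L : Fin 3 → ℝ)
    (hf : ∀ i, Tendsto (f i) atTop (𝓝 (L i))) (hL : L 0 + L 1 + L 2 = 0) (i : Fin 3) :
    ev i ∞ (mk f L hf hL) = L i := rfl

/-- Unit vector supported at one isolated point. -/
noncomputable def eu (m : ℕ) (j : Fin 3) : Esp :=
  mk (fun i n => if i = j ∧ n = m then 1 else 0) (fun _ => 0)
    (fun i => by
      apply tendsto_const_nhds.congr'
      filter_upwards [eventually_gt_atTop m] with n hn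
      rw [if_neg]
      rintro ⟨_, h⟩
      omega) (by norm_num)

theorem ev_eu (m : ℕ) (j i : Fin 3) (n : ℕ) :
    ev i (n : OnePoint ℕ) (eu m j) = if i = j ∧ n = m then 1 else 0 := rfl

theorem ev_eu_infty (m : ℕ) (j i : Fin 3) : ev i ∞ (eu m j) = 0 := rfl

/-- Constant element with given limits. -/
noncomputable def tau (N : ℕ) (L : Fin 3 → ℝ) (hL : L 0 + L 1 + L 2 = 0) : Esp :=
  mk (fun i n => if N ≤ n then L i else 0) L
    (fun i => by
      apply tendsto_const_nhds.congr'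
      filter_upwards [eventually_ge_atTop N] with n hn
      rw [if_pos hn]) hL

theorem ev_tau (N : ℕ) (L : Fin 3 → ℝ) (hL : L 0 + L 1 + L 2 = 0) (i : Fin 3) (n : ℕ) :
    ev i (n : OnePoint ℕ) (tau N L hL) = if N ≤ n then L i else 0 := rfl

theorem ev_tau_infty (N : ℕ) (L : Fin 3 → ℝ) (hL : L 0 + L 1 + L 2 = 0) (i : Fin 3) :
    ev i ∞ (tau N L hL) = L i := rfl

theorem ext_ev {x y : Esp} (h : ∀ (i : Fin 3) (n : ℕ), ev i (n : OnePoint ℕ) x
    = ev i (n : OnePoint ℕ) y) : x = y := by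
  rw [← sub_eq_zero, ← norm_le_zero_iff]
  apply norm_le_of _ le_rfl
  intro i n
  rw [map_sub, h i n, sub_self, abs_zero]

theorem norm_eu (m : ℕ) (j : Fin 3) : ‖eu m j‖ = 1 := by
  apply le_antisymm
  · apply norm_le_of _ zero_le_one
    intro i n
    rw [ev_eu]
    split_ifs <;> simp
  · have := ev_le j (m : OnePoint ℕ) (eu m j)
    rw [ev_eu] at this
    simpa using this

/-- The numerical index one property of the base space. -/
theorem nOne : NOne Esp := by
  intro S M h1 h2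
  have hM : 1 ≤ M := by
    have a1 := h1 (eu 0 0)
    have a2 := h2 (eu 0 0)
    rw [norm_eu, mul_one] at a1 a2
    have a3 : ‖(eu 0 0 + S (eu 0 0)) + (eu 0 0 - S (eu 0 0))‖ ≤ M + M :=
      (norm_add_le _ _).trans (add_le_add a1 a2)
    have a4 : (eu 0 0 + S (eu 0 0)) + (eu 0 0 - S (eu 0 0)) = (2 : ℝ) • eu 0 0 := by
      module
    rw [a4, norm_smul, norm_eu] at a3
    norm_num at a3
    linarith
  have h3 : ‖S‖ ≤ M - 1 := by
    apply ContinuousLinearMap.opNorm_le_bound _ (by linarith)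
    intro x
    set R := ‖x‖ with hR
    have hR0 : 0 ≤ R := norm_nonneg x
    apply norm_le_of _ (mul_nonneg (by linarith) hR0)
    intro i n
    set t := ev i (n : OnePoint ℕ) x with ht
    have htR : |t| ≤ R := ev_le i n x
    have htR' := abs_le.1 htR
    set s := ev i (n : OnePoint ℕ) (S x) with hs
    set b := ev i (n : OnePoint ℕ) (S (eu n i)) with hb
    have hxp : ∀ a : ℝ, |a| ≤ R → ‖x + (a - t) • eu n i‖ ≤ R := by
      intro a ha
      apply norm_le_of _ hR0
      intro j m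
      rw [map_add, _root_.map_smul, ev_eu]
      split_ifs with hjm
      · obtain ⟨rfl, rfl⟩ := hjm
        rw [← ht]
        simpa using ha
      · simpa using ev_le j m x
    have hev : ∀ a : ℝ, ev i (n : OnePoint ℕ) (x + (a - t) • eu n i) = a := by
      intro a
      rw [map_add, _root_.map_smul, ev_eu, if_pos ⟨rfl, rfl⟩, ← ht]
      simp
    have hevS : ∀ a : ℝ, ev i (n : OnePoint ℕ) (S (x + (a - t) • eu n i)) = s + (a - t) * b := by
      intro a
      rw [map_add, _root_.map_smul, map_add, _root_.map_smul, ← hs, ← hb, smul_eq_mul]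
    have hM0 : 0 ≤ M := by linarith
    have key : ∀ a : ℝ, |a| ≤ R → |a + (s + (a - t) * b)| ≤ M * R ∧
        |a - (s + (a - t) * b)| ≤ M * R := by
      intro a ha
      have c1 := ev_le i n (x + (a - t) • eu n i + S (x + (a - t) • eu n i))
      have c2 := ev_le i n (x + (a - t) • eu n i - S (x + (a - t) • eu n i))
      rw [map_add, hev, hevS] at c1
      rw [map_sub, hev, hevS] at c2
      have c3 := mul_le_mul_of_nonneg_left (hxp a ha) hM0
      exact ⟨c1.trans ((h1 _).trans c3), c2.trans ((h2 _).trans c3)⟩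
    obtain ⟨k1, k2⟩ := key R (abs_of_nonneg hR0).le
    obtain ⟨k3, k4⟩ := key (-R) (by rw [abs_neg, abs_of_nonneg hR0])
    rw [abs_le] at k1 k2 k3 k4 ⊢
    rcases le_total 0 b with hb0 | hb0
    · have m1 := mul_nonneg (by linarith : 0 ≤ R - t) hb0
      have m2 := mul_nonneg (by linarith : 0 ≤ R + t) hb0
      constructor
      · nlinarith
      · nlinarith
    · have m1 := mul_nonneg_of_nonpos_of_nonpos (by linarith : t - R ≤ 0) hb0
      have m2 := mul_nonneg_of_nonpos_of_nonpos (by linarith : -R - t ≤ 0) hb0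
      constructor
      · nlinarith
      · nlinarith
  linarith

/-! ### The bad operator on the dual -/

/-- Hexagon operator applied to the limits. -/
noncomputable def AL (x : Esp) : Fin 3 → ℝ :=
  ![ev 1 ∞ x - ev 2 ∞ x, ev 2 ∞ x - ev 0 ∞ x, ev 0 ∞ x - ev 1 ∞ x]

theorem AL_sum (x : Esp) : AL x 0 + AL x 1 + AL x 2 = 0 := by
  simp [AL]

theorem AL_add (x y : Esp) (i : Fin 3) : AL (x + y) i = AL x i + AL y i := by
  fin_cases i <;> simp [AL] <;> ring

theorem AL_smul (c : ℝ) (x : Esp) (i : Fin 3) : AL (c • x) i = c * AL x i := by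
  fin_cases i <;> simp [AL] <;> ring

theorem AL_le (x : Esp) (i : Fin 3) : |AL x i| ≤ 2 * ‖x‖ := by
  have h0 := abs_le.1 (ev_le 0 ∞ x)
  have h1 := abs_le.1 (ev_le 1 ∞ x)
  have h2 := abs_le.1 (ev_le 2 ∞ x)
  rw [abs_le]
  fin_cases i <;> simp [AL] <;> constructor <;> linarith

/-- Tail vectors. -/
noncomputable def RN (N : ℕ) (x : Esp) : Esp := tau N (AL x) (AL_sum x)

theorem ev_RN (N : ℕ) (x : Esp) (i : Fin 3) (n : ℕ) :
    ev i (n : OnePoint ℕ) (RN N x) = if N ≤ n then AL x i else 0 := rfl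

theorem RN_add (N : ℕ) (x y : Esp) : RN N (x + y) = RN N x + RN N y := by
  apply ext_ev
  intro i n
  rw [map_add, ev_RN, ev_RN, ev_RN]
  split_ifs
  · exact AL_add x y i
  · simp

theorem RN_smul (N : ℕ) (c : ℝ) (x : Esp) : RN N (c • x) = c • RN N x := by
  apply ext_ev
  intro i n
  rw [_root_.map_smul, ev_RN, ev_RN, smul_eq_mul]
  split_ifs
  · exact AL_smul c x i
  · simp

theorem RN_le (N : ℕ) (x : Esp) : ‖RN N x‖ ≤ 2 * ‖x‖ := by
  apply norm_le_of _ (by positivity)
  intro i n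
  rw [ev_RN]
  split_ifs
  · exact AL_le x i
  · simp

theorem exists_ulim (y : Esp →L[ℝ] ℝ) (x : Esp) :
    ∃ l : ℝ, Tendsto (fun N => y (RN N x)) (hyperfilter ℕ : Filter ℕ) (𝓝 l) := by
  have hb : ∀ N, y (RN N x) ∈ Set.Icc (-(‖y‖ * (2 * ‖x‖))) (‖y‖ * (2 * ‖x‖)) := by
    intro N
    have h1 := y.le_opNorm (RN N x)
    have h2 := mul_le_mul_of_nonneg_left (RN_le N x) (norm_nonneg y)
    rw [Real.norm_eq_abs] at h1
    exact abs_le.1 (h1.trans h2)
  obtain ⟨l, _, hl⟩ := (isCompact_Icc (a := -(‖y‖ * (2 * ‖x‖))) (b := ‖y‖ * (2 * ‖x‖))).ultrafilter_le_nhds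
    ((hyperfilter ℕ).map (fun N => y (RN N x))) (by
      rw [Ultrafilter.coe_map, le_principal_iff, mem_map]
      exact Filter.univ_mem' hb)
  exact ⟨l, hl⟩

/-- The limit value. -/
noncomputable def hl (y : Esp →L[ℝ] ℝ) (x : Esp) : ℝ := (exists_ulim y x).choose

theorem hl_spec (y : Esp →L[ℝ] ℝ) (x : Esp) :
    Tendsto (fun N => y (RN N x)) (hyperfilter ℕ : Filter ℕ) (𝓝 (hl y x)) :=
  (exists_ulim y x).choose_spec

theorem hl_eq {y : Esp →L[ℝ] ℝ} {x : Esp} {l : ℝ}
    (h : Tendsto (fun N => y (RN N x)) (hyperfilter ℕ : Filter ℕ) (𝓝 l)) : hl y x = l :=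
  tendsto_nhds_unique (hl_spec y x) h

theorem hl_bound (y : Esp →L[ℝ] ℝ) (x : Esp) : ‖hl y x‖ ≤ 2 * ‖y‖ * ‖x‖ := by
  apply le_of_tendsto (hl_spec y x).norm
  apply Eventually.of_forall
  intro N
  refine (y.le_opNorm _).trans ?_
  have := mul_le_mul_of_nonneg_left (RN_le N x) (norm_nonneg y)
  linarith

/-- The operator `T₀` on the dual. -/
noncomputable def T0 : (Esp →L[ℝ] ℝ) →L[ℝ] (Esp →L[ℝ] ℝ) :=
  LinearMap.mkContinuous₂
    (LinearMap.mk₂ ℝ hl
      (by
        intro y z x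
        apply hl_eq
        exact (hl_spec y x).add (hl_spec z x))
      (by
        intro c y x
        apply hl_eq
        exact (hl_spec y x).const_mul c)
      (by
        intro y x z
        apply hl_eq
        have := (hl_spec y x).add (hl_spec y z)
        refine this.congr ?_
        intro N
        rw [RN_add, map_add])
      (by
        intro c y x
        apply hl_eq
        have := (hl_spec y x).const_mul c
        refine this.congr ?_
        intro N
        rw [RN_smul, _root_.map_smul, smul_eq_mul])) 2 hl_bound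

theorem T0_apply (y : Esp →L[ℝ] ℝ) (x : Esp) : T0 y x = hl y x := rfl

theorem near (x : Esp) {δ : ℝ} (hδ : 0 < δ) :
    ∀ᶠ N in atTop, ‖x + RN N x‖ ≤ 2 * ‖x‖ + δ ∧ ‖x - RN N x‖ ≤ 2 * ‖x‖ + δ := by
  have hs := ev_sum x
  have h0 := abs_le.1 (ev_le 0 ∞ x)
  have h1 := abs_le.1 (ev_le 1 ∞ x)
  have h2 := abs_le.1 (ev_le 2 ∞ x)
  have hx0 := norm_nonneg x
  have hLp : ∀ i, |ev i ∞ x + AL x i| ≤ 2 * ‖x‖ := by
    intro i
    rw [abs_le]
    fin_cases i <;> simp [AL] <;> constructor <;> linarith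
  have hLm : ∀ i, |ev i ∞ x - AL x i| ≤ 2 * ‖x‖ := by
    intro i
    rw [abs_le]
    fin_cases i <;> simp [AL] <;> constructor <;> linarith
  have hev : ∀ᶠ n : ℕ in atTop, ∀ i : Fin 3, |ev i (n : OnePoint ℕ) x - ev i ∞ x| < δ := by
    rw [eventually_all]
    intro i
    have := Metric.tendsto_nhds.1 (ev_tendsto i x) δ hδ
    exact this
  obtain ⟨N₀, hN₀⟩ := eventually_atTop.1 hev
  filter_upwards [eventually_ge_atTop N₀] with N hN
  constructor
  · apply norm_le_of _ (by positivity)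
    intro i n
    rw [map_add, ev_RN]
    split_ifs with hn
    · have h3 := abs_lt.1 (hN₀ n (hN.trans hn) i)
      have h4 := abs_le.1 (hLp i)
      rw [abs_le]
      constructor <;> linarith
    · rw [add_zero]
      have := ev_le i n x
      linarith
  · apply norm_le_of _ (by positivity)
    intro i n
    rw [map_sub, ev_RN]
    split_ifs with hn
    · have h3 := abs_lt.1 (hN₀ n (hN.trans hn) i)
      have h4 := abs_le.1 (hLm i)
      rw [abs_le]
      constructor <;> linarith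
    · rw [sub_zero]
      have := ev_le i n x
      linarith

theorem T0_add (y : Esp →L[ℝ] ℝ) : ‖y + T0 y‖ ≤ 2 * ‖y‖ := by
  apply ContinuousLinearMap.opNorm_le_bound _ (by positivity)
  intro x
  rw [_root_.add_apply, T0_apply]
  have h1 : Tendsto (fun N => y (x + RN N x)) (hyperfilter ℕ : Filter ℕ) (𝓝 (y x + hl y x)) := by
    have := (tendsto_const_nhds (x := y x)).add (hl_spec y x)
    refine this.congr ?_
    intro N
    rw [map_add]
  apply le_of_forall_pos_le_add
  intro δ hδ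
  have hδ' : 0 < δ / (‖y‖ + 1) := by positivity
  apply le_of_tendsto h1.norm
  have h2 := (near x hδ').filter_mono (Nat.hyperfilter_le_atTop)
  filter_upwards [h2] with N hN
  have h3 := y.le_opNorm (x + RN N x)
  have h4 := mul_le_mul_of_nonneg_left hN.1 (norm_nonneg y)
  have h5 : ‖y‖ * (δ / (‖y‖ + 1)) ≤ δ := by
    rw [mul_div_assoc', div_le_iff₀ (by positivity)]
    nlinarith [norm_nonneg y]
  nlinarith

theorem T0_sub (y : Esp →L[ℝ] ℝ) : ‖y - T0 y‖ ≤ 2 * ‖y‖ := by
  apply ContinuousLinearMap.opNorm_le_bound _ (by positivity)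
  intro x
  rw [_root_.sub_apply, T0_apply]
  have h1 : Tendsto (fun N => y (x - RN N x)) (hyperfilter ℕ : Filter ℕ) (𝓝 (y x - hl y x)) := by
    have := (tendsto_const_nhds (x := y x)).sub (hl_spec y x)
    refine this.congr ?_
    intro N
    rw [map_sub]
  apply le_of_forall_pos_le_add
  intro δ hδ
  have hδ' : 0 < δ / (‖y‖ + 1) := by positivity
  apply le_of_tendsto h1.norm
  have h2 := (near x hδ').filter_mono (Nat.hyperfilter_le_atTop)
  filter_upwards [h2] with N hN
  have h3 := y.le_opNorm (x - RN N x)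
  have h4 := mul_le_mul_of_nonneg_left hN.2 (norm_nonneg y)
  have h5 : ‖y‖ * (δ / (‖y‖ + 1)) ≤ δ := by
    rw [mul_div_assoc', div_le_iff₀ (by positivity)]
    nlinarith [norm_nonneg y]
  nlinarith

/-- Test vector for the size of `T₀`. -/
noncomputable def x0 : Esp := tau 0 ![0, 1, -1] (by simp)

theorem x0_le : ‖x0‖ ≤ 1 := by
  apply norm_le_of _ zero_le_one
  intro i n
  rw [x0, ev_tau, if_pos (Nat.zero_le n)]
  fin_cases i <;> simp

theorem T0_x0 : T0 (ev 0 ∞) x0 = 2 := by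
  rw [T0_apply]
  apply hl_eq
  have : ∀ N, ev 0 ∞ (RN N x0) = 2 := by
    intro N
    have h1 : ev 0 ∞ (RN N x0) = AL x0 0 := rfl
    have h2 : AL x0 0 = ev 1 ∞ x0 - ev 2 ∞ x0 := rfl
    rw [h1, h2, x0, ev_tau_infty, ev_tau_infty]
    change (1 : ℝ) - (-1) = 2
    norm_num
  simp only [this]
  exact tendsto_const_nhds

/-! ### Transfer of the bad operator to a renormed space -/

section transfer
variable {E : Type} [NormedAddCommGroup E] [NormedSpace ℝ E]

theorem normalize_norm {F : Type} [NormedAddCommGroup F] [NormedSpace ℝ F] (T : F →L[ℝ] F)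
    (h : 0 < ‖T‖) : ‖(‖T‖⁻¹ • T)‖ = 1 := by
  rw [norm_smul, norm_inv, norm_norm, inv_mul_cancel₀ h.ne']

theorem normalize_NR {F : Type} [NormedAddCommGroup F] [NormedSpace ℝ F] (T : F →L[ℝ] F)
    (h : 0 < ‖T‖) {v : ℝ} (hv : NR T v) : NR (‖T‖⁻¹ • T) (‖T‖⁻¹ * v) := by
  intro y φ hy hφ hφy
  have h1 := hv y φ hy hφ hφy
  rw [_root_.smul_apply, _root_.map_smul, norm_smul, norm_inv, norm_norm]
  exact mul_le_mul_of_nonneg_left h1 (inv_pos.2 h).le

/-- Restriction of functionals to the original space. -/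
noncomputable def pull (D : RenData E) : (Ren D →L[ℝ] ℝ) →L[ℝ] (E →L[ℝ] ℝ) :=
  (ContinuousLinearMap.compL ℝ E (Ren D) ℝ).flip (Id D : E →L[ℝ] Ren D)

/-- Its inverse. -/
noncomputable def push (D : RenData E) : (E →L[ℝ] ℝ) →L[ℝ] (Ren D →L[ℝ] ℝ) :=
  (ContinuousLinearMap.compL ℝ (Ren D) E ℝ).flip ((Id D).symm : Ren D →L[ℝ] E)

theorem pull_apply (D : RenData E) (u : Ren D →L[ℝ] ℝ) (e : E) : pull D u e = u (Id D e) := rfl

theorem push_apply (D : RenData E) (y : E →L[ℝ] ℝ) (z : Ren D) :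
    push D y z = y ((Id D).symm z) := rfl

theorem push_pull (D : RenData E) (u : Ren D →L[ℝ] ℝ) : push D (pull D u) = u := by
  ext z
  rw [push_apply, pull_apply, ContinuousLinearEquiv.apply_symm_apply]

theorem pull_push (D : RenData E) (y : E →L[ℝ] ℝ) : pull D (push D y) = y := by
  ext z
  rw [pull_apply, push_apply, ContinuousLinearEquiv.symm_apply_apply]

theorem pull_le (D : RenData E) (u : Ren D →L[ℝ] ℝ) : ‖pull D u‖ ≤ ‖u‖ := comp_Id_le D u

theorem push_le (D : RenData E) (y : E →L[ℝ] ℝ) : ‖push D y‖ ≤ D.c * ‖y‖ := by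
  have hc : 0 ≤ D.c := by linarith [D.hc]
  apply ContinuousLinearMap.opNorm_le_bound _ (by positivity)
  intro z
  rw [push_apply]
  have h1 := le_Id D ((Id D).symm z)
  rw [ContinuousLinearEquiv.apply_symm_apply] at h1
  have h2 := y.le_opNorm ((Id D).symm z)
  have h3 := mul_le_mul_of_nonneg_left h1 (norm_nonneg y)
  linarith

/-- Upper bound for the numerical radius of a transferred operator. -/
theorem transfer (D : RenData E) (T : (E →L[ℝ] ℝ) →L[ℝ] (E →L[ℝ] ℝ))
    (h1 : ∀ y, ‖y + T y‖ ≤ 2 * ‖y‖) (h2 : ∀ y, ‖y - T y‖ ≤ 2 * ‖y‖)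
    (y₀ : E →L[ℝ] ℝ) (e₀ : E) (hy₀ : ‖y₀‖ ≤ 1) (he₀ : ‖e₀‖ ≤ 1) (hT : T y₀ e₀ = 2) :
    ∃ T₁ : (Ren D →L[ℝ] ℝ) →L[ℝ] (Ren D →L[ℝ] ℝ), ‖T₁‖ = 1 ∧
      NR T₁ ((2 * D.c - 1) * D.c / 2) := by
  have hc : 0 < D.c := by linarith [D.hc]
  set T' : (Ren D →L[ℝ] ℝ) →L[ℝ] (Ren D →L[ℝ] ℝ) := (push D).comp (T.comp (pull D)) with hT'
  have hT'a : ∀ u, T' u = push D (T (pull D u)) := fun u => rfl
  have hbig : 2 / D.c ≤ ‖T'‖ := by
    have a1 : T' (push D y₀) (Id D e₀) = 2 := by
      rw [hT'a, pull_push, push_apply, ContinuousLinearEquiv.symm_apply_apply, hT]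
    have a2 := (T' (push D y₀)).le_opNorm (Id D e₀)
    have a3 := T'.le_opNorm (push D y₀)
    have a4 := push_le D y₀
    have a5 := (Id_le D e₀).trans he₀
    rw [a1, Real.norm_of_nonneg (by norm_num : (0:ℝ) ≤ 2)] at a2
    rw [div_le_iff₀ hc]
    have a6 : ‖push D y₀‖ ≤ D.c := by nlinarith
    have a7 : ‖T' (push D y₀)‖ ≤ ‖T'‖ * D.c :=
      a3.trans (mul_le_mul_of_nonneg_left a6 (norm_nonneg _))
    have a8 : ‖T' (push D y₀)‖ * ‖Id D e₀‖ ≤ ‖T' (push D y₀)‖ := by
      nlinarith [norm_nonneg (T' (push D y₀))]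
    linarith
  have hpos : 0 < ‖T'‖ := lt_of_lt_of_le (by positivity) hbig
  have hadd : ∀ u, ‖u + T' u‖ ≤ 2 * D.c * ‖u‖ := by
    intro u
    have b1 : u + T' u = push D (pull D u + T (pull D u)) := by
      rw [map_add, push_pull, hT'a]
    rw [b1]
    have b2 := push_le D (pull D u + T (pull D u))
    have b3 := h1 (pull D u)
    have b4 := pull_le D u
    have b5 : ‖pull D u + T (pull D u)‖ ≤ 2 * ‖u‖ := by linarith
    have b6 := mul_le_mul_of_nonneg_left b5 hc.le
    linarith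
  have hsub : ∀ u, ‖u - T' u‖ ≤ 2 * D.c * ‖u‖ := by
    intro u
    have b1 : u - T' u = push D (pull D u - T (pull D u)) := by
      rw [map_sub, push_pull, hT'a]
    rw [b1]
    have b2 := push_le D (pull D u - T (pull D u))
    have b3 := h2 (pull D u)
    have b4 := pull_le D u
    have b5 : ‖pull D u - T (pull D u)‖ ≤ 2 * ‖u‖ := by linarith
    have b6 := mul_le_mul_of_nonneg_left b5 hc.le
    linarith
  have hNR : NR T' (2 * D.c - 1) := by
    intro y φ hy hφ hφy
    have d1 := φ.le_opNorm (y + T' y)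
    have d2 := φ.le_opNorm (y - T' y)
    have d3 := hadd y
    have d4 := hsub y
    rw [hφ, one_mul, map_add, hφy, Real.norm_eq_abs] at d1
    rw [hφ, one_mul, map_sub, hφy, Real.norm_eq_abs] at d2
    rw [hy, mul_one] at d3 d4
    have d5 := (le_abs_self _).trans (d1.trans d3)
    have d6 := (le_abs_self _).trans (d2.trans d4)
    rw [Real.norm_eq_abs, abs_le]
    constructor <;> linarith
  refine ⟨‖T'‖⁻¹ • T', normalize_norm T' hpos, ?_⟩
  intro y φ hy hφ hφy
  refine (normalize_NR T' hpos hNR y φ hy hφ hφy).trans ?_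
  rw [inv_mul_le_iff₀ hpos]
  have c2 : 1 ≤ ‖T'‖ * (D.c / 2) := by
    have := mul_le_mul_of_nonneg_right hbig (by positivity : 0 ≤ D.c / 2)
    have e1 : 2 / D.c * (D.c / 2) = 1 := by field_simp
    linarith
  have c3 : 0 ≤ 2 * D.c - 1 := by linarith [D.hc]
  have c4 := mul_le_mul_of_nonneg_right c2 c3
  linarith

end transfer

/-! ### The concrete renorming data -/

/-- Base vectors near the limit directions. -/
noncomputable def w (k : Fin 3) : Esp :=
  tau 0 (fun i => if i = k then 1 else -(1 / 2)) (by fin_cases k <;> simp <;> norm_num)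

theorem ev_w (k i : Fin 3) (n : ℕ) :
    ev i (n : OnePoint ℕ) (w k) = if i = k then 1 else -(1 / 2) := by
  rw [w, ev_tau, if_pos (Nat.zero_le n)]

theorem ev_w_infty (k i : Fin 3) : ev i ∞ (w k) = if i = k then 1 else -(1 / 2) := rfl

theorem norm_w (k : Fin 3) : ‖w k‖ ≤ 1 := by
  apply norm_le_of _ zero_le_one
  intro i n
  rw [ev_w]
  split_ifs
  · simp
  · rw [abs_neg, abs_of_pos] <;> norm_num

theorem norm_ev (i : Fin 3) (k : OnePoint ℕ) : ‖ev i k‖ ≤ 1 := by
  apply ContinuousLinearMap.opNorm_le_bound _ zero_le_one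
  intro x
  rw [one_mul]
  exact ev_le i k x

/-- Density of the span of the spikes. -/
theorem dense_aux (P : Submodule ℝ Esp) (hP : ∀ m j, eu m j ∈ P) (hw : ∀ k, w k ∈ P) (z : Esp) :
    z ∈ closure (P : Set Esp) := by
  refine (Metric.mem_closure_iff (α := Esp)).2 ?_
  intro ε hε
  set q : Esp := ((2 / 3) * ev 0 ∞ z) • w 0 + ((2 / 3) * ev 1 ∞ z) • w 1
    + ((2 / 3) * ev 2 ∞ z) • w 2 with hq
  have hqP : q ∈ P :=
    P.add_mem (P.add_mem (P.smul_mem _ (hw 0)) (P.smul_mem _ (hw 1))) (P.smul_mem _ (hw 2))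
  have hs := ev_sum z
  have hqinf : ∀ i, ev i ∞ q = ev i ∞ z := by
    intro i
    rw [hq]
    simp only [map_add, _root_.map_smul, ev_w_infty, smul_eq_mul]
    fin_cases i <;> simp <;> linarith
  have hqn : ∀ i (n : ℕ), ev i (n : OnePoint ℕ) q = ev i ∞ z := by
    intro i n
    rw [← hqinf i, hq]
    simp only [map_add, _root_.map_smul, ev_w_infty, ev_w, smul_eq_mul]
  have hev : ∀ᶠ n : ℕ in atTop, ∀ i : Fin 3, |ev i (n : OnePoint ℕ) z - ev i ∞ z| < ε / 2 := by
    rw [eventually_all]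
    intro i
    have := Metric.tendsto_nhds.1 (ev_tendsto i z) (ε / 2) (by positivity)
    exact this
  obtain ⟨N, hN⟩ := eventually_atTop.1 hev
  set p : Esp := ∑ m ∈ Finset.range N, ∑ j : Fin 3,
    (ev j (m : OnePoint ℕ) z - ev j ∞ z) • eu m j with hp
  have hpP : p ∈ P :=
    P.sum_mem (fun m _ => P.sum_mem (fun j _ => P.smul_mem _ (hP m j)))
  have hpn : ∀ i (n : ℕ), ev i (n : OnePoint ℕ) p
      = if n < N then ev i (n : OnePoint ℕ) z - ev i ∞ z else 0 := by
    intro i n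
    rw [hp]
    simp only [map_sum, _root_.map_smul, ev_eu, smul_eq_mul]
    have h1 : ∀ m ∈ Finset.range N, ∑ j : Fin 3, (ev j (m : OnePoint ℕ) z - ev j ∞ z)
        * (if i = j ∧ n = m then (1 : ℝ) else 0)
        = if n = m then (ev i (m : OnePoint ℕ) z - ev i ∞ z) else 0 := by
      intro m _
      by_cases hnm : n = m
      · simp [hnm]
      · simp [hnm]
    rw [Finset.sum_congr rfl h1, Finset.sum_ite_eq]
    simp only [Finset.mem_range]
  refine ⟨p + q, P.add_mem hpP hqP, ?_⟩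
  have h2 : ‖z - (p + q)‖ ≤ ε / 2 := by
    apply norm_le_of _ (by positivity)
    intro i n
    rw [map_sub, map_add, hqn, hpn]
    split_ifs with hn
    · have : ev i (n : OnePoint ℕ) z - (ev i (n : OnePoint ℕ) z - ev i ∞ z + ev i ∞ z) = 0 := by ring
      rw [this, abs_zero]
      positivity
    · rw [zero_add]
      exact (hN n (not_lt.1 hn) i).le
  exact lt_of_eq_of_lt (dist_eq_norm z (p + q)) (by linarith)

/-- The renorming data. -/
noncomputable def DD : RenData Esp where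
  J := (ℕ × Fin 3) ⊕ Fin 3
  x := Sum.elim (fun a => (101 / 100 : ℝ) • eu a.1 a.2) (fun k => (201 / 200 : ℝ) • w k)
  g := Sum.elim (fun a => (100 / 101 : ℝ) • ev a.2 (a.1 : OnePoint ℕ))
    (fun k => (200 / 201 : ℝ) • ev k ∞)
  c := 101 / 100
  θ := 201 / 202
  hc := by norm_num
  hx := by
    rintro (⟨m, j⟩ | k)
    · simp only [Sum.elim_inl]
      rw [norm_smul, norm_eu]
      norm_num
    · simp only [Sum.elim_inr]
      rw [norm_smul]
      have := norm_w k
      have h2 : ‖(201 / 200 : ℝ)‖ = 201 / 200 := by norm_num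
      rw [h2]
      linarith
  hθ0 := by norm_num
  hθ := by norm_num
  hg := by
    rintro (⟨m, j⟩ | k)
    · simp only [Sum.elim_inl]
      rw [norm_smul]
      have := norm_ev j (m : OnePoint ℕ)
      have h2 : ‖(100 / 101 : ℝ)‖ = 100 / 101 := by norm_num
      rw [h2]
      linarith
    · simp only [Sum.elim_inr]
      rw [norm_smul]
      have := norm_ev k ∞
      have h2 : ‖(200 / 201 : ℝ)‖ = 200 / 201 := by norm_num
      rw [h2]
      linarith
  hgx := by
    rintro (⟨m, j⟩ | k)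
    · simp only [Sum.elim_inl]
      rw [_root_.smul_apply, _root_.map_smul, ev_eu, if_pos ⟨rfl, rfl⟩]
      norm_num
    · simp only [Sum.elim_inr]
      rw [_root_.smul_apply, _root_.map_smul, ev_w_infty, if_pos rfl]
      norm_num
  hgx' := by
    rintro (⟨m, j⟩ | k) (⟨m', j'⟩ | k') hne
    · simp only [Sum.elim_inl]
      rw [_root_.smul_apply, _root_.map_smul, ev_eu, if_neg]
      · norm_num
      · rintro ⟨rfl, rfl⟩
        exact hne rfl
    · simp only [Sum.elim_inl, Sum.elim_inr]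
      rw [_root_.smul_apply, _root_.map_smul, ev_eu_infty]
      norm_num
    · simp only [Sum.elim_inl, Sum.elim_inr]
      rw [_root_.smul_apply, _root_.map_smul, ev_w]
      split_ifs
      · norm_num
      · simp only [smul_eq_mul]
        rw [abs_le]
        norm_num
    · simp only [Sum.elim_inr]
      rw [_root_.smul_apply, _root_.map_smul, ev_w_infty, if_neg]
      · simp only [smul_eq_mul]
        rw [abs_le]
        norm_num
      · rintro rfl
        exact hne rfl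
  dense := by
    intro z
    apply dense_aux
    · intro m j
      have h1 : (101 / 100 : ℝ) • eu m j ∈ Submodule.span ℝ (Set.range
          (Sum.elim (fun a : ℕ × Fin 3 => (101 / 100 : ℝ) • eu a.1 a.2)
            (fun k : Fin 3 => (201 / 200 : ℝ) • w k))) :=
        Submodule.subset_span ⟨Sum.inl (m, j), rfl⟩
      have h2 := Submodule.smul_mem _ (100 / 101 : ℝ) h1
      have e : (100 / 101 : ℝ) * (101 / 100) = 1 := by norm_num
      rw [smul_smul, e, one_smul] at h2
      exact h2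
    · intro k
      have h1 : (201 / 200 : ℝ) • w k ∈ Submodule.span ℝ (Set.range
          (Sum.elim (fun a : ℕ × Fin 3 => (101 / 100 : ℝ) • eu a.1 a.2)
            (fun k : Fin 3 => (201 / 200 : ℝ) • w k))) :=
        Submodule.subset_span ⟨Sum.inr k, rfl⟩
      have h2 := Submodule.smul_mem _ (200 / 201 : ℝ) h1
      have e : (200 / 201 : ℝ) * (201 / 200) = 1 := by norm_num
      rw [smul_smul, e, one_smul] at h2
      exact h2

/-- The example space. -/
abbrev XX : Type := Ren DD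

theorem XX_upper : ∃ T₁ : (XX →L[ℝ] ℝ) →L[ℝ] (XX →L[ℝ] ℝ), ‖T₁‖ = 1 ∧ NR T₁ (11 / 20) := by
  obtain ⟨T₁, h1, h2⟩ := transfer DD T0 T0_add T0_sub (ev 0 ∞) x0 (norm_ev 0 ∞) x0_le T0_x0
  refine ⟨T₁, h1, ?_⟩
  intro x f hx hf hfx
  refine (h2 x f hx hf hfx).trans ?_
  change (2 * (101 / 100 : ℝ) - 1) * (101 / 100) / 2 ≤ 11 / 20
  norm_num

theorem XX_lower {T : XX →L[ℝ] XX} (hT : ‖T‖ = 1) {v : ℝ} (hv : NR T v) : 3 / 5 ≤ v := by
  by_contra hlt
  push Not at hlt
  have h := perturb nOne (Id DD) (c := DD.c) DD.hc (Id_le DD) (le_Id DD) hT hv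
    (α := 1 / 10) (by norm_num) (by linarith)
  change (1 + 1 / 10 / (101 / 100 : ℝ)) * (1 - 1 / 10 * v) ≤ (101 / 100) * (1 + (1 / 10) ^ 2) at h
  norm_num at h
  linarith

theorem XX_nontrivial : Nontrivial XX := by
  have h : eu 0 0 ≠ 0 := by
    intro h
    have := norm_eu 0 0
    rw [h, norm_zero] at this
    norm_num at this
  exact ⟨⟨Id DD (eu 0 0), 0, fun h' => h ((Id DD).map_eq_zero_iff.1 h')⟩⟩

theorem XX_complete : CompleteSpace XX := inferInstance

theorem XX_unique (Z : Type) [NormedAddCommGroup Z] [NormedSpace ℝ Z] [CompleteSpace Z]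
    (Φ : (Z →L[ℝ] ℝ) ≃ₗᵢ[ℝ] (XX →L[ℝ] ℝ)) : Nonempty (Z ≃ₗᵢ[ℝ] XX) :=
  unique_predual DD Z Φ

end Pool.Agent.Helper57.NumIdx
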